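import Pool.Agent.N549.AB.Abs3

/-!
# Homogeneous hard-core gases: configurations with many points (project HG)
-/

set_option autoImplicit false

namespace Pool.Agent.N549.AB

open MeasureTheory Set Finset
open scoped ENNReal NNReal
open Pool.Agent.N549.HG (A Z Adm)

variable {Ω : Type} [MeasurableSpace Ω] {μ : Measure Ω} {F : Ω → Ω → ℝ≥0∞} {D : ℝ}

theorem A_sub [SFinite μ] (hF : Adm F) (k l : ℕ) (φ : Ω → ℝ≥0∞) (hφ : Measurable φ) :
    A μ F (k + l) φ ≤ A μ F k φ * A μ F l φ := by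
  induction k generalizing φ with
  | zero => simp [A]
  | succ k ih =>
    rw [show k + 1 + l = (k + l) + 1 by omega]
    simp only [A]
    have hm : Measurable fun u => φ u * A μ F k (fun y => φ y * F u y) :=
      hφ.mul ((Pool.Agent.N549.HG.nice_A (μ := μ) hF k).meas hF hφ)
    rw [← lintegral_mul_const _ hm]
    refine lintegral_mono fun u => ?_
    calc φ u * A μ F (k + l) (fun y => φ y * F u y)
        ≤ φ u * (A μ F k (fun y => φ y * F u y) * A μ F l (fun y => φ y * F u y)) :=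
          mul_le_mul' le_rfl (ih _ (Pool.Agent.N549.HG.meas_mul hF hφ u))
      _ ≤ φ u * (A μ F k (fun y => φ y * F u y) * A μ F l φ) := by
          refine mul_le_mul' le_rfl (mul_le_mul' le_rfl ?_)
          exact Pool.Agent.N549.HG.A_mono l fun y => mul_le_of_le_one_right (by simp)
            (hF.le_one u y)
      _ = φ u * A μ F k (fun y => φ y * F u y) * A μ F l φ := by rw [mul_assoc]

theorem pr_sub [IsProbabilityMeasure μ] (hF : Adm F) (k l : ℕ) :
    pr μ F (k + l) ≤ pr μ F k * pr μ F l := by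
  have hfin : ∀ k, A μ F k (fun _ => 1) ≠ ∞ := fun k => by
    have h1 := Pool.Agent.N549.HG.A_le_pow (μ := μ) hF k (fun _ => 1)
    rw [lintegral_const, measure_univ, mul_one, one_pow] at h1
    exact (h1.trans_lt ENNReal.one_lt_top).ne
  unfold pr
  rw [← ENNReal.toReal_mul]
  exact ENNReal.toReal_mono (ENNReal.mul_ne_top (hfin k) (hfin l))
    (A_sub hF k l _ measurable_const)

/-- from a block of sizes to all larger sizes -/
theorem pr_all [IsProbabilityMeasure μ] (hF : Adm F) (a : ℝ) (k₀ : ℕ) (hk₀ : 1 ≤ k₀)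
    (h : ∀ k, k₀ ≤ k → k < 2 * k₀ → pr μ F k ≤ Real.exp (-(a * k))) :
    ∀ k, k₀ ≤ k → pr μ F k ≤ Real.exp (-(a * k)) := by
  intro k
  induction k using Nat.strong_induction_on with
  | _ k ih =>
    intro hk
    rcases Nat.lt_or_ge k (2 * k₀) with h2 | h2
    · exact h k hk h2
    · obtain ⟨l, rfl⟩ := Nat.exists_eq_add_of_le hk
      have h3 := ih l (by omega) (by omega)
      have h4 := h k₀ le_rfl (by omega)
      refine (pr_sub hF k₀ l).trans ?_
      calc pr μ F k₀ * pr μ F l ≤ Real.exp (-(a * k₀)) * Real.exp (-(a * l)) :=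
            mul_le_mul h4 h3 (pr_nonneg l) (Real.exp_pos _).le
        _ = Real.exp (-(a * (k₀ + l : ℕ))) := by
            rw [← Real.exp_add]
            congr 1
            push_cast
            ring

/-- Markov's inequality for the coefficients of the partition function -/
theorem pr_up [IsProbabilityMeasure μ] (hG : Gas μ F D) {κ : ℝ} (hκ : 0 ≤ κ)
    (hS : SupK μ F D κ) (s : ℝ) (hs : 0 < s) (k : ℕ) (hk : 1 ≤ k) :
    pr μ F k ≤ Real.exp (k * (Real.log (k * D / s) - s) +
      (s + s ^ 2 / 2 + κ * (s * Real.exp s)) / D) := by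
  have hD := hG.pos
  have hl := ac_pos hD hs
  have hk0 : (0 : ℝ) < k := by exact_mod_cast hk
  have hsum := summable_PZ (μ := μ) hG.adm _ hl.le
  have h1 : ac D s ^ k / (k.factorial : ℝ) * pr μ F k ≤ PZ μ F (ac D s) :=
    hsum.le_tsum k fun j _ => mul_nonneg (by positivity) (pr_nonneg j)
  have h2 := gas_up hG hκ hS s hs
  have hZ : 0 < PZ μ F (ac D s) := lt_of_lt_of_le one_pos (PZ_ge_one hG.adm _ hl.le)
  have h3 : PZ μ F (ac D s) ≤ Real.exp ((s + s ^ 2 / 2 + κ * (s * Real.exp s)) / D) := by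
    rw [← Real.log_le_iff_le_exp hZ, le_div_iff₀ hD]
    linarith
  have hf : (k.factorial : ℝ) ≤ (k : ℝ) ^ k := by exact_mod_cast Nat.factorial_le_pow k
  have h4 : pr μ F k ≤ (k : ℝ) ^ k / ac D s ^ k * PZ μ F (ac D s) := by
    have h5 : pr μ F k ≤ (k.factorial : ℝ) / ac D s ^ k * PZ μ F (ac D s) := by
      have hfp : (0 : ℝ) < k.factorial := by positivity
      rw [div_mul_eq_mul_div, le_div_iff₀ (pow_pos hl k)]
      rw [div_mul_eq_mul_div, div_le_iff₀ hfp] at h1
      linarith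
    refine h5.trans ?_
    exact mul_le_mul_of_nonneg_right (div_le_div_of_nonneg_right hf (pow_pos hl k).le) hZ.le
  refine h4.trans ?_
  have e1 : (k : ℝ) ^ k / ac D s ^ k = Real.exp (k * (Real.log (k * D / s) - s)) := by
    rw [← div_pow, Real.exp_nat_mul]
    congr 1
    rw [Real.exp_sub, Real.exp_log (by positivity)]
    unfold ac
    field_simp
  rw [e1, Real.exp_add]
  exact mul_le_mul_of_nonneg_left h3 (Real.exp_pos _).le

/-- **Configurations with many points are rare.** -/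
theorem large (X ε : ℝ) (hε : 0 < ε) : ∃ C N₀ : ℝ, 0 < C ∧
    ∀ (Ω : Type) [MeasurableSpace Ω] (μ : Measure Ω) [IsProbabilityMeasure μ]
      (F : Ω → Ω → ℝ≥0∞) (D κ N : ℝ), N₀ ≤ N → Gas μ F D → D ≤ 1 → 0 ≤ κ → SupK μ F D κ →
      κ ≤ Real.exp (-((X - ε / 4) * N)) →
      ∀ k : ℕ, C * N ≤ k * D → pr μ F k ≤ Real.exp (-((X - ε) * N * k)) := by
  rcases le_or_gt X ε with hX | hX
  · refine ⟨1, 0, one_pos, ?_⟩
    intro Ω _ μ _ F D κ N hN hG hD1 hκ hS hκN k hk
    refine (pr_le_one hG.adm k).trans ?_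
    rw [Real.one_le_exp_iff]
    have h1 : 0 ≤ (ε - X) * N * k := by
      have : 0 ≤ ε - X := by linarith
      positivity
    linarith
  have hX0 : 0 < X := hε.trans hX
  set C : ℝ := 4 * X ^ 2 / ε + X + 1 with hC
  have hC0 : 0 < C := by rw [hC]; positivity
  obtain ⟨N₁, hN₁, hdec⟩ := decay X (ε / 4) 1 (by positivity) one_pos
  refine ⟨C, max (max N₁ 1) (max (8 / ε) (4 * Real.log (4 * (C + 1) / ε) / ε)), hC0, ?_⟩
  intro Ω _ μ _ F D κ N hN hG hD1 hκ hS hκN
  have g1 : N₁ ≤ N := ((le_max_left _ _).trans (le_max_left _ _)).trans hN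
  have g2 : 1 ≤ N := ((le_max_right _ _).trans (le_max_left _ _)).trans hN
  have g3 : 8 / ε ≤ N := ((le_max_left _ _).trans (le_max_right _ _)).trans hN
  have g4 : 4 * Real.log (4 * (C + 1) / ε) / ε ≤ N :=
    ((le_max_right _ _).trans (le_max_right _ _)).trans hN
  rw [div_le_iff₀ hε] at g3 g4
  have hD := hG.pos
  have hN0 : 0 < N := by linarith
  set s : ℝ := (X - ε / 2) * N with hs
  have hs0 : 0 < s := mul_pos (by linarith) hN0
  have hsX : s ≤ X * N := mul_le_mul_of_nonneg_right (by linarith) hN0.le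
  have hsl : ε / 2 * N ≤ s := mul_le_mul_of_nonneg_right (by linarith) hN0.le
  have hκs : κ * (s * Real.exp s) ≤ 1 := by
    have eexp : Real.exp (-((X - ε / 4) * N)) * Real.exp s = Real.exp (-(ε / 4 * N)) := by
      rw [← Real.exp_add]
      congr 1
      rw [hs]; ring
    calc κ * (s * Real.exp s) = s * (κ * Real.exp s) := by ring
      _ ≤ s * (Real.exp (-((X - ε / 4) * N)) * Real.exp s) := by
          refine mul_le_mul_of_nonneg_left ?_ hs0.le
          exact mul_le_mul_of_nonneg_right hκN (Real.exp_pos _).le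
      _ = s * Real.exp (-(ε / 4 * N)) := by rw [eexp]
      _ ≤ (1 + |X| * N) * Real.exp (-(ε / 4 * N)) := by
          refine mul_le_mul_of_nonneg_right ?_ (Real.exp_pos _).le
          rw [abs_of_pos hX0]
          linarith
      _ ≤ 1 := hdec N g1
  have hk₀' : 0 < C * N / D := by positivity
  have hk₀ : 1 ≤ ⌈C * N / D⌉₊ := Nat.one_le_iff_ne_zero.2 (Nat.ceil_pos.2 hk₀').ne'
  have hall := pr_all (μ := μ) hG.adm ((X - ε) * N) ⌈C * N / D⌉₊ hk₀ ?_
  · intro k hk
    refine hall k (Nat.ceil_le.2 ?_)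
    rw [div_le_iff₀ hD]
    exact hk
  intro k hk1 hk2
  have hkD : C * N ≤ k * D := by
    have := Nat.ceil_le.1 hk1
    rwa [div_le_iff₀ hD] at this
  have hk0 : (0 : ℝ) < k := by
    have : 1 ≤ k := hk₀.trans hk1
    exact_mod_cast this
  have hkD2 : k * D ≤ 2 * (C * N) + 2 := by
    have h1 : (⌈C * N / D⌉₊ : ℝ) < C * N / D + 1 := Nat.ceil_lt_add_one hk₀'.le
    have h2 : (k : ℝ) ≤ 2 * ⌈C * N / D⌉₊ := by exact_mod_cast hk2.le
    have h3 : (k : ℝ) ≤ 2 * (C * N / D + 1) := by linarith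
    calc (k : ℝ) * D ≤ 2 * (C * N / D + 1) * D := mul_le_mul_of_nonneg_right h3 hD.le
      _ = 2 * (C * N) + 2 * D := by field_simp
      _ ≤ _ := by linarith
  refine (pr_up hG hκ hS s hs0 k (hk₀.trans hk1)).trans ?_
  rw [Real.exp_le_exp]
  -- the logarithm
  have hlog : Real.log (k * D / s) ≤ ε * N / 4 := by
    have h1 : k * D / s ≤ 4 * (C + 1) / ε := by
      rw [div_le_div_iff₀ hs0 hε]
      have h2 : k * D * ε ≤ (2 * (C * N) + 2) * ε := mul_le_mul_of_nonneg_right hkD2 hε.le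
      have h3 : 4 * (C + 1) * (ε / 2 * N) ≤ 4 * (C + 1) * s :=
        mul_le_mul_of_nonneg_left hsl (by positivity)
      nlinarith
    have h4 : Real.log (k * D / s) ≤ Real.log (4 * (C + 1) / ε) :=
      Real.log_le_log (by positivity) h1
    linarith
  -- the partition function
  have hp : (s + s ^ 2 / 2 + κ * (s * Real.exp s)) / D ≤ k * (ε * N / 4) := by
    rw [div_le_iff₀ hD]
    have h1 : s + s ^ 2 / 2 + κ * (s * Real.exp s) ≤ X * N + (X * N) ^ 2 / 2 + 1 := by
      have : s ^ 2 ≤ (X * N) ^ 2 := pow_le_pow_left₀ hs0.le hsX 2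
      linarith
    have h2 : C * N * (ε * N / 4) ≤ k * D * (ε * N / 4) :=
      mul_le_mul_of_nonneg_right hkD (by positivity)
    have h3 : X * N + (X * N) ^ 2 / 2 + 1 ≤ C * N * (ε * N / 4) := by
      have e : C * N * (ε * N / 4) = X ^ 2 * N ^ 2 + (X + 1) * N * (ε * N / 4) := by
        rw [hC]; field_simp; ring
      rw [e]
      have h5 : 2 ≤ ε * N / 4 := by linarith
      have h6 : (X + 1) * N * 2 ≤ (X + 1) * N * (ε * N / 4) :=
        mul_le_mul_of_nonneg_left h5 (by positivity)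
      nlinarith [mul_pos hX0 hN0, sq_nonneg (X * N)]
    calc s + s ^ 2 / 2 + κ * (s * Real.exp s) ≤ _ := h1
      _ ≤ _ := h3
      _ ≤ _ := h2
      _ = _ := by ring
  have h1 := mul_le_mul_of_nonneg_left hlog hk0.le
  have e : -((X - ε) * N * k) = k * (ε * N / 4) - k * s + k * (ε * N / 4) := by
    rw [hs]; ring
  rw [e]
  linarith

end Pool.Agent.N549.AB
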