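import Pool.Agent.N549.AB.Cor4
import Pool.Agent.N549.CG.Main
import Pool.Agent.N549.SG.Stm

/-!
# Decorrelation: statements of the parts (project HG, sixth round)
-/

set_option autoImplicit false

namespace Pool.Agent.N549.AB

open MeasureTheory Set Finset
open scoped ENNReal NNReal
open Pool.Agent.N549.HG (A Z Adm Torus vol sqd ballVol)
open Pool.Agent.N303.SH (E S)

/-- AB/LENST: two balls of the torus whose centres are not near -/
def S_LENST : Prop := ∀ (n : ℕ), 1 ≤ n → ∀ (r : ℝ), 0 < r → r ≤ 1 / 4 → ∀ u v : Torus n,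
  r ^ 2 ≤ sqd u v → vol n ({y | sqd y u < r ^ 2} ∩ {y | sqd y v < r ^ 2}) ≤
    ENNReal.ofReal ((Real.sqrt 3 / 2) ^ n * ballVol n r)

open Pool.Agent.N549.CG in
/-- AB/LENSC: two balls of the cube whose centres are not near -/
def S_LENSC : Prop := ∀ (n D : ℕ), D ≤ n → ∀ u v : W n, D < hammingDist u v →
  #{y : W n | hammingDist u y ≤ D ∧ hammingDist v y ≤ D} ≤ 2 ^ D * V (n - D) (D / 2)

open Pool.Agent.N549.SG in
/-- AB/LENSS: two caps of the sphere whose centres are not near -/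
def S_LENSS : Prop := ∀ (c : ℕ) (t : ℝ), 0 < t → t < 1 → ∀ u v : S (c + 2),
  inner ℝ (u : E (c + 2)) (v : E (c + 2)) ≤ t →
  sig (c + 2) (near (c + 2) t u ∩ near (c + 2) t v) ≤
    ENNReal.ofReal (capVol c (t / Real.sqrt ((1 + t) / 2)))

open Pool.Agent.N549.CG in
/-- The sum of `z ^ #C` over the codes which contain the words `x` and `y`. -/
noncomputable def PC (n D : ℕ) (z : ℝ) (x y : W n) : ℝ :=
  ∑ C : Finset (W n) with (∀ a ∈ C, ∀ b ∈ C, a ≠ b → D < hammingDist a b) ∧ x ∈ C ∧ y ∈ C, z ^ #C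

open Pool.Agent.N549.CG in
/-- AB/PAIRC: the codes which contain given words -/
def S_PAIRC : Prop := ∀ (n D : ℕ) (z : ℝ), 0 ≤ z → ∀ u v : W n,
  z * Z1 (unif n) (cF n D) (z * 2 ^ n) u = PC n D z u u ∧
  (D < hammingDist u v → z ^ 2 * Z2 (unif n) (cF n D) (z * 2 ^ n) u v = PC n D z u v) ∧
  ZC n D z = ∑ C : Finset (W n) with (∀ a ∈ C, ∀ b ∈ C, a ≠ b → D < hammingDist a b), z ^ #C

/-- AB/PAIRG: the partition function of the points in a set -/
def S_PAIRG : Prop := ∀ (Ω : Type) [MeasurableSpace Ω] (μ : Measure Ω) [IsProbabilityMeasure μ]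
  (F : Ω → Ω → ℝ≥0∞), Adm F → (∀ x y, F x y = 0 ∨ F x y = 1) → ∀ (G : Ω → ℝ≥0∞), Measurable G →
  (∀ x, G x = 0 ∨ G x = 1) → ∀ c : ℝ, 0 ≤ c →
  (Z μ F (fun y => ENNReal.ofReal c * G y)).toReal =
    ∑' k : ℕ, c ^ k / k.factorial * (Measure.pi fun _ : Fin k => μ).real
      {x | (∀ i j, i < j → F (x i) (x j) = 1) ∧ ∀ i, G (x i) = 1}

end Pool.Agent.N549.AB
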