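import Pool.Agent.N549.HG.Thermo0
import Pool.Agent.N42.HG.Cont2

/-!
# Homogeneous hard-core gases: the abstract bounds (project HG)
-/

set_option autoImplicit false

namespace Pool.Agent.N549.AB

open MeasureTheory Set Finset
open scoped ENNReal NNReal
open Pool.Agent.N549.HG (A Z Adm Nice Mn cf Torus)

variable {Ω : Type} [MeasurableSpace Ω] {μ : Measure Ω} {F : Ω → Ω → ℝ≥0∞} {D : ℝ}

/-- The points which exclude `u`. -/
def Nr (F : Ω → Ω → ℝ≥0∞) (u : Ω) : Set Ω := {y | F u y = 0}

/-- A homogeneous hard-core gas: the weight of a pair is `0` or `1`, every point excludes a set of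
measure `D`, and all points are equivalent. -/
structure Gas (μ : Measure Ω) (F : Ω → Ω → ℝ≥0∞) (D : ℝ) : Prop where
  adm : Adm F
  zo : ∀ x y, F x y = 0 ∨ F x y = 1
  pos : 0 < D
  vol : ∀ u, μ (Nr F u) = ENNReal.ofReal D
  hom : ∀ (c : ℝ≥0∞) (u v : Ω), Z μ F (fun y => c * F u y) = Z μ F (fun y => c * F v y)

/-- Supersaturation with constant `κ`. -/
def SupK (μ : Measure Ω) (F : Ω → Ω → ℝ≥0∞) (D κ : ℝ) : Prop :=
  ∀ f : Ω → ℝ, Measurable f → (∀ x, 0 ≤ f x ∧ f x ≤ 1) →
    D * ((∫ x, f x ∂μ) ^ 2 - κ * ∫ x, f x ∂μ) ≤ ∫ x, f x * ∫ y in Nr F x, f y ∂μ ∂μ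

/-- Few pairs which exclude each other in the neighbourhood of a point. -/
def LocK (μ : Measure Ω) (F : Ω → Ω → ℝ≥0∞) (δ D : ℝ) : Prop :=
  ∀ (v : Ω) (T : Set Ω), MeasurableSet T → T ⊆ Nr F v →
    ∫⁻ u in T, μ (T ∩ Nr F u) ∂μ ≤ ENNReal.ofReal (δ * D) * μ T

/-! ### Basic facts -/

theorem meas_Nr (hF : Adm F) (u : Ω) : MeasurableSet (Nr F u) :=
  (hF.meas.comp measurable_prodMk_left) (measurableSet_singleton 0)

theorem mem_Nr_comm (hF : Adm F) {u y : Ω} : y ∈ Nr F u ↔ u ∈ Nr F y := by
  unfold Nr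
  simp only [mem_ofPred_eq]
  rw [hF.symm]

omit [MeasurableSpace Ω] in
theorem one_sub_F (hz : ∀ x y, F x y = 0 ∨ F x y = 1) (u : Ω) :
    (fun y => 1 - F u y) = (Nr F u).indicator fun _ => (1 : ℝ≥0∞) := by
  funext y
  rcases hz u y with h | h
  · rw [Set.indicator_of_mem (show y ∈ Nr F u from h), h, tsub_zero]
  · rw [Set.indicator_of_notMem (show y ∉ Nr F u from fun h' => by
      rw [show F u y = 0 from h'] at h; exact zero_ne_one h), h, tsub_self]

omit [MeasurableSpace Ω] in
theorem mul_F (hz : ∀ x y, F x y = 0 ∨ F x y = 1) (T : Set Ω) (c : ℝ≥0∞) (u : Ω) :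
    (fun y => T.indicator (fun _ => c) y * F u y) = (T \ Nr F u).indicator fun _ => c := by
  funext y
  rcases hz u y with h | h
  · rw [h, mul_zero, Set.indicator_of_notMem]
    exact fun h' => h'.2 h
  · have h2 : y ∉ Nr F u := fun h' => by
      rw [show F u y = 0 from h'] at h; exact zero_ne_one h
    rw [h, mul_one]
    by_cases hT : y ∈ T
    · rw [Set.indicator_of_mem hT, Set.indicator_of_mem]
      exact ⟨hT, h2⟩
    · rw [Set.indicator_of_notMem hT, Set.indicator_of_notMem]
      exact fun h' => hT h'.1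

theorem meas_inter [SFinite μ] (hF : Adm F) (K : Set Ω) (hK : MeasurableSet K) :
    Measurable fun u => μ.real (K ∩ Nr F u) := by
  have h1 : MeasurableSet {p : Ω × Ω | p.2 ∈ K ∧ F p.1 p.2 = 0} :=
    (measurable_snd hK).inter (hF.meas (measurableSet_singleton 0))
  exact (measurable_measure_prodMk_left (ν := μ) h1).ennreal_toReal

/-! ### The upper bound, with cells -/

theorem up_gen [IsProbabilityMeasure μ] (hF : Adm F) (hz : ∀ x y, F x y = 0 ∨ F x y = 1)
    (hD : 0 < D)
    (hcells : ∀ m : ℕ, 1 ≤ m → ∃ Q : Fin m → Set Ω, (∀ i, MeasurableSet (Q i)) ∧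
      (⋃ i, Q i) = univ ∧ ∀ i, μ.real (Q i) ≤ 1 / m)
    (κ : ℝ) (hκ : 0 ≤ κ)
    (hsup : ∀ K : Set Ω, MeasurableSet K →
      D * (μ.real K ^ 2 - κ * μ.real K) ≤ ∫ x in K, μ.real (K ∩ Nr F x) ∂μ)
    (lam s : ℝ) (hlam : 0 < lam) (hs : 0 < s) (hls : lam * D = s * Real.exp s) (w : ℝ)
    (hw : Z μ F (fun _ => ENNReal.ofReal lam) = ENNReal.ofReal w) (hw0 : 1 ≤ w) :
    w ≤ Real.exp ((s + s ^ 2 / 2 + κ * (lam * D)) / D) := by
  set c : ℝ≥0∞ := ENNReal.ofReal lam with hc
  set z : Set Ω → ℝ := fun K => (Z μ F (K.indicator fun _ => c)).toReal with hzd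
  have hle : ∀ K : Set Ω, MeasurableSet K →
      Z μ F (K.indicator fun _ => c) ≤ ENNReal.ofReal (Real.exp (lam * μ.real K)) := by
    intro K hK
    refine Pool.Agent.N549.HG.Z_le_exp hF _ _ (by positivity) ?_
    rw [lintegral_indicator_const hK, ENNReal.ofReal_mul hlam.le, measureReal_def,
      ENNReal.ofReal_toReal (measure_ne_top _ _)]
  have hfin : ∀ K : Set Ω, MeasurableSet K → Z μ F (K.indicator fun _ => c) ≠ ∞ := fun K hK =>
    ((hle K hK).trans_lt ENNReal.ofReal_lt_top).ne
  have hmono : ∀ K K' : Set Ω, K' ⊆ K →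
      Z μ F (K'.indicator fun _ => c) ≤ Z μ F (K.indicator fun _ => c) := fun K K' h =>
    Pool.Agent.N549.HG.Z_mono fun y =>
      Set.indicator_le_indicator_of_subset h (fun _ => by simp) y
  have key := Pool.Agent.N42.HG.cont2 Ω μ (fun u => Nr F u)
    (fun u => meas_Nr hF u) (fun K hK => meas_inter hF K hK) hcells D
    κ lam s hD hκ hs hls hsup z ?_ ?_ ?_ ?_
  · have h1 : z univ = w := by
      simp only [hzd, Set.indicator_univ]
      rw [hw, ENNReal.toReal_ofReal (by linarith)]
    rwa [h1] at key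
  · intro K hK
    have := ENNReal.toReal_mono ENNReal.ofReal_ne_top (hle K hK)
    rwa [ENNReal.toReal_ofReal (Real.exp_pos _).le] at this
  · intro K hK
    exact ENNReal.toReal_pos (lt_of_lt_of_le one_pos (Pool.Agent.N549.HG.one_le_Z _)).ne'
      (hfin K hK)
  · intro K K' hK _ h
    exact ENNReal.toReal_mono (hfin K hK) (hmono K K' h)
  · intro K hK B hBK hB b hb
    have h1 := Pool.Agent.N549.HG.Z_add_le (μ := μ) hF (measurable_const.indicator (hK.diff hB) :
      Measurable ((K \ B).indicator fun _ => c)) (measurable_const.indicator hB :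
      Measurable (B.indicator fun _ => c))
    have h2 : ∀ y, (K \ B).indicator (fun _ => c) y + B.indicator (fun _ => c) y =
        K.indicator (fun _ => c) y := by
      intro y
      by_cases hyB : y ∈ B
      · simp [hyB, hBK hyB]
      · by_cases hyK : y ∈ K <;> simp [hyB, hyK]
    simp only [h2] at h1
    have h3 : ∫⁻ u, B.indicator (fun _ => c) u *
        Z μ F (fun y => K.indicator (fun _ => c) y * F u y) ∂μ ≤
        ENNReal.ofReal (lam * μ.real B * b) := by
      by_cases hBe : B = ∅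
      · rw [hBe]; simp
      · obtain ⟨u₀, hu₀⟩ := Set.nonempty_iff_ne_empty.2 hBe
        have hb0 : 0 ≤ b := ENNReal.toReal_nonneg.trans (hb u₀ hu₀)
        calc ∫⁻ u, B.indicator (fun _ => c) u *
              Z μ F (fun y => K.indicator (fun _ => c) y * F u y) ∂μ
            ≤ ∫⁻ u, B.indicator (fun _ => c) u * ENNReal.ofReal b ∂μ := by
              refine lintegral_mono fun u => ?_
              by_cases hu : u ∈ B
              · refine mul_le_mul' le_rfl ?_
                rw [mul_F hz]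
                have h4 := hb u hu
                rw [← ENNReal.ofReal_toReal (hfin (K \ Nr F u) (hK.diff (meas_Nr hF u)))]
                exact ENNReal.ofReal_le_ofReal h4
              · simp [hu]
          _ = ENNReal.ofReal (lam * μ.real B * b) := by
              rw [lintegral_mul_const _ (measurable_const.indicator hB),
                lintegral_indicator_const hB, ENNReal.ofReal_mul (by positivity),
                ENNReal.ofReal_mul hlam.le, measureReal_def,
                ENNReal.ofReal_toReal (measure_ne_top _ _)]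
    have h5 := h1.trans (add_le_add le_rfl h3)
    have h6 := ENNReal.toReal_mono (ENNReal.add_ne_top.2 ⟨hfin _ (hK.diff hB),
      ENNReal.ofReal_ne_top⟩) h5
    rw [ENNReal.toReal_add (hfin _ (hK.diff hB)) ENNReal.ofReal_ne_top] at h6
    have h7 : (ENNReal.ofReal (lam * μ.real B * b)).toReal = lam * μ.real B * b := by
      by_cases hBe : B = ∅
      · rw [hBe]; simp
      · obtain ⟨u₀, hu₀⟩ := Set.nonempty_iff_ne_empty.2 hBe
        have hb0 : 0 ≤ b := ENNReal.toReal_nonneg.trans (hb u₀ hu₀)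
        exact ENNReal.toReal_ofReal (by positivity)
    rw [h7] at h6
    exact h6

/-! ### Blowing up the points -/

/-- the weights of the blown-up gas -/
def Fb (F : Ω → Ω → ℝ≥0∞) (p q : Ω × Torus 1) : ℝ≥0∞ := F p.1 q.1

theorem Fb_adm (hF : Adm F) : Adm (Fb F) where
  meas := by
    have h : Measurable fun p : (Ω × Torus 1) × (Ω × Torus 1) => (p.1.1, p.2.1) :=
      (measurable_fst.comp measurable_fst).prodMk (measurable_fst.comp measurable_snd)
    exact hF.meas.comp h
  symm := fun p q => hF.symm p.1 q.1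
  le_one := fun p q => hF.le_one p.1 q.1

theorem A_blow [IsProbabilityMeasure μ] (hF : Adm F) (k : ℕ) (φ : Ω → ℝ≥0∞) (hφ : Measurable φ) :
    A (μ.prod (Pool.Agent.N549.HG.vol 1)) (Fb F) k (fun p => φ p.1) = A μ F k φ := by
  induction k generalizing φ with
  | zero => rfl
  | succ k ih =>
    simp only [A]
    have h1 : ∀ p : Ω × Torus 1, (fun q : Ω × Torus 1 => φ q.1 * Fb F p q) =
        fun q => (fun y => φ y * F p.1 y) q.1 := fun p => rfl
    have h2 : ∀ p : Ω × Torus 1, φ p.1 * A (μ.prod (Pool.Agent.N549.HG.vol 1)) (Fb F) k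
        (fun q => φ q.1 * Fb F p q) = φ p.1 * A μ F k (fun y => φ y * F p.1 y) := fun p => by
      rw [h1 p, ih _ (Pool.Agent.N549.HG.meas_mul hF hφ p.1)]
    simp only [h2]
    have h3 : Measurable fun u => φ u * A μ F k (fun y => φ y * F u y) :=
      hφ.mul ((Pool.Agent.N549.HG.nice_A (μ := μ) hF k).meas hF hφ)
    have h4 : AEMeasurable (fun p : Ω × Torus 1 => φ p.1 * A μ F k (fun y => φ y * F p.1 y))
        (μ.prod (Pool.Agent.N549.HG.vol 1)) := (h3.comp measurable_fst).aemeasurable
    rw [lintegral_prod _ h4]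
    refine lintegral_congr fun u => ?_
    simp

theorem Z_blow [IsProbabilityMeasure μ] (hF : Adm F) (φ : Ω → ℝ≥0∞) (hφ : Measurable φ) :
    Z (μ.prod (Pool.Agent.N549.HG.vol 1)) (Fb F) (fun p => φ p.1) = Z μ F φ := by
  unfold Z
  exact tsum_congr fun k => by rw [A_blow hF k φ hφ]

theorem cells_blow [IsProbabilityMeasure μ] (m : ℕ) (hm : 1 ≤ m) :
    ∃ Q : Fin m → Set (Ω × Torus 1), (∀ i, MeasurableSet (Q i)) ∧ (⋃ i, Q i) = univ ∧
      ∀ i, (μ.prod (Pool.Agent.N549.HG.vol 1)).real (Q i) ≤ 1 / m := by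
  obtain ⟨Q, h1, h2, h3⟩ := Pool.Agent.N82.HG.cells 1 le_rfl m hm
  refine ⟨fun i => univ ×ˢ Q i, fun i => MeasurableSet.univ.prod (h1 i), ?_, fun i => ?_⟩
  · rw [← Set.prod_iUnion, h2, univ_prod_univ]
  · rw [measureReal_prod_prod]
    simpa using h3 i

/-- supersaturation of the blown-up gas -/
theorem sup_blow [IsProbabilityMeasure μ] (hF : Adm F) {κ : ℝ} (hS : SupK μ F D κ)
    (K : Set (Ω × Torus 1)) (hK : MeasurableSet K) :
    D * ((μ.prod (Pool.Agent.N549.HG.vol 1)).real K ^ 2 -
      κ * (μ.prod (Pool.Agent.N549.HG.vol 1)).real K) ≤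
      ∫ x in K, (μ.prod (Pool.Agent.N549.HG.vol 1)).real (K ∩ Nr (Fb F) x)
        ∂(μ.prod (Pool.Agent.N549.HG.vol 1)) := by
  set ν := Pool.Agent.N549.HG.vol 1 with hν
  set f : Ω → ℝ := fun x => ν.real (Prod.mk x ⁻¹' K) with hf
  have hfm : Measurable f := (measurable_measure_prodMk_left (ν := ν) hK).ennreal_toReal
  have hf01 : ∀ x, 0 ≤ f x ∧ f x ≤ 1 := fun x => ⟨measureReal_nonneg, measureReal_le_one⟩
  have h1 : ∫ x, f x ∂μ = (μ.prod ν).real K := by
    rw [measureReal_def, Measure.prod_apply hK, integral_eq_lintegral_of_nonneg_ae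
      (Filter.Eventually.of_forall fun x => (hf01 x).1) hfm.aestronglyMeasurable]
    congr 1
    refine lintegral_congr fun x => ?_
    simp only [hf]
    rw [measureReal_def, ENNReal.ofReal_toReal (measure_ne_top _ _)]
  have h2 := hS f hfm hf01
  rw [h1] at h2
  refine h2.trans (le_of_eq ?_)
  -- the inner integral
  have h3 : ∀ p : Ω × Torus 1, (μ.prod ν).real (K ∩ Nr (Fb F) p) = ∫ y in Nr F p.1, f y ∂μ := by
    intro p
    have hN : MeasurableSet (Nr F p.1) := meas_Nr hF p.1
    have hKN : MeasurableSet (K ∩ Nr (Fb F) p) := hK.inter (meas_Nr (Fb_adm hF) p)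
    rw [measureReal_def, Measure.prod_apply hKN, integral_eq_lintegral_of_nonneg_ae
      (Filter.Eventually.of_forall fun x => (hf01 x).1) hfm.aestronglyMeasurable]
    congr 1
    rw [← lintegral_indicator hN]
    refine lintegral_congr fun y => ?_
    by_cases hy : y ∈ Nr F p.1
    · rw [Set.indicator_of_mem hy]
      simp only [hf]
      rw [measureReal_def, ENNReal.ofReal_toReal (measure_ne_top _ _)]
      congr 1
      ext s
      simp only [Set.mem_preimage, Set.mem_inter_iff]
      exact ⟨fun h => h.1, fun h => ⟨h, hy⟩⟩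
    · rw [Set.indicator_of_notMem hy]
      have : Prod.mk y ⁻¹' (K ∩ Nr (Fb F) p) = ∅ := by
        ext s
        simp only [Set.mem_preimage, Set.mem_inter_iff, Set.mem_empty_iff_false, iff_false,
          not_and]
        exact fun _ h => hy h
      rw [this, measure_empty]
  simp only [h3]
  set g : Ω → ℝ := fun x => ∫ y in Nr F x, f y ∂μ with hg
  have hgm : Measurable g := by
    have h4 : g = fun x => ∫ y, (if F x y = 0 then f y else 0) ∂μ := by
      funext x
      show ∫ y in Nr F x, f y ∂μ = _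
      rw [← integral_indicator (meas_Nr hF x)]
      refine integral_congr_ae (Filter.Eventually.of_forall fun y => ?_)
      by_cases hy : F x y = 0
      · simp only [if_pos hy]
        exact Set.indicator_of_mem (show y ∈ Nr F x from hy) f
      · simp only [if_neg hy]
        exact Set.indicator_of_notMem (show y ∉ Nr F x from hy) f
    rw [h4]
    have h5 : Measurable (Function.uncurry fun x y => if F x y = 0 then f y else 0) :=
      Measurable.ite (hF.meas (measurableSet_singleton 0)) (hfm.comp measurable_snd)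
        measurable_const
    exact (h5.stronglyMeasurable.integral_prod_right').measurable
  have hg01 : ∀ x, 0 ≤ g x ∧ g x ≤ 1 := by
    intro x
    refine ⟨setIntegral_nonneg (meas_Nr hF x) fun y _ => (hf01 y).1, ?_⟩
    have h5 : g x ≤ ∫ y in Nr F x, (1 : ℝ) ∂μ := by
      refine integral_mono_of_nonneg (Filter.Eventually.of_forall fun y => (hf01 y).1)
        (integrable_const _) (Filter.Eventually.of_forall fun y => (hf01 y).2)
    refine h5.trans ?_
    simp only [integral_const, smul_eq_mul, mul_one]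
    rw [measureReal_restrict_apply_univ]
    exact measureReal_le_one
  show ∫ x, f x * g x ∂μ = ∫ p in K, g p.1 ∂(μ.prod ν)
  have e1 : ∫ x, f x * g x ∂μ = (∫⁻ x, ENNReal.ofReal (f x * g x) ∂μ).toReal :=
    integral_eq_lintegral_of_nonneg_ae (Filter.Eventually.of_forall fun x =>
      mul_nonneg (hf01 x).1 (hg01 x).1) (hfm.mul hgm).aestronglyMeasurable
  have e2 : ∫ p in K, g p.1 ∂(μ.prod ν) = (∫⁻ p in K, ENNReal.ofReal (g p.1) ∂(μ.prod ν)).toReal :=
    integral_eq_lintegral_of_nonneg_ae (Filter.Eventually.of_forall fun p => (hg01 p.1).1)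
      (hgm.comp measurable_fst).aestronglyMeasurable
  rw [e1, e2]
  congr 1
  have e3 : AEMeasurable (K.indicator fun p : Ω × Torus 1 => ENNReal.ofReal (g p.1))
      (μ.prod ν) :=
    (Measurable.indicator ((hgm.comp measurable_fst).ennreal_ofReal) hK).aemeasurable
  rw [← lintegral_indicator hK, lintegral_prod _ e3]
  refine lintegral_congr fun x => ?_
  have h6 : ∀ s : Torus 1, K.indicator (fun p : Ω × Torus 1 => ENNReal.ofReal (g p.1)) (x, s) =
      (Prod.mk x ⁻¹' K).indicator (fun _ => ENNReal.ofReal (g x)) s := by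
    intro s
    by_cases hs : (x, s) ∈ K
    · rw [Set.indicator_of_mem hs, Set.indicator_of_mem (show s ∈ Prod.mk x ⁻¹' K from hs)]
    · rw [Set.indicator_of_notMem hs, Set.indicator_of_notMem (show s ∉ Prod.mk x ⁻¹' K from hs)]
  simp only [h6]
  rw [lintegral_indicator_const (measurable_prodMk_left hK)]
  simp only [hf]
  rw [mul_comm (ν.real _) (g x), ENNReal.ofReal_mul (hg01 x).1, measureReal_def,
    ENNReal.ofReal_toReal (measure_ne_top _ _)]

/-- **The upper bound for the partition function.** -/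
theorem up_abs [IsProbabilityMeasure μ] (hG : Gas μ F D) {κ : ℝ} (hκ : 0 ≤ κ)
    (hS : SupK μ F D κ) (lam s : ℝ) (hlam : 0 < lam) (hs : 0 < s)
    (hls : lam * D = s * Real.exp s) (w : ℝ)
    (hw : Z μ F (fun _ => ENNReal.ofReal lam) = ENNReal.ofReal w) (hw0 : 1 ≤ w) :
    w ≤ Real.exp ((s + s ^ 2 / 2 + κ * (lam * D)) / D) := by
  refine up_gen (μ := μ.prod (Pool.Agent.N549.HG.vol 1)) (Fb_adm hG.adm)
    (fun p q => hG.zo p.1 q.1) hG.pos cells_blow κ hκ (fun K hK => sup_blow hG.adm hS K hK)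
    lam s hlam hs hls w ?_ hw0
  rw [← hw]
  exact Z_blow hG.adm (fun _ => ENNReal.ofReal lam) measurable_const

end Pool.Agent.N549.AB
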