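import Pool.Agent.N549.AB.Abs

/-!
# Homogeneous hard-core gases: the lower bound and the series (project HG)
-/

set_option autoImplicit false

namespace Pool.Agent.N549.AB

open MeasureTheory Set Finset
open scoped ENNReal NNReal
open Pool.Agent.N549.HG (A Z Adm Nice Mn cf Torus low Z_mono one_le_Z Z_scale Mn_scale
  cf_nonneg cf_summable cf_summable1 conv)

variable {Ω : Type} [MeasurableSpace Ω] {μ : Measure Ω} {F : Ω → Ω → ℝ≥0∞} {D : ℝ}

/-- **The lower bound.** -/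
theorem low_abs [IsProbabilityMeasure μ] (hG : Gas μ F D) {δ₀ : ℝ} (hδ₀ : 0 ≤ δ₀)
    (hL : LocK μ F δ₀ D) (u₀ : Ω) (lam : ℝ) (hlam : 0 < lam)
    (w w1 δ : ℝ) (hw : Z μ F (fun _ => ENNReal.ofReal lam) = ENNReal.ofReal w)
    (hw1 : Z μ F (fun y => ENNReal.ofReal lam * F u₀ y) = ENNReal.ofReal w1)
    (hw0 : 1 ≤ w) (hw10 : 1 ≤ w1) (hδ : δ = δ₀ * (lam * D)) (hδ1 : δ ≤ 1) :
    (1 - δ) * Real.log (w / w1) ≤ lam * D * w1 / w := by
  have hF := hG.adm
  have hz := hG.zo
  have hD0 : 0 ≤ D := hG.pos.le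
  have hδ0 : 0 ≤ δ := by rw [hδ]; positivity
  set c : ℝ≥0∞ := ENNReal.ofReal lam with hc
  have hcne : c ≠ ∞ := ENNReal.ofReal_ne_top
  set B : Set Ω := Nr F u₀ with hB
  have hBm : MeasurableSet B := meas_Nr hF u₀
  have hBv : μ B = ENNReal.ofReal D := hG.vol u₀
  set φ : Ω → ℝ≥0∞ := B.indicator fun _ => c with hφ
  set χ : Ω → ℝ≥0∞ := Bᶜ.indicator fun _ => c with hχ
  have hφm : Measurable φ := measurable_const.indicator hBm
  have hχm : Measurable χ := measurable_const.indicator hBm.compl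
  have hsum : ∀ y, χ y + φ y = c := by
    intro y
    by_cases hy : y ∈ B
    · rw [hχ, hφ, Set.indicator_of_mem hy, Set.indicator_of_notMem (by simpa using hy), zero_add]
    · rw [hχ, hφ, Set.indicator_of_notMem hy, Set.indicator_of_mem (by simpa using hy), add_zero]
  have hχ1 : χ = fun y => c * F u₀ y := by
    have h1 := mul_F hz (univ : Set Ω) c u₀
    have h2 : (univ : Set Ω) \ Nr F u₀ = Bᶜ := by
      rw [hB, Set.compl_eq_univ_sdiff]
    rw [h2] at h1
    rw [hχ, ← h1]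
    funext y
    rw [Set.indicator_of_mem (mem_univ y)]
  have hint : ∫⁻ y, φ y ∂μ = c * ENNReal.ofReal D := by
    rw [hφ, lintegral_indicator_const hBm, hBv]
  have hfin : ∫⁻ y, φ y ∂μ ≠ ∞ := by
    rw [hint]; exact ENNReal.mul_ne_top hcne ENNReal.ofReal_ne_top
  set P : (Ω → ℝ≥0∞) → Prop := fun ψ => ∃ T : Set Ω, MeasurableSet T ∧ T ⊆ B ∧
    ψ = T.indicator fun _ => c with hP
  have hPF : ∀ ψ, P ψ → ∀ u, P (fun y => ψ y * F u y) := by
    rintro ψ ⟨T, hT, hTB, rfl⟩ u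
    exact ⟨T \ Nr F u, hT.diff (meas_Nr hF u), fun y hy => hTB hy.1, mul_F hz T c u⟩
  have hPm : ∀ ψ, P ψ → Measurable ψ := by
    rintro ψ ⟨T, hT, _, rfl⟩
    exact measurable_const.indicator hT
  have hPle : ∀ ψ, P ψ → ∀ y, ψ y ≤ φ y := by
    rintro ψ ⟨T, _, hTB, rfl⟩ y
    exact Set.indicator_le_indicator_of_subset hTB (fun _ => by simp) y
  have hloc : ∀ ψ, P ψ → ∫⁻ u, ψ u * ∫⁻ y, ψ y * (1 - F u y) ∂μ ∂μ ≤
      ENNReal.ofReal δ * ∫⁻ y, ψ y ∂μ := by
    rintro ψ ⟨T, hT, hTB, rfl⟩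
    have h1 := hL u₀ T hT hTB
    have h2 : ∀ u : Ω, ∫⁻ y, T.indicator (fun _ => c) y * (1 - F u y) ∂μ =
        c * μ (T ∩ Nr F u) := by
      intro u
      have h3 : (fun y => T.indicator (fun _ => c) y * (1 - F u y)) =
          (T ∩ Nr F u).indicator fun _ => c := by
        have h4 := one_sub_F hz u
        funext y
        rw [congrFun h4 y]
        by_cases hyT : y ∈ T <;> by_cases hyN : y ∈ Nr F u <;>
          simp [hyT, hyN]
      rw [h3, lintegral_indicator_const (hT.inter (meas_Nr hF u))]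
    have h5 : ∫⁻ u, T.indicator (fun _ => c) u *
          ∫⁻ y, T.indicator (fun _ => c) y * (1 - F u y) ∂μ ∂μ =
        c * (c * ∫⁻ u in T, μ (T ∩ Nr F u) ∂μ) := by
      simp only [h2]
      rw [← lintegral_const_mul' _ _ hcne, ← lintegral_const_mul' _ _ hcne,
        ← lintegral_indicator hT]
      refine lintegral_congr fun u => ?_
      by_cases hu : u ∈ T <;> simp [hu]
    rw [h5, lintegral_indicator_const hT]
    calc c * (c * ∫⁻ u in T, μ (T ∩ Nr F u) ∂μ)
        ≤ c * (c * (ENNReal.ofReal (δ₀ * D) * μ T)) := by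
          gcongr
      _ = ENNReal.ofReal δ * (c * μ T) := by
          rw [hδ, show δ₀ * (lam * D) = lam * (δ₀ * D) by ring, ENNReal.ofReal_mul hlam.le, ← hc]
          ring
  -- the real numbers
  have hsum' : (fun y => χ y + φ y) = fun _ => c := funext hsum
  have hE : ∫⁻ u, φ u * Z μ F (fun y => (χ y + φ y) * F u y) ∂μ =
      ENNReal.ofReal (lam * D * w1) := by
    have h1 : ∀ u, Z μ F (fun y => c * F u y) = ENNReal.ofReal w1 := fun u => by
      rw [hG.hom c u u₀, hw1]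
    simp only [hsum, h1]
    rw [lintegral_mul_const _ hφm, hint, hc, ← ENNReal.ofReal_mul hlam.le,
      ← ENNReal.ofReal_mul (by positivity)]
  have hkey : ∀ q : ℝ, 0 ≤ q → ∃ N : ℝ, 0 ≤ N ∧ N ≤ lam * D * w1 + δ * N ∧
      Real.exp (-q) * (1 + q) * w ≤ w1 + Real.exp (-q) * N := by
    intro q hq
    obtain ⟨N, h1, h2, h3⟩ := low (μ := μ) hF hχm P hPF hPm ⟨B, hBm, le_rfl, rfl⟩
      (ENNReal.ofReal δ) hloc hfin hPle q hq
    rw [hE] at h1
    rw [hsum', hw, hχ1, hw1] at h2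
    rw [hsum', hw, hint] at h3
    have hN : N ≠ ∞ := (h3.trans_lt (ENNReal.mul_lt_top (ENNReal.mul_lt_top
      (lt_top_iff_ne_top.2 hcne) ENNReal.ofReal_lt_top) ENNReal.ofReal_lt_top)).ne
    refine ⟨N.toReal, ENNReal.toReal_nonneg, ?_, ?_⟩
    · rw [← ENNReal.ofReal_toReal hN, ← ENNReal.ofReal_mul hδ0,
        ← ENNReal.ofReal_add (by positivity) (by positivity)] at h1
      exact (ENNReal.ofReal_le_ofReal_iff (by positivity)).1 h1
    · rw [← ENNReal.ofReal_toReal hN, ← ENNReal.ofReal_mul (by positivity),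
        ← ENNReal.ofReal_mul (by positivity), ← ENNReal.ofReal_add (by positivity)
        (by positivity)] at h2
      exact (ENNReal.ofReal_le_ofReal_iff (by positivity)).1 h2
  have hw1' : w1 ≤ w := by
    have h1 : Z μ F (fun y => c * F u₀ y) ≤ Z μ F (fun _ => c) :=
      Z_mono fun y => mul_le_of_le_one_right (by simp) (hF.le_one u₀ y)
    rw [hw, hw1] at h1
    exact (ENNReal.ofReal_le_ofReal_iff (by linarith)).1 h1
  have hq0 : 0 ≤ Real.log (w / w1) := Real.log_nonneg (by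
    rw [le_div_iff₀ (by linarith)]; linarith)
  obtain ⟨N, hN0, h1, h2⟩ := hkey _ hq0
  have hexp : Real.exp (-Real.log (w / w1)) = w1 / w := by
    rw [← Real.log_inv, Real.exp_log (by positivity), inv_div]
  rw [hexp] at h2
  have hwpos : 0 < w := by linarith
  have hw1pos : 0 < w1 := by linarith
  have h3 : w * Real.log (w / w1) ≤ N := by
    have h4 : w1 / w * (1 + Real.log (w / w1)) * w = w1 * (1 + Real.log (w / w1)) := by
      field_simp
    rw [h4] at h2
    have h5 : w1 * Real.log (w / w1) ≤ w1 / w * N := by linarith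
    have h6 : w1 * (w * Real.log (w / w1)) ≤ w1 * N := by
      have := mul_le_mul_of_nonneg_right h5 hwpos.le
      calc w1 * (w * Real.log (w / w1)) = w1 * Real.log (w / w1) * w := by ring
        _ ≤ w1 / w * N * w := this
        _ = w1 * N := by field_simp
    exact le_of_mul_le_mul_left h6 hw1pos
  rw [le_div_iff₀ hwpos]
  calc (1 - δ) * Real.log (w / w1) * w = (1 - δ) * (w * Real.log (w / w1)) := by ring
    _ ≤ (1 - δ) * N := mul_le_mul_of_nonneg_left h3 (by linarith)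
    _ ≤ lam * D * w1 := by linarith

/-! ### The series -/

/-- the probability that `k` random points do not exclude each other -/
noncomputable def pr (μ : Measure Ω) (F : Ω → Ω → ℝ≥0∞) (k : ℕ) : ℝ :=
  (A μ F k (fun _ => 1)).toReal

/-- the partition function -/
noncomputable def PZ (μ : Measure Ω) (F : Ω → Ω → ℝ≥0∞) (lam : ℝ) : ℝ :=
  ∑' k : ℕ, lam ^ k / k.factorial * pr μ F k

/-- the mean number of points -/
noncomputable def PM (μ : Measure Ω) (F : Ω → Ω → ℝ≥0∞) (lam : ℝ) : ℝ :=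
  (∑' k : ℕ, k * (lam ^ k / k.factorial * pr μ F k)) / PZ μ F lam

theorem one_int [IsProbabilityMeasure μ] : ∫⁻ _y, (1 : ℝ≥0∞) ∂μ ≤ ENNReal.ofReal 1 := by
  simp

theorem cf_pr (k : ℕ) : cf μ F (fun _ => 1) k = pr μ F k / k.factorial := rfl

theorem pr_nonneg (k : ℕ) : 0 ≤ pr μ F k := ENNReal.toReal_nonneg

theorem pr_le_one [IsProbabilityMeasure μ] (hF : Adm F) (k : ℕ) : pr μ F k ≤ 1 := by
  have h1 := Pool.Agent.N549.HG.A_le_pow (μ := μ) hF k (fun _ => 1)
  rw [lintegral_const, measure_univ, mul_one, one_pow] at h1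
  exact ENNReal.toReal_mono ENNReal.one_ne_top h1

theorem pr_anti [IsProbabilityMeasure μ] (hF : Adm F) : Antitone (pr μ F) := by
  refine antitone_nat_of_succ_le fun k => ?_
  have h0 : A μ F k (fun _ => 1) ≠ ∞ := by
    have h1 := Pool.Agent.N549.HG.A_le_pow (μ := μ) hF k (fun _ => 1)
    rw [lintegral_const, measure_univ, mul_one, one_pow] at h1
    exact (h1.trans_lt ENNReal.one_lt_top).ne
  refine ENNReal.toReal_mono h0 ?_
  simp only [A]
  calc ∫⁻ u, 1 * A μ F k (fun y => 1 * F u y) ∂μ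
      ≤ ∫⁻ _u, A μ F k (fun _ => 1) ∂μ := by
        refine lintegral_mono fun u => ?_
        rw [one_mul]
        refine Pool.Agent.N549.HG.A_mono k fun y => ?_
        rw [one_mul]
        exact hF.le_one u y
    _ = A μ F k (fun _ => 1) := by simp

theorem term_eq (lam : ℝ) : (fun k : ℕ => lam ^ k / (k.factorial : ℝ) * pr μ F k) =
    fun k : ℕ => lam ^ k * cf μ F (fun _ => 1) k := by
  funext k
  rw [cf_pr]
  ring

theorem summable_PZ [IsProbabilityMeasure μ] (hF : Adm F) (lam : ℝ) (h : 0 ≤ lam) :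
    Summable fun k : ℕ => lam ^ k / (k.factorial : ℝ) * pr μ F k := by
  rw [term_eq]
  exact cf_summable hF 1 zero_le_one one_int lam h

theorem summable_PM [IsProbabilityMeasure μ] (hF : Adm F) (lam : ℝ) (h : 0 ≤ lam) :
    Summable fun k : ℕ => (k : ℝ) * (lam ^ k / (k.factorial : ℝ) * pr μ F k) := by
  have e : (fun k : ℕ => (k : ℝ) * (lam ^ k / (k.factorial : ℝ) * pr μ F k)) =
      fun k : ℕ => (k : ℝ) * (lam ^ k * cf μ F (fun _ => 1) k) := by
    funext k
    rw [cf_pr]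
    ring
  rw [e]
  exact cf_summable1 hF 1 zero_le_one one_int lam h

theorem PZ_eq [IsProbabilityMeasure μ] (hF : Adm F) (lam : ℝ) (h : 0 ≤ lam) :
    Z μ F (fun _ => ENNReal.ofReal lam) = ENNReal.ofReal (PZ μ F lam) := by
  have h1 := Z_scale (μ := μ) hF (φ := fun _ => 1) measurable_const 1 zero_le_one one_int lam h
  simp only [mul_one] at h1
  rw [h1]
  unfold PZ
  rw [term_eq]

theorem PM_eq [IsProbabilityMeasure μ] (hF : Adm F) (lam : ℝ) (h : 0 ≤ lam) :
    Mn μ F (fun _ => ENNReal.ofReal lam) =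
      ENNReal.ofReal (∑' k : ℕ, k * (lam ^ k / k.factorial * pr μ F k)) := by
  have h1 := Mn_scale (μ := μ) hF (φ := fun _ => 1) measurable_const 1 zero_le_one one_int lam h
  simp only [mul_one] at h1
  rw [h1]
  congr 1
  refine tsum_congr fun k => ?_
  rw [cf_pr]
  ring

theorem PZ_ge_one [IsProbabilityMeasure μ] (hF : Adm F) (lam : ℝ) (h : 0 ≤ lam) :
    1 ≤ PZ μ F lam := by
  have h1 := one_le_Z (μ := μ) (F := F) (fun _ => ENNReal.ofReal lam)
  rw [PZ_eq hF lam h, ENNReal.one_le_ofReal] at h1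
  exact h1

theorem conv_PZ [IsProbabilityMeasure μ] (hF : Adm F) (lam lam' : ℝ) (h : 0 < lam)
    (h' : 0 < lam') :
    Real.log (lam' / lam) * PM μ F lam ≤ Real.log (PZ μ F lam') - Real.log (PZ μ F lam) := by
  have e1 : ∀ l : ℝ, (fun k : ℕ => l ^ k / (k.factorial : ℝ) * pr μ F k) =
      fun k : ℕ => l ^ k * (pr μ F k / k.factorial) := by
    intro l; funext k; ring
  have hc : ∀ k : ℕ, 0 ≤ pr μ F k / (k.factorial : ℝ) := fun k =>
    div_nonneg (pr_nonneg k) (by positivity)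
  have s1 := summable_PZ (μ := μ) hF lam h.le
  have s2 := summable_PM (μ := μ) hF lam h.le
  have s3 := summable_PZ (μ := μ) hF lam' h'.le
  have hp : 0 < PZ μ F lam := lt_of_lt_of_le one_pos (PZ_ge_one hF lam h.le)
  unfold PZ at hp
  unfold PM PZ
  have e2 : ∀ k : ℕ, (k : ℝ) * (lam ^ k / (k.factorial : ℝ) * pr μ F k) =
      k * (lam ^ k * (pr μ F k / k.factorial)) := by intro k; ring
  simp only [e2] at s2 ⊢
  rw [e1] at s1 s3 hp
  simp only [e1]
  exact conv _ hc lam lam' h h' s1 s2 s3 hp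

/-! ### The activity `s e^s / D` -/

/-- the activity -/
noncomputable def ac (D s : ℝ) : ℝ := s * Real.exp s / D

theorem ac_pos (hD : 0 < D) {s : ℝ} (hs : 0 < s) : 0 < ac D s := by unfold ac; positivity

theorem ac_mul (hD : 0 < D) (s : ℝ) : ac D s * D = s * Real.exp s := by
  unfold ac; field_simp

theorem conv_ac [IsProbabilityMeasure μ] (hG : Gas μ F D) (a b : ℝ) (ha : 0 < a) (hb : 0 < b) :
    (Real.log (b / a) + (b - a)) * (D * PM μ F (ac D a)) ≤
      D * Real.log (PZ μ F (ac D b)) - D * Real.log (PZ μ F (ac D a)) := by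
  have hD := hG.pos
  have hA := ac_pos hD ha
  have hB := ac_pos hD hb
  have e1 : Real.log (ac D b / ac D a) = Real.log (b / a) + (b - a) := by
    have : ac D b / ac D a = b / a * Real.exp (b - a) := by
      unfold ac
      rw [Real.exp_sub]
      field_simp
    rw [this, Real.log_mul (by positivity) (Real.exp_pos _).ne', Real.log_exp]
  have c1 := conv_PZ (μ := μ) hG.adm _ _ hA hB
  rw [e1] at c1
  have := mul_le_mul_of_nonneg_left c1 hD.le
  linarith

/-- **Upper bound for the pressure.** -/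
theorem gas_up [IsProbabilityMeasure μ] (hG : Gas μ F D) {κ : ℝ} (hκ : 0 ≤ κ)
    (hS : SupK μ F D κ) (s : ℝ) (hs : 0 < s) :
    D * Real.log (PZ μ F (ac D s)) ≤ s + s ^ 2 / 2 + κ * (s * Real.exp s) := by
  have hD := hG.pos
  have hl := ac_pos hD hs
  have hZ := PZ_ge_one (μ := μ) hG.adm _ hl.le
  have hup := up_abs hG hκ hS _ s hl hs (ac_mul hD s) _ (PZ_eq hG.adm _ hl.le) hZ
  rw [ac_mul hD] at hup
  have h5 := Real.log_le_log (by linarith) hup
  rw [Real.log_exp] at h5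
  have h6 := mul_le_mul_of_nonneg_left h5 hD.le
  calc D * Real.log (PZ μ F (ac D s)) ≤ _ := h6
    _ = _ := by field_simp

/-- **Lower bound for the density.** -/
theorem gas_dens [IsProbabilityMeasure μ] (hG : Gas μ F D) {δ₀ : ℝ} (hδ₀ : 0 ≤ δ₀)
    (hL : LocK μ F δ₀ D) (s : ℝ) (hs : 0 < s) (hδ1 : δ₀ * (s * Real.exp s) ≤ 1) :
    (1 - δ₀ * (s * Real.exp s)) * s ≤ D * PM μ F (ac D s) := by
  have hF := hG.adm
  have hD := hG.pos
  have hl := ac_pos hD hs
  set lam := ac D s with hlam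
  have hlD : lam * D = s * Real.exp s := ac_mul hD s
  have hne : Nonempty Ω := by
    by_contra h
    rw [not_nonempty_iff] at h
    have h1 : μ univ = 1 := measure_univ
    rw [Set.univ_eq_empty_iff.2 h, measure_empty] at h1
    exact zero_ne_one h1
  obtain ⟨u₀⟩ := hne
  have hZ := PZ_ge_one (μ := μ) hF _ hl.le
  have hZe := PZ_eq (μ := μ) hF lam hl.le
  have h1 : Z μ F (fun y => ENNReal.ofReal lam * F u₀ y) ≤
      Z μ F (fun _ => ENNReal.ofReal lam) :=
    Z_mono fun y => mul_le_of_le_one_right (by simp) (hF.le_one u₀ y)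
  rw [hZe] at h1
  have hne : Z μ F (fun y => ENNReal.ofReal lam * F u₀ y) ≠ ∞ :=
    (h1.trans_lt ENNReal.ofReal_lt_top).ne
  set w1 := (Z μ F (fun y => ENNReal.ofReal lam * F u₀ y)).toReal with hw1
  have hw1e : Z μ F (fun y => ENNReal.ofReal lam * F u₀ y) = ENNReal.ofReal w1 :=
    (ENNReal.ofReal_toReal hne).symm
  have hw11 : 1 ≤ w1 := by
    have := ENNReal.toReal_mono hne (one_le_Z (μ := μ) (F := F) _)
    simpa using this
  have hw : 0 < PZ μ F lam := by linarith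
  have hw1p : 0 < w1 := by linarith
  have key := low_abs hG hδ₀ hL u₀ lam hl _ w1 _ hZe hw1e hZ hw11 rfl (by rw [hlD]; exact hδ1)
  rw [hlD] at key
  -- the mean
  have hmean : PM μ F lam = lam * w1 / PZ μ F lam := by
    unfold PM
    congr 1
    have h2 : Mn μ F (fun _ => ENNReal.ofReal lam) = ENNReal.ofReal (lam * w1) := by
      unfold Pool.Agent.N549.HG.Mn
      have h3 : ∀ u, Z μ F (fun y => ENNReal.ofReal lam * F u y) = ENNReal.ofReal w1 :=
        fun u => by rw [hG.hom _ u u₀, hw1e]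
      simp only [h3]
      rw [lintegral_const, measure_univ, mul_one, ENNReal.ofReal_mul hl.le]
    rw [PM_eq hF lam hl.le] at h2
    have h4 := congrArg ENNReal.toReal h2
    rwa [ENNReal.toReal_ofReal (tsum_nonneg fun k => mul_nonneg (by positivity)
      (mul_nonneg (by positivity) (pr_nonneg k))), ENNReal.toReal_ofReal (by positivity)] at h4
  have e2 : D * PM μ F lam = s * Real.exp s * w1 / PZ μ F lam := by
    rw [hmean, ← hlD]; ring
  rw [e2]
  set δ := δ₀ * (s * Real.exp s) with hδ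
  have hδ0 : 0 ≤ δ := by rw [hδ]; positivity
  set y := s * Real.exp s * w1 / PZ μ F lam with hy
  have hy0 : 0 < y := by rw [hy]; positivity
  have e3 : PZ μ F lam / w1 = s * Real.exp s / y := by
    rw [hy]; field_simp
  rw [e3] at key
  by_contra hcon
  push Not at hcon
  have h6 : y < s := by nlinarith
  rcases eq_or_lt_of_le hδ1 with hd | hd
  · rw [hd] at hcon
    linarith
  have h5 : 0 < 1 - δ := by linarith
  have h7 : s < Real.log (s * Real.exp s / y) := by
    rw [Real.lt_log_iff_exp_lt (by positivity), lt_div_iff₀ hy0]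
    calc Real.exp s * y < Real.exp s * s := mul_lt_mul_of_pos_left h6 (Real.exp_pos s)
      _ = s * Real.exp s := by ring
  have h8 : (1 - δ) * s < (1 - δ) * Real.log (s * Real.exp s / y) :=
    mul_lt_mul_of_pos_left h7 h5
  linarith

/-- **Lower bound for the pressure.** -/
theorem gas_low [IsProbabilityMeasure μ] (hG : Gas μ F D) {δ₀ : ℝ} (hδ₀ : 0 ≤ δ₀)
    (hL : LocK μ F δ₀ D) (s : ℝ) (hs : 0 < s) (hδ1 : δ₀ * (s * Real.exp s) ≤ 1) :
    (1 - δ₀ * (s * Real.exp s)) * (s + s ^ 2 / 2) ≤ D * Real.log (PZ μ F (ac D s)) := by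
  have hD := hG.pos
  have hδ0 : 0 ≤ δ₀ * (s * Real.exp s) := by positivity
  refine Pool.Agent.N490.HG.lower (y := fun s => D * PM μ F (ac D s))
    (p := fun s => D * Real.log (PZ μ F (ac D s))) (W := s) hδ0 hδ1 ?_ ?_ ?_ hs le_rfl
  · intro w hw
    exact mul_nonneg hD.le (Real.log_nonneg (PZ_ge_one hG.adm _ (ac_pos hD hw).le))
  · intro w hw hws
    have h1 : δ₀ * (w * Real.exp w) ≤ δ₀ * (s * Real.exp s) := by
      have : w * Real.exp w ≤ s * Real.exp s :=
        mul_le_mul hws (Real.exp_le_exp.2 hws) (Real.exp_pos _).le hs.le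
      exact mul_le_mul_of_nonneg_left this hδ₀
    have h2 := gas_dens hG hδ₀ hL w hw (h1.trans hδ1)
    refine le_trans ?_ h2
    exact mul_le_mul_of_nonneg_right (by linarith) hw.le
  · intro a b ha hab
    exact conv_ac hG a b ha (lt_of_lt_of_le ha hab)

/-- **The equation of state.** -/
theorem gas_state [IsProbabilityMeasure μ] (hG : Gas μ F D) {κ δ₀ : ℝ} (hκ : 0 ≤ κ)
    (hS : SupK μ F D κ) (hδ₀ : 0 ≤ δ₀) (hL : LocK μ F δ₀ D) {ε W : ℝ} (hε : 0 < ε) (hε1 : ε ≤ 1)
    (h1 : κ * Real.exp W ≤ ε ^ 2 / 128) (h2 : δ₀ * (W * Real.exp W) ≤ ε ^ 2 / 128)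
    {s : ℝ} (hs : 0 < s) (hsW : (1 + ε / 4) * s ≤ W) :
    |D * PM μ F (ac D s) - s| ≤ ε * s ∧
    |D * Real.log (PZ μ F (ac D s)) - (s + s ^ 2 / 2)| ≤ ε * (s + s ^ 2 / 2) := by
  have hD := hG.pos
  set η := ε / 4 with hη
  have hη0 : 0 < η := by positivity
  have hη1 : η ≤ 1 / 4 := by linarith
  have e0 : ε ^ 2 / 128 = η ^ 2 / 8 := by rw [hη]; ring
  have hε₁ : η ^ 2 / 8 ≤ 1 := by nlinarith
  have key : ∀ w, 0 < w → w ≤ W →
      |D * Real.log (PZ μ F (ac D w)) - (w + w ^ 2 / 2)| ≤ η ^ 2 / 8 * (w + w ^ 2 / 2) := by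
    intro w hw hwW
    have u1 := gas_up hG hκ hS w hw
    have hwe : w * Real.exp w ≤ W * Real.exp W :=
      mul_le_mul hwW (Real.exp_le_exp.2 hwW) (Real.exp_pos _).le (hw.le.trans hwW)
    have k1 : δ₀ * (w * Real.exp w) ≤ η ^ 2 / 8 := by
      rw [← e0]
      exact (mul_le_mul_of_nonneg_left hwe hδ₀).trans h2
    have k2 : κ * (w * Real.exp w) ≤ η ^ 2 / 8 * w := by
      have : κ * Real.exp w ≤ η ^ 2 / 8 := by
        rw [← e0]
        exact (mul_le_mul_of_nonneg_left (Real.exp_le_exp.2 hwW) hκ).trans h1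
      calc κ * (w * Real.exp w) = κ * Real.exp w * w := by ring
        _ ≤ η ^ 2 / 8 * w := mul_le_mul_of_nonneg_right this hw.le
    have u2 := gas_low hG hδ₀ hL w hw (k1.trans hε₁)
    have hP : 0 < w + w ^ 2 / 2 := by positivity
    have k3 := mul_le_mul_of_nonneg_right k1 hP.le
    have k4 : η ^ 2 / 8 * w ≤ η ^ 2 / 8 * (w + w ^ 2 / 2) :=
      mul_le_mul_of_nonneg_left (by nlinarith) (by positivity)
    rw [abs_le]
    constructor
    · linarith
    · linarith
  have hb0 : 0 < (1 + η) * s := by positivity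
  have ha0 : 0 < (1 - η) * s := mul_pos (by linarith) hs
  have hsb : s ≤ (1 + η) * s := by nlinarith
  have has : (1 - η) * s ≤ s := by nlinarith
  have pw := key s hs (hsb.trans hsW)
  have pa := key _ ha0 (has.trans (hsb.trans hsW))
  have pb := key _ hb0 hsW
  have cb := conv_ac hG s _ hs hb0
  have ca := conv_ac hG s _ hs ha0
  have sb := Pool.Agent.N549.HG.P_step hs hsb
  have sa := Pool.Agent.N549.HG.P_step ha0 has
  have eb : (1 + η) * s / s = 1 + η := by field_simp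
  have ea : (1 - η) * s / s = 1 - η := by field_simp
  have ea' : Real.log (s / ((1 - η) * s)) = -Real.log (1 - η) := by
    rw [← inv_div, Real.log_inv, ea]
  rw [eb] at cb sb
  rw [ea] at ca
  rw [ea'] at sa
  have hbw : (1 + η) * s - s = η * s := by ring
  have hwa : s - (1 - η) * s = η * s := by ring
  have haw' : (1 - η) * s - s = -(η * s) := by ring
  rw [hbw] at cb sb
  rw [hwa] at sa
  rw [haw'] at ca
  have up := Pool.Agent.N549.HG.step_up hs hη0 hη1 rfl rfl rfl rfl rfl pw pb cb sb.2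
  have lo := Pool.Agent.N549.HG.step_low hs hη0 hη1 rfl rfl rfl rfl rfl pw pa (by
    have : -(-Real.log (1 - η) + η * s) * (D * PM μ F (ac D s)) =
      (Real.log (1 - η) + -(η * s)) * (D * PM μ F (ac D s)) := by ring
    rw [this]; exact ca) sa.1
  have hηw : 2 * η * s ≤ ε * s := mul_le_mul_of_nonneg_right (by linarith) hs.le
  refine ⟨?_, ?_⟩
  · rw [abs_le]
    constructor <;> linarith
  · exact pw.trans (mul_le_mul_of_nonneg_right (by nlinarith) (by positivity))

/-- **The canonical form.** -/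
theorem gas_canon (ε : ℝ) (hε : 0 < ε) : ∃ ε₁ D₀ : ℝ, 0 < ε₁ ∧ ε₁ ≤ 1 ∧ ε₁ ≤ ε ∧ 0 < D₀ ∧
    ∀ (Ω : Type) [MeasurableSpace Ω] (μ : Measure Ω) [IsProbabilityMeasure μ]
      (F : Ω → Ω → ℝ≥0∞) (D κ δ₀ W : ℝ), Gas μ F D → D ≤ D₀ → 0 ≤ κ → SupK μ F D κ → 0 ≤ δ₀ →
      LocK μ F δ₀ D → κ * Real.exp W ≤ ε₁ ^ 2 / 128 → δ₀ * (W * Real.exp W) ≤ ε₁ ^ 2 / 128 →
      ∀ k : ℕ, ε ≤ k * D → (1 + ε) * ((1 + ε₁ / 4) * (k * D)) ≤ W →
        0 < pr μ F k ∧ |Real.log (pr μ F k) + k ^ 2 * D / 2| ≤ ε * (k ^ 2 * D) := by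
  obtain ⟨ε₂, hε₂, D₀, hD₀, h⟩ := Pool.Agent.N424.HG.canon ε hε
  have hmin : 0 < min ε₂ (min ε 1) := lt_min hε₂ (lt_min hε one_pos)
  have hmin1 : min ε₂ (min ε 1) ≤ 1 := (min_le_right _ _).trans (min_le_right _ _)
  refine ⟨min ε₂ (min ε 1), D₀, hmin, hmin1, (min_le_right _ _).trans (min_le_left _ _), hD₀, ?_⟩
  intro Ω _ μ _ F D κ δ₀ W hG hDD hκ hS hδ₀ hL h1 h2 k hk1 hk2
  have hden : 0 < 1 + min ε₂ (min ε 1) / 4 := by positivity
  refine h D (W / (1 + min ε₂ (min ε 1) / 4)) hG.pos hDD (pr μ F) (pr_anti hG.adm)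
    (fun k => ⟨pr_nonneg k, pr_le_one hG.adm k⟩) ?_ k hk1 ?_
  · intro w hw hwX
    have hwX' : (1 + min ε₂ (min ε 1) / 4) * w ≤ W := by
      rw [le_div_iff₀ hden] at hwX
      linarith
    obtain ⟨-, h3⟩ := gas_state hG hκ hS hδ₀ hL hmin hmin1 h1 h2 hw hwX'
    have e1 : PZ μ F (ac D w) = ∑' k : ℕ, (w * Real.exp w / D) ^ k / k.factorial * pr μ F k := rfl
    rw [e1, abs_le] at h3
    have h9 : 0 ≤ w + w ^ 2 / 2 := by positivity
    have h10 := mul_le_mul_of_nonneg_right (min_le_left ε₂ (min ε 1)) h9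
    constructor <;> linarith [h3.1, h3.2]
  · rw [le_div_iff₀ hden]
    linarith

end Pool.Agent.N549.AB
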