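import Pool.Agent.N549.AB.Abs2

/-!
# Homogeneous hard-core gases: the uniform form (project HG)
-/

set_option autoImplicit false

namespace Pool.Agent.N549.AB

open MeasureTheory Set Finset
open scoped ENNReal NNReal

theorem decay (X a c : ℝ) (ha : 0 < a) (hc : 0 < c) :
    ∃ N₀ : ℝ, 0 ≤ N₀ ∧ ∀ N : ℝ, N₀ ≤ N → (1 + |X| * N) * Real.exp (-(a * N)) ≤ c := by
  set C := 1 + 2 * |X| / a with hC
  have hC0 : 0 < C := by rw [hC]; positivity
  refine ⟨2 * C / (a * c), by positivity, fun N hN => ?_⟩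
  have hN0 : 0 ≤ N := le_trans (by positivity) hN
  have h1 : 1 + a * N / 2 ≤ Real.exp (a * N / 2) := by
    have := Real.add_one_le_exp (a * N / 2)
    linarith
  have h2 : Real.exp (-(a * N)) = (Real.exp (a * N / 2) ^ 2)⁻¹ := by
    rw [← Real.exp_nat_mul, ← Real.exp_neg]
    congr 1
    push_cast
    ring
  have hp : 0 < 1 + a * N / 2 := by positivity
  have h3 : Real.exp (-(a * N)) ≤ ((1 + a * N / 2) ^ 2)⁻¹ := by
    rw [h2]
    exact inv_anti₀ (by positivity) (pow_le_pow_left₀ hp.le h1 2)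
  have h4 : 1 + |X| * N ≤ C * (1 + a * N / 2) := by
    have e : C * (1 + a * N / 2) = 1 + |X| * N + 2 * |X| / a + a * N / 2 := by
      rw [hC]; field_simp; ring
    rw [e]
    have : 0 ≤ 2 * |X| / a := by positivity
    have : 0 ≤ a * N / 2 := by positivity
    linarith
  calc (1 + |X| * N) * Real.exp (-(a * N))
      ≤ C * (1 + a * N / 2) * ((1 + a * N / 2) ^ 2)⁻¹ :=
        mul_le_mul h4 h3 (Real.exp_pos _).le (by positivity)
    _ = C / (1 + a * N / 2) := by field_simp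
    _ ≤ c := by
        rw [div_le_iff₀ hp]
        rw [div_le_iff₀ (by positivity)] at hN
        nlinarith

/-- **The uniform form of the equation of state and of the canonical form.** -/
theorem uniform (X ε : ℝ) (hε : 0 < ε) : ∃ N₀ D₀ : ℝ, 0 < D₀ ∧
    ∀ (Ω : Type) [MeasurableSpace Ω] (μ : Measure Ω) [IsProbabilityMeasure μ]
      (F : Ω → Ω → ℝ≥0∞) (D κ δ₀ N : ℝ), N₀ ≤ N → Gas μ F D → D ≤ D₀ → 0 ≤ κ → SupK μ F D κ →
      0 ≤ δ₀ → LocK μ F δ₀ D → κ ≤ Real.exp (-((X - ε / 4) * N)) →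
      δ₀ ≤ Real.exp (-((X - ε / 4) * N)) →
      (∀ s : ℝ, 0 < s → s ≤ (X - ε) * N →
        |D * PM μ F (ac D s) - s| ≤ ε * s ∧
        |D * Real.log (PZ μ F (ac D s)) - (s + s ^ 2 / 2)| ≤ ε * (s + s ^ 2 / 2)) ∧
      ∀ k : ℕ, ε ≤ k * D → k * D ≤ (X - ε) * N →
        0 < pr μ F k ∧ |Real.log (pr μ F k) + k ^ 2 * D / 2| ≤ ε * (k ^ 2 * D) := by
  set e : ℝ := min (min ε 1) (ε / (4 * (|X| + 1))) with he
  have he0 : 0 < e := by rw [he]; positivity
  have he1 : e ≤ 1 := (min_le_left _ _).trans (min_le_right _ _)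
  have heε : e ≤ ε := (min_le_left _ _).trans (min_le_left _ _)
  have heX : e * (4 * (|X| + 1)) ≤ ε := by
    have := min_le_right (min ε 1) (ε / (4 * (|X| + 1)))
    rw [← he, le_div_iff₀ (by positivity)] at this
    exact this
  obtain ⟨e₁, D₀, he₁, he₁1, he₁e, hD₀, hcan⟩ := gas_canon e he0
  have hcpos : 0 < e₁ ^ 2 / 128 := by positivity
  obtain ⟨N₀, hN₀, hdec⟩ := decay X (ε / 4) (e₁ ^ 2 / 128) (by positivity) hcpos
  refine ⟨N₀, D₀, hD₀, ?_⟩
  intro Ω _ μ _ F D κ δ₀ N hN hG hDD hκ hS hδ₀ hL hκN hδN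
  have hN0 : 0 ≤ N := hN₀.trans hN
  set W : ℝ := (X - ε / 2) * N with hW
  have hd := hdec N hN
  have hXN : 0 ≤ |X| * N := mul_nonneg (abs_nonneg _) hN0
  have eexp : Real.exp (-((X - ε / 4) * N)) * Real.exp W = Real.exp (-(ε / 4 * N)) := by
    rw [← Real.exp_add]
    congr 1
    rw [hW]; ring
  have hk1 : κ * Real.exp W ≤ e₁ ^ 2 / 128 := by
    calc κ * Real.exp W ≤ Real.exp (-((X - ε / 4) * N)) * Real.exp W :=
          mul_le_mul_of_nonneg_right hκN (Real.exp_pos _).le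
      _ = Real.exp (-(ε / 4 * N)) := eexp
      _ ≤ (1 + |X| * N) * Real.exp (-(ε / 4 * N)) :=
          le_mul_of_one_le_left (Real.exp_pos _).le (by linarith)
      _ ≤ _ := hd
  have hWX : W ≤ 1 + |X| * N := by
    have : (X - ε / 2) * N ≤ |X| * N :=
      mul_le_mul_of_nonneg_right (by linarith [le_abs_self X]) hN0
    linarith
  have hk2 : δ₀ * (W * Real.exp W) ≤ e₁ ^ 2 / 128 := by
    calc δ₀ * (W * Real.exp W) = W * (δ₀ * Real.exp W) := by ring
      _ ≤ (1 + |X| * N) * (δ₀ * Real.exp W) :=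
          mul_le_mul_of_nonneg_right hWX (by positivity)
      _ ≤ (1 + |X| * N) * (Real.exp (-((X - ε / 4) * N)) * Real.exp W) := by
          refine mul_le_mul_of_nonneg_left ?_ (by positivity)
          exact mul_le_mul_of_nonneg_right hδN (Real.exp_pos _).le
      _ = (1 + |X| * N) * Real.exp (-(ε / 4 * N)) := by rw [eexp]
      _ ≤ _ := hd
  have hX1 : ∀ y : ℝ, 0 ≤ y → y ≤ (X - ε) * N → (1 + 2 * e) * y ≤ W := by
    intro y hy0 hy
    have h1 : y ≤ |X| * N :=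
      hy.trans (mul_le_mul_of_nonneg_right (by linarith [le_abs_self X]) hN0)
    have h2 : 2 * e * y ≤ 2 * e * (|X| * N) := mul_le_mul_of_nonneg_left h1 (by positivity)
    have h3 : 2 * e * (|X| * N) ≤ ε / 2 * N := by
      have h4 : e * (4 * (|X| + 1)) * N ≤ ε * N := mul_le_mul_of_nonneg_right heX hN0
      have h5 : 0 ≤ e * N := by positivity
      nlinarith
    have e2 : W = (X - ε) * N + ε / 2 * N := by rw [hW]; ring
    rw [e2]
    linarith
  refine ⟨fun s hs hsN => ?_, fun k hk hkN => ?_⟩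
  · have h1 : (1 + e₁ / 4) * s ≤ W := by
      refine le_trans ?_ (hX1 s hs.le hsN)
      exact mul_le_mul_of_nonneg_right (by linarith) hs.le
    obtain ⟨h2, h3⟩ := gas_state hG hκ hS hδ₀ hL he₁ he₁1 hk1 hk2 hs h1
    have h4 : e₁ ≤ ε := he₁e.trans heε
    exact ⟨h2.trans (mul_le_mul_of_nonneg_right h4 hs.le),
      h3.trans (mul_le_mul_of_nonneg_right h4 (by positivity))⟩
  · have hkD : 0 ≤ (k : ℝ) * D := mul_nonneg (Nat.cast_nonneg _) hG.pos.le
    have h1 : (1 + e) * ((1 + e₁ / 4) * (k * D)) ≤ W := by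
      refine le_trans ?_ (hX1 _ hkD hkN)
      have h5 : (1 + e) * (1 + e₁ / 4) ≤ 1 + 2 * e := by nlinarith
      calc (1 + e) * ((1 + e₁ / 4) * (k * D)) = (1 + e) * (1 + e₁ / 4) * (k * D) := by ring
        _ ≤ (1 + 2 * e) * (k * D) := mul_le_mul_of_nonneg_right h5 hkD
    obtain ⟨h2, h3⟩ := hcan Ω μ F D κ δ₀ W hG hDD hκ hS hδ₀ hL hk1 hk2 k (heε.trans hk) h1
    refine ⟨h2, h3.trans (mul_le_mul_of_nonneg_right heε ?_)⟩
    exact mul_nonneg (by positivity) hG.pos.le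

end Pool.Agent.N549.AB
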