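import Mathlib

/-!
# The canonical form with explicit errors: statement (project HG)
-/

set_option autoImplicit false

namespace Pool.Agent.N549.AB

/-- AB/CANX: from the pressure to the number of configurations, with explicit errors -/
def S_CANX : Prop := ∀ (D e h W : ℝ) (p : ℕ → ℝ), 0 < D → 0 ≤ e → 0 < h → h ≤ 1 / 4 →
  e ≤ h ^ 2 / 48 → Antitone p → (∀ k, 0 ≤ p k ∧ p k ≤ 1) →
  (∀ s : ℝ, 0 < s → s ≤ W →
    |D * Real.log (∑' k : ℕ, (s * Real.exp s / D) ^ k / k.factorial * p k) - (s + s ^ 2 / 2)| ≤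
      e * s) →
  ∀ k : ℕ, 1 ≤ k → 12 ≤ h ^ 2 * k → (1 + h) ^ 2 * (k * D) ≤ W →
    0 < p k ∧
    |Real.log (p k) + k ^ 2 * D / 2| ≤ 3 * h * (k ^ 2 * D) + 2 * e * k + Real.log k + 2

end Pool.Agent.N549.AB
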