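import Pool.Agent.N549.AB.Abs4
import Pool.Agent.N549.AB.Stm

/-!
# Homogeneous hard-core gases: exponentially small errors (project HG)
-/

set_option autoImplicit false

namespace Pool.Agent.N549.AB

open MeasureTheory Set Finset
open scoped ENNReal NNReal

/-- an exponential beats a cubic -/
theorem decay3 (X a c : ℝ) (ha : 0 < a) (hc : 0 < c) :
    ∃ N₀ : ℝ, 0 ≤ N₀ ∧ ∀ N : ℝ, N₀ ≤ N → (1 + |X| * N) ^ 3 * Real.exp (-(a * N)) ≤ c := by
  obtain ⟨N₀, hN₀, h⟩ := decay X (a / 3) (min c 1) (by positivity) (lt_min hc one_pos)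
  refine ⟨N₀, hN₀, fun N hN => ?_⟩
  have h1 := h N hN
  have h0 : 0 ≤ (1 + |X| * N) * Real.exp (-(a / 3 * N)) := by
    have : 0 ≤ |X| * N := mul_nonneg (abs_nonneg _) (hN₀.trans hN)
    positivity
  have e : (1 + |X| * N) ^ 3 * Real.exp (-(a * N)) =
      ((1 + |X| * N) * Real.exp (-(a / 3 * N))) ^ 3 := by
    rw [mul_pow, ← Real.exp_nat_mul]
    congr 2
    push_cast
    ring
  rw [e]
  calc ((1 + |X| * N) * Real.exp (-(a / 3 * N))) ^ 3 ≤ (min c 1) ^ 3 :=
        pow_le_pow_left₀ h0 h1 3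
    _ ≤ min c 1 := pow_le_of_le_one (le_min hc.le zero_le_one) (min_le_right _ _) (by norm_num)
    _ ≤ c := min_le_left _ _

variable {Ω : Type} [MeasurableSpace Ω] {μ : Measure Ω} {F : Ω → Ω → ℝ≥0∞} {D : ℝ}

/-- **The density from the pressure, with explicit errors.** -/
theorem dens_up [IsProbabilityMeasure μ] (hG : Gas μ F D) (e h s : ℝ) (he : 0 ≤ e) (hh : 0 < h)
    (hh1 : h ≤ 1) (hs : 0 < s)
    (h1 : |D * Real.log (PZ μ F (ac D s)) - (s + s ^ 2 / 2)| ≤ e * s)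
    (h2 : |D * Real.log (PZ μ F (ac D ((1 + h) * s))) -
      ((1 + h) * s + ((1 + h) * s) ^ 2 / 2)| ≤ e * ((1 + h) * s)) :
    D * PM μ F (ac D s) ≤ s * (1 + h + 6 * e / h) := by
  have hb : 0 < (1 + h) * s := by positivity
  have hc := conv_ac hG s _ hs hb
  have e1 : (1 + h) * s / s = 1 + h := by field_simp
  have e2 : (1 + h) * s - s = h * s := by ring
  rw [e1, e2] at hc
  rw [abs_le] at h1 h2
  set y := D * PM μ F (ac D s) with hy
  have hlog : h - h ^ 2 / 2 ≤ Real.log (1 + h) := by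
    have h3 := Real.le_log_one_add_of_nonneg hh.le
    refine le_trans ?_ h3
    rw [le_div_iff₀ (by positivity)]
    nlinarith [pow_pos hh 2, pow_pos hh 3]
  have hy0 : 0 ≤ y := by
    rw [hy]
    refine mul_nonneg hG.pos.le (div_nonneg (tsum_nonneg fun k => mul_nonneg (by positivity)
      (mul_nonneg (pow_nonneg (ac_pos hG.pos hs).le k |> fun h => div_nonneg h (by positivity))
      (pr_nonneg k))) ?_)
    exact le_trans zero_le_one (PZ_ge_one hG.adm _ (ac_pos hG.pos hs).le)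
  have h4 : (h - h ^ 2 / 2 + h * s) * y ≤ h * s + h * s ^ 2 + (h * s) ^ 2 / 2 + 3 * e * s := by
    have h5 : (h - h ^ 2 / 2 + h * s) * y ≤ (Real.log (1 + h) + h * s) * y :=
      mul_le_mul_of_nonneg_right (by linarith) hy0
    have h6 : e * ((1 + h) * s) ≤ 2 * e * s := by
      have : 0 ≤ e * s := by positivity
      nlinarith
    have e3 : (1 + h) * s + ((1 + h) * s) ^ 2 / 2 - (s + s ^ 2 / 2) =
      h * s + h * s ^ 2 + (h * s) ^ 2 / 2 := by ring
    linarith [h1.1, h2.2]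
  -- conclude
  by_contra hcon
  push Not at hcon
  have hq : 0 < h - h ^ 2 / 2 + h * s := by nlinarith
  have h7 := mul_lt_mul_of_pos_left hcon hq
  have h8 : h * s + h * s ^ 2 + (h * s) ^ 2 / 2 + 3 * e * s ≤
      (h - h ^ 2 / 2 + h * s) * (s * (1 + h + 6 * e / h)) := by
    have e4 : (h - h ^ 2 / 2 + h * s) * (s * (1 + h + 6 * e / h)) =
        s * (1 - h / 2 + s) * (h * (1 + h) + 6 * e) := by
      field_simp
    rw [e4]
    have h9 : 0 ≤ 1 - h / 2 - 1 / 2 := by linarith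
    have h10 : 0 ≤ e * s := by positivity
    have h11 : 0 ≤ s * h := by positivity
    have h12 : s * (1 - h / 2 + s) * (h * (1 + h) + 6 * e) =
        s * h * (1 - h / 2 + s) * (1 + h) + 6 * (e * s) * (1 - h / 2 + s) := by ring
    rw [h12]
    have h13 : 3 * (e * s) ≤ 6 * (e * s) * (1 - h / 2 + s) := by nlinarith [mul_nonneg h10 hs.le]
    have h14 : h * s + h * s ^ 2 + (h * s) ^ 2 / 2 ≤ s * h * (1 - h / 2 + s) * (1 + h) := by
      have e5 : s * h * (1 - h / 2 + s) * (1 + h) - (h * s + h * s ^ 2 + (h * s) ^ 2 / 2) =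
          s * h * (h / 2 - h ^ 2 / 2 + s * h / 2) := by ring
      have h15 : 0 ≤ h / 2 - h ^ 2 / 2 + s * h / 2 := by nlinarith [mul_nonneg hs.le hh.le]
      have := mul_nonneg h11 h15
      linarith
    linarith
  linarith

/-- **The uniform form with exponentially small errors.** -/
theorem uniform_exp (hcanx : S_CANX) (X ε b : ℝ) (hε : 0 < ε) (hb : 0 < b) :
    ∃ a N₀ : ℝ, 0 < a ∧
    ∀ (Ω : Type) [MeasurableSpace Ω] (μ : Measure Ω) [IsProbabilityMeasure μ]
      (F : Ω → Ω → ℝ≥0∞) (D κ δ₀ N : ℝ), N₀ ≤ N → Gas μ F D → D ≤ Real.exp (-(b * N)) →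
      0 ≤ κ → SupK μ F D κ → 0 ≤ δ₀ → LocK μ F δ₀ D → κ ≤ Real.exp (-((X - ε / 4) * N)) →
      δ₀ ≤ Real.exp (-((X - ε / 4) * N)) →
      (∀ s : ℝ, 0 < s → s ≤ (X - ε) * N →
        |D * PM μ F (ac D s) - s| ≤ Real.exp (-(a * N)) * s ∧
        |D * Real.log (PZ μ F (ac D s)) - (s + s ^ 2 / 2)| ≤ Real.exp (-(a * N)) * s) ∧
      ∀ k : ℕ, Real.exp (-(a * N)) ≤ k * D → k * D ≤ (X - ε) * N →
        0 < pr μ F k ∧
        |Real.log (pr μ F k) + k ^ 2 * D / 2| ≤ Real.exp (-(a * N)) * (k ^ 2 * D) := by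
  set m : ℝ := min ε b with hm
  have hm0 : 0 < m := lt_min hε hb
  have hmε : m ≤ ε := min_le_left _ _
  have hmb : m ≤ b := min_le_right _ _
  obtain ⟨N₁, hN₁, hd1⟩ := decay3 X (ε / 8) 1 (by positivity) one_pos
  obtain ⟨N₂, hN₂, hd2⟩ := decay 0 (m / 64) (min (1 / 48) (ε / (6 * (|X| + 1))))
    (by positivity) (by positivity)
  simp only [abs_zero, zero_mul, add_zero, one_mul] at hd2
  refine ⟨m / 64, max N₁ N₂, by positivity, ?_⟩
  intro Ω _ μ _ F D κ δ₀ N hN hG hDb hκ hS hδ₀ hL hκN hδN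
  have g1 := hd1 N ((le_max_left _ _).trans hN)
  have g2 := hd2 N ((le_max_right _ _).trans hN)
  have hN0 : 0 ≤ N := hN₁.trans ((le_max_left _ _).trans hN)
  have hD := hG.pos
  set q : ℝ := Real.exp (-(m / 64 * N)) with hq
  have hq0 : 0 < q := Real.exp_pos _
  have hq48 : q ≤ 1 / 48 := g2.trans (min_le_left _ _)
  have hq1 : q ≤ 1 := hq48.trans (by norm_num)
  have hqX : q * (6 * (|X| + 1)) ≤ ε := by
    have := g2.trans (min_le_right _ _)
    rwa [le_div_iff₀ (by positivity)] at this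
  have hXN : 0 ≤ |X| * N := mul_nonneg (abs_nonneg _) hN0
  set W : ℝ := (X - ε / 2) * N with hW
  have hWX : W ≤ |X| * N := mul_le_mul_of_nonneg_right (by linarith [le_abs_self X]) hN0
  -- powers of `q`
  have hq8 : Real.exp (-(ε / 8 * N)) ≤ q ^ 8 := by
    rw [hq, ← Real.exp_nat_mul, Real.exp_le_exp]
    push_cast
    have := mul_le_mul_of_nonneg_right hmε hN0
    nlinarith
  have hD64 : D ≤ q ^ 64 := by
    refine hDb.trans ?_
    rw [hq, ← Real.exp_nat_mul, Real.exp_le_exp]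
    push_cast
    have := mul_le_mul_of_nonneg_right hmb hN0
    nlinarith
  have hpow : ∀ j : ℕ, 1 ≤ j → q ^ j ≤ q := fun j hj =>
    pow_le_of_le_one hq0.le hq1 (by omega)
  -- the pressure
  have hexpW : ∀ s : ℝ, s ≤ W → Real.exp (-((X - ε / 4) * N)) * Real.exp s ≤
      Real.exp (-(ε / 4 * N)) := by
    intro s hs
    rw [← Real.exp_add, Real.exp_le_exp, ← sub_nonneg]
    have e : -(ε / 4 * N) - (-((X - ε / 4) * N) + s) = W - s := by rw [hW]; ring
    rw [e]
    linarith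
  have hcub : ∀ s : ℝ, 0 < s → s ≤ W → δ₀ * (s * Real.exp s) * (1 + s / 2) ≤ q ^ 8 := by
    intro s hs hsW
    have h1 : s ≤ |X| * N := hsW.trans hWX
    have h2 : δ₀ * Real.exp s ≤ Real.exp (-(ε / 4 * N)) :=
      (mul_le_mul_of_nonneg_right hδN (Real.exp_pos _).le).trans (hexpW s hsW)
    have h3 : s * (1 + s / 2) ≤ (1 + |X| * N) ^ 3 := by
      nlinarith [mul_nonneg hXN hXN, mul_nonneg hXN (mul_nonneg hXN hXN),
        mul_le_mul h1 h1 hs.le hXN]
    calc δ₀ * (s * Real.exp s) * (1 + s / 2) = (s * (1 + s / 2)) * (δ₀ * Real.exp s) := by ring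
      _ ≤ (1 + |X| * N) ^ 3 * Real.exp (-(ε / 4 * N)) :=
          mul_le_mul h3 h2 (by positivity) (by positivity)
      _ = (1 + |X| * N) ^ 3 * Real.exp (-(ε / 8 * N)) * Real.exp (-(ε / 8 * N)) := by
          rw [mul_assoc, ← Real.exp_add]
          congr 2
          ring
      _ ≤ 1 * Real.exp (-(ε / 8 * N)) := mul_le_mul_of_nonneg_right g1 (Real.exp_pos _).le
      _ ≤ q ^ 8 := by rw [one_mul]; exact hq8
  have hδs : ∀ s : ℝ, 0 < s → s ≤ W → δ₀ * (s * Real.exp s) ≤ q ^ 8 := by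
    intro s hs hsW
    refine le_trans ?_ (hcub s hs hsW)
    have h0 : 0 ≤ δ₀ * (s * Real.exp s) := by positivity
    nlinarith
  have hq8le : q ^ 8 ≤ q := hpow 8 (by norm_num)
  have hP : ∀ s : ℝ, 0 < s → s ≤ W →
      |D * Real.log (PZ μ F (ac D s)) - (s + s ^ 2 / 2)| ≤ q ^ 8 * s := by
    intro s hs hsW
    have u1 := gas_up hG hκ hS s hs
    have u2 := gas_low hG hδ₀ hL s hs ((hδs s hs hsW).trans (hq8le.trans hq1))
    have k1 : κ * (s * Real.exp s) ≤ q ^ 8 * s := by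
      have h2 : κ * Real.exp s ≤ Real.exp (-(ε / 4 * N)) :=
        (mul_le_mul_of_nonneg_right hκN (Real.exp_pos _).le).trans (hexpW s hsW)
      have h3 : Real.exp (-(ε / 4 * N)) ≤ Real.exp (-(ε / 8 * N)) := by
        rw [Real.exp_le_exp]
        nlinarith [mul_nonneg hε.le hN0]
      calc κ * (s * Real.exp s) = κ * Real.exp s * s := by ring
        _ ≤ q ^ 8 * s := mul_le_mul_of_nonneg_right (h2.trans (h3.trans hq8)) hs.le
    have k2 : δ₀ * (s * Real.exp s) * (s + s ^ 2 / 2) ≤ q ^ 8 * s := by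
      calc δ₀ * (s * Real.exp s) * (s + s ^ 2 / 2) =
            δ₀ * (s * Real.exp s) * (1 + s / 2) * s := by ring
        _ ≤ q ^ 8 * s := mul_le_mul_of_nonneg_right (hcub s hs hsW) hs.le
    rw [abs_le]
    constructor
    · linarith
    · linarith
  have hX1 : ∀ y : ℝ, 0 ≤ y → y ≤ (X - ε) * N → (1 + 3 * q) * y ≤ W := by
    intro y hy0 hy
    have h1 : y ≤ |X| * N :=
      hy.trans (mul_le_mul_of_nonneg_right (by linarith [le_abs_self X]) hN0)
    have h2 : 3 * q * y ≤ 3 * q * (|X| * N) := mul_le_mul_of_nonneg_left h1 (by positivity)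
    have h3 : 3 * q * (|X| * N) ≤ ε / 2 * N := by
      have h4 : q * (6 * (|X| + 1)) * N ≤ ε * N := mul_le_mul_of_nonneg_right hqX hN0
      have h5 : 0 ≤ q * N := by positivity
      nlinarith
    have e2 : W = (X - ε) * N + ε / 2 * N := by rw [hW]; ring
    rw [e2]
    linarith
  have hq2 : q ^ 2 ≤ q := hpow 2 (by norm_num)
  refine ⟨fun s hs hsN => ?_, fun k hk hkN => ?_⟩
  · have hs3 := hX1 s hs.le hsN
    have hsW : s ≤ W := le_trans (by nlinarith) hs3
    have hsW2 : (1 + q ^ 2) * s ≤ W := le_trans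
      (mul_le_mul_of_nonneg_right (by linarith) hs.le) hs3
    have p1 := hP s hs hsW
    have p2 := hP _ (by positivity) hsW2
    have dl := gas_dens hG hδ₀ hL s hs ((hδs s hs hsW).trans (hq8le.trans hq1))
    have du := dens_up hG (q ^ 8) (q ^ 2) s (by positivity) (by positivity) (hq2.trans hq1) hs
      p1 p2
    have h8s : q ^ 8 * s ≤ q * s := mul_le_mul_of_nonneg_right hq8le hs.le
    refine ⟨?_, p1.trans h8s⟩
    have h9 : δ₀ * (s * Real.exp s) * s ≤ q ^ 8 * s :=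
      mul_le_mul_of_nonneg_right (hδs s hs hsW) hs.le
    have h10 : s * (1 + q ^ 2 + 6 * q ^ 8 / q ^ 2) ≤ s + q * s := by
      have e : 6 * q ^ 8 / q ^ 2 = 6 * q ^ 6 := by field_simp
      rw [e]
      have h11 : q ^ 6 ≤ q ^ 2 := pow_le_pow_of_le_one hq0.le hq1 (by norm_num)
      have h12 : q ^ 2 + 6 * q ^ 6 ≤ q := by nlinarith
      nlinarith
    rw [abs_le]
    constructor
    · linarith
    · linarith
  · have hkD0 : 0 < (k : ℝ) * D := lt_of_lt_of_le hq0 hk
    have hk0 : (0 : ℝ) < k := by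
      by_contra hcon
      push Not at hcon
      nlinarith
    have hk1 : 1 ≤ k := by
      have : 0 < k := by exact_mod_cast hk0
      exact this
    have hW3 := hX1 _ hkD0.le hkN
    have hk4 : 48 ≤ q ^ 4 * k := by
      have h1 : 1 ≤ k * q ^ 63 := by
        have h2 : q ≤ k * q ^ 64 := hk.trans (mul_le_mul_of_nonneg_left hD64 hk0.le)
        have h3 : k * q ^ 64 = q * (k * q ^ 63) := by ring
        rw [h3] at h2
        by_contra hcon
        push Not at hcon
        have := mul_lt_mul_of_pos_left hcon hq0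
        linarith
      have h4 : q ^ 59 ≤ 1 / 48 := (hpow 59 (by norm_num)).trans hq48
      have h5 : k * q ^ 63 = q ^ 4 * k * q ^ 59 := by ring
      rw [h5] at h1
      have h6 : q ^ 4 * k * q ^ 59 ≤ q ^ 4 * k * (1 / 48) :=
        mul_le_mul_of_nonneg_left h4 (by positivity)
      linarith
    have c1 : q ^ 2 ≤ 1 / 4 := by linarith
    have c2 : q ^ 8 ≤ (q ^ 2) ^ 2 / 48 := by
      have h1 : q ^ 8 = (q ^ 2) ^ 2 * q ^ 4 := by ring
      rw [h1]
      have h2 : q ^ 4 ≤ 1 / 48 := (hpow 4 (by norm_num)).trans hq48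
      have h3 : 0 ≤ (q ^ 2) ^ 2 := by positivity
      have h4 := mul_le_mul_of_nonneg_left h2 h3
      linarith
    have c3 : 12 ≤ (q ^ 2) ^ 2 * (k : ℝ) := by
      have : (q ^ 2) ^ 2 * (k : ℝ) = q ^ 4 * k := by ring
      rw [this]
      linarith
    have c4 : (1 + q ^ 2) ^ 2 * ((k : ℝ) * D) ≤ W := by
      refine le_trans (mul_le_mul_of_nonneg_right ?_ hkD0.le) hW3
      have h1 : (q ^ 2) ^ 2 ≤ q ^ 2 := by
        have : (q ^ 2) ^ 2 = q ^ 4 := by ring
        rw [this]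
        exact pow_le_pow_of_le_one hq0.le hq1 (by norm_num)
      have h2 : (1 + q ^ 2) ^ 2 = 1 + 2 * q ^ 2 + (q ^ 2) ^ 2 := by ring
      rw [h2]
      linarith
    have c5 : ∀ s : ℝ, 0 < s → s ≤ W →
        |D * Real.log (∑' k : ℕ, (s * Real.exp s / D) ^ k / k.factorial * pr μ F k) -
          (s + s ^ 2 / 2)| ≤ q ^ 8 * s := fun s hs hsW => hP s hs hsW
    have c6 : ∀ k, 0 ≤ pr μ F k ∧ pr μ F k ≤ 1 := fun k => ⟨pr_nonneg k, pr_le_one hG.adm k⟩
    have c0 : 0 ≤ q ^ 8 := by positivity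
    have c7 : 0 < q ^ 2 := by positivity
    have hcan := hcanx D (q ^ 8) (q ^ 2) W (pr μ F) hD c0 c7 c1 c2 (pr_anti hG.adm) c6 c5 k hk1
      c3 c4
    refine ⟨hcan.1, hcan.2.trans ?_⟩
    -- the errors
    have hkD1 : k * q ≤ (k : ℝ) ^ 2 * D := by
      have : (k : ℝ) ^ 2 * D = k * (k * D) := by ring
      rw [this]
      exact mul_le_mul_of_nonneg_left hk hk0.le
    have e1 : 3 * q ^ 2 * ((k : ℝ) ^ 2 * D) ≤ q / 3 * (k ^ 2 * D) := by
      refine mul_le_mul_of_nonneg_right ?_ (by positivity)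
      nlinarith
    have e2 : 2 * q ^ 8 * (k : ℝ) ≤ q / 3 * (k ^ 2 * D) := by
      have h1 : q / 3 * (k * q) ≤ q / 3 * ((k : ℝ) ^ 2 * D) :=
        mul_le_mul_of_nonneg_left hkD1 (by positivity)
      have h2 : 2 * q ^ 8 ≤ q / 3 * q := by
        have h3 : q ^ 8 = q ^ 2 * q ^ 6 := by ring
        have h4 : q ^ 6 ≤ 1 / 48 := (hpow 6 (by norm_num)).trans hq48
        have h5 : 0 ≤ q ^ 2 := by positivity
        nlinarith
      have h6 := mul_le_mul_of_nonneg_right h2 hk0.le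
      nlinarith
    have e3 : Real.log k + 2 ≤ q / 3 * (k ^ 2 * D) := by
      have hsk : 0 < Real.sqrt k := Real.sqrt_pos.2 hk0
      have hsq := Real.sq_sqrt hk0.le
      have h1 : Real.log k ≤ 2 * (Real.sqrt k - 1) := by
        have h2 := Real.log_le_sub_one_of_pos hsk
        have h3 : Real.log k = 2 * Real.log (Real.sqrt k) := by
          conv_lhs => rw [← hsq]
          rw [Real.log_pow]
          norm_num
        rw [h3]
        linarith
      have h4 : 6 ≤ q ^ 2 * Real.sqrt k := by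
        have h5 : (6 : ℝ) ^ 2 ≤ (q ^ 2 * Real.sqrt k) ^ 2 := by
          have : (q ^ 2 * Real.sqrt k) ^ 2 = q ^ 4 * k := by rw [mul_pow, hsq]; ring
          rw [this]
          linarith
        exact le_of_sq_le_sq h5 (by positivity)
      have h6 : q / 3 * (k * q) ≤ q / 3 * ((k : ℝ) ^ 2 * D) :=
        mul_le_mul_of_nonneg_left hkD1 (by positivity)
      have h7 : q / 3 * (k * q) = q ^ 2 * Real.sqrt k * Real.sqrt k / 3 := by
        have h8 : q ^ 2 * Real.sqrt k * Real.sqrt k = q ^ 2 * (Real.sqrt k ^ 2) := by ring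
        rw [h8, hsq]; ring
      have h9 : 6 * Real.sqrt k ≤ q ^ 2 * Real.sqrt k * Real.sqrt k :=
        mul_le_mul_of_nonneg_right h4 hsk.le
      linarith
    linarith

end Pool.Agent.N549.AB
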