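import Pool.Agent.N549.AB.Abs5

/-!
# Homogeneous hard-core gases: pair correlations (project HG, sixth round)
-/

set_option autoImplicit false

namespace Pool.Agent.N549.AB

open MeasureTheory Set Finset
open scoped ENNReal NNReal
open Pool.Agent.N549.HG (A Z C Ext Adm Nice Mn low Z_mono one_le_Z Z_le_exp meas_mul nice_A nice_Z
  nice_one nice_lint split_Z split_one Ext_swap Ext_mono Ext_add Ext_const_mul A_mono)

variable {Ω : Type} [MeasurableSpace Ω] {μ : Measure Ω} {F : Ω → Ω → ℝ≥0∞} {D : ℝ}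

/-- Few conflicts in the union of two neighbourhoods. -/
def LocP (μ : Measure Ω) (F : Ω → Ω → ℝ≥0∞) (δ D : ℝ) : Prop :=
  ∀ (v v' : Ω) (T : Set Ω), MeasurableSet T → T ⊆ Nr F v ∪ Nr F v' →
    ∫⁻ u in T, μ (T ∩ Nr F u) ∂μ ≤ ENNReal.ofReal (δ * D) * μ T

/-- The neighbourhoods of two compatible points have a small intersection. -/
def LensK (μ : Measure Ω) (F : Ω → Ω → ℝ≥0∞) (l D : ℝ) : Prop :=
  ∀ u v : Ω, F u v = 1 → μ (Nr F u ∩ Nr F v) ≤ ENNReal.ofReal (l * D)

theorem locP_of [IsProbabilityMeasure μ] (hG : Gas μ F D) {δ₀ l : ℝ} (hδ₀ : 0 ≤ δ₀) (hl : 0 ≤ l)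
    (hL : LocK μ F δ₀ D) (hl' : LensK μ F l D) : LocP μ F (δ₀ + 2 * l) D := by
  have hF := hG.adm
  have hD := hG.pos.le
  intro v v' T hT hTv
  set T₁ := T ∩ Nr F v with hT₁
  set T₂ := T \ Nr F v with hT₂
  have hNv := meas_Nr hF v
  have hm₁ : MeasurableSet T₁ := hT.inter hNv
  have hm₂ : MeasurableSet T₂ := hT.diff hNv
  have hun : T = T₁ ∪ T₂ := (Set.inter_union_sdiff T (Nr F v)).symm
  have hdisj : Disjoint T₁ T₂ := by
    rw [Set.disjoint_left]
    intro x hx hx2
    exact hx2.2 hx.2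
  have hsub₂ : T₂ ⊆ Nr F v' := by
    intro x hx
    rcases hTv hx.1 with h | h
    · exact absurd h hx.2
    · exact h
  have k1 := hL v T₁ hm₁ Set.inter_subset_right
  have k2 := hL v' T₂ hm₂ hsub₂
  have hmeas : ∀ K : Set Ω, MeasurableSet K → Measurable fun u => μ (K ∩ Nr F u) := by
    intro K hK
    have h1 : MeasurableSet {p : Ω × Ω | p.2 ∈ K ∧ F p.1 p.2 = 0} :=
      (measurable_snd hK).inter (hF.meas (measurableSet_singleton 0))
    exact measurable_measure_prodMk_left (ν := μ) h1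
  -- cross terms
  have k3 : ∫⁻ u in T₂, μ (T₁ ∩ Nr F u) ∂μ ≤ ENNReal.ofReal (l * D) * μ T₂ := by
    calc ∫⁻ u in T₂, μ (T₁ ∩ Nr F u) ∂μ ≤ ∫⁻ _u in T₂, ENNReal.ofReal (l * D) ∂μ := by
          refine setLIntegral_mono' hm₂ fun u hu => ?_
          have hFu : F u v = 1 := by
            rcases hG.zo v u with h | h
            · exact absurd h hu.2
            · rw [hF.symm]; exact h
          refine le_trans (measure_mono ?_) (hl' u v hFu)
          exact fun x hx => ⟨hx.2, hx.1.2⟩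
      _ = _ := by rw [setLIntegral_const]
  have k4 : ∫⁻ u in T₁, μ (T₂ ∩ Nr F u) ∂μ = ∫⁻ u in T₂, μ (T₁ ∩ Nr F u) ∂μ := by
    have e : ∀ K K' : Set Ω, MeasurableSet K → MeasurableSet K' →
        ∫⁻ u in K, μ (K' ∩ Nr F u) ∂μ =
        ∫⁻ u, ∫⁻ x, K.indicator 1 u * (K'.indicator 1 x * (Nr F u).indicator 1 x) ∂μ ∂μ := by
      intro K K' hK hK'
      rw [← lintegral_indicator hK]
      refine lintegral_congr fun u => ?_
      by_cases hu : u ∈ K
      · rw [Set.indicator_of_mem hu, Set.indicator_of_mem hu]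
        simp only [Pi.one_apply, one_mul]
        rw [← lintegral_indicator_one (hK'.inter (meas_Nr hF u))]
        refine lintegral_congr fun x => ?_
        by_cases h1 : x ∈ K' <;> by_cases h2 : x ∈ Nr F u <;> simp [h1, h2]
      · rw [Set.indicator_of_notMem hu, Set.indicator_of_notMem hu]
        simp
    rw [e T₁ T₂ hm₁ hm₂, e T₂ T₁ hm₂ hm₁, lintegral_lintegral_swap]
    · refine lintegral_congr fun x => lintegral_congr fun u => ?_
      have h1 : (Nr F u).indicator (1 : Ω → ℝ≥0∞) x = (Nr F x).indicator 1 u := by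
        by_cases h : x ∈ Nr F u
        · rw [Set.indicator_of_mem h, Set.indicator_of_mem ((mem_Nr_comm hF).1 h)]
          rfl
        · rw [Set.indicator_of_notMem h, Set.indicator_of_notMem fun h' =>
            h ((mem_Nr_comm hF).1 h')]
      rw [h1]
      ring
    · refine Measurable.aemeasurable ?_
      have m1 : Measurable fun p : Ω × Ω => T₁.indicator (1 : Ω → ℝ≥0∞) p.1 :=
        (measurable_one.indicator hm₁).comp measurable_fst
      have m2 : Measurable fun p : Ω × Ω => T₂.indicator (1 : Ω → ℝ≥0∞) p.2 :=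
        (measurable_one.indicator hm₂).comp measurable_snd
      have m3 : Measurable fun p : Ω × Ω => (Nr F p.1).indicator (1 : Ω → ℝ≥0∞) p.2 := by
        have h1 : MeasurableSet {p : Ω × Ω | F p.1 p.2 = 0} :=
          hF.meas (measurableSet_singleton 0)
        have h2 : (fun p : Ω × Ω => (Nr F p.1).indicator (1 : Ω → ℝ≥0∞) p.2) =
            {p : Ω × Ω | F p.1 p.2 = 0}.indicator 1 := by
          funext p
          by_cases h : F p.1 p.2 = 0
          · rw [Set.indicator_of_mem (show p.2 ∈ Nr F p.1 from h),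
              Set.indicator_of_mem (show p ∈ {p : Ω × Ω | F p.1 p.2 = 0} from h)]
            rfl
          · rw [Set.indicator_of_notMem (show p.2 ∉ Nr F p.1 from h),
              Set.indicator_of_notMem (show p ∉ {p : Ω × Ω | F p.1 p.2 = 0} from h)]
        rw [h2]
        exact measurable_one.indicator h1
      exact m1.mul (m2.mul m3)
  have hadd : ∀ u, μ (T ∩ Nr F u) = μ (T₁ ∩ Nr F u) + μ (T₂ ∩ Nr F u) := by
    intro u
    rw [← measure_union (hdisj.mono Set.inter_subset_left Set.inter_subset_left)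
      (hm₂.inter (meas_Nr hF u)), ← Set.union_inter_distrib_right, ← hun]
  have hsplit : ∫⁻ u in T, μ (T ∩ Nr F u) ∂μ =
      (∫⁻ u in T₁, μ (T ∩ Nr F u) ∂μ) + ∫⁻ u in T₂, μ (T ∩ Nr F u) ∂μ := by
    conv_lhs => rw [hun]
    rw [lintegral_union hm₂ hdisj, ← hun]
  rw [hsplit]
  simp only [hadd]
  rw [lintegral_add_left (hmeas T₁ hm₁), lintegral_add_left (hmeas T₁ hm₁), k4]
  have hμT : μ T = μ T₁ + μ T₂ := by
    conv_lhs => rw [hun]
    exact measure_union hdisj hm₂
  calc (∫⁻ u in T₁, μ (T₁ ∩ Nr F u) ∂μ) + (∫⁻ u in T₂, μ (T₁ ∩ Nr F u) ∂μ) +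
        ((∫⁻ u in T₂, μ (T₁ ∩ Nr F u) ∂μ) + ∫⁻ u in T₂, μ (T₂ ∩ Nr F u) ∂μ)
      ≤ ENNReal.ofReal (δ₀ * D) * μ T₁ + ENNReal.ofReal (l * D) * μ T₂ +
        (ENNReal.ofReal (l * D) * μ T₂ + ENNReal.ofReal (δ₀ * D) * μ T₂) := by gcongr
    _ = ENNReal.ofReal (δ₀ * D) * μ T + (ENNReal.ofReal (l * D) + ENNReal.ofReal (l * D)) *
        μ T₂ := by rw [hμT]; ring
    _ ≤ ENNReal.ofReal (δ₀ * D) * μ T + (ENNReal.ofReal (l * D) + ENNReal.ofReal (l * D)) *
        μ T := by
        gcongr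
        exact Set.sdiff_subset
    _ = ENNReal.ofReal ((δ₀ + 2 * l) * D) * μ T := by
        rw [← ENNReal.ofReal_add (by positivity) (by positivity), ← add_mul,
          ← ENNReal.ofReal_add (by positivity) (by positivity)]
        congr 2
        ring

/-- **The probability that a set contains no point.** -/
theorem low_set [IsProbabilityMeasure μ] (hG : Gas μ F D) {δ₀ : ℝ} (hδ₀ : 0 ≤ δ₀) (B : Set Ω)
    (hBm : MeasurableSet B)
    (hL : ∀ T, MeasurableSet T → T ⊆ B →
      ∫⁻ u in T, μ (T ∩ Nr F u) ∂μ ≤ ENNReal.ofReal (δ₀ * D) * μ T)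
    (lam : ℝ) (hlam : 0 < lam)
    (w w1 wB δ : ℝ) (hw : Z μ F (fun _ => ENNReal.ofReal lam) = ENNReal.ofReal w)
    (hw1 : ∀ u, Z μ F (fun y => ENNReal.ofReal lam * F u y) = ENNReal.ofReal w1)
    (hwB : Z μ F (Bᶜ.indicator fun _ => ENNReal.ofReal lam) = ENNReal.ofReal wB)
    (hw0 : 1 ≤ w) (hw10 : 0 ≤ w1) (hwB0 : 1 ≤ wB) (hδ : δ = δ₀ * (lam * D)) (hδ1 : δ ≤ 1) :
    (1 - δ) * Real.log (w / wB) ≤ lam * μ.real B * w1 / w := by
  have hF := hG.adm
  have hz := hG.zo
  have hD0 : 0 ≤ D := hG.pos.le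
  have hδ0 : 0 ≤ δ := by rw [hδ]; positivity
  set c : ℝ≥0∞ := ENNReal.ofReal lam with hc
  have hcne : c ≠ ∞ := ENNReal.ofReal_ne_top
  have hBv : μ B = ENNReal.ofReal (μ.real B) := by
    rw [measureReal_def, ENNReal.ofReal_toReal (measure_ne_top _ _)]
  have hB0 : 0 ≤ μ.real B := measureReal_nonneg
  set φ : Ω → ℝ≥0∞ := B.indicator fun _ => c with hφ
  set χ : Ω → ℝ≥0∞ := Bᶜ.indicator fun _ => c with hχ
  have hφm : Measurable φ := measurable_const.indicator hBm
  have hχm : Measurable χ := measurable_const.indicator hBm.compl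
  have hsum : ∀ y, χ y + φ y = c := by
    intro y
    by_cases hy : y ∈ B
    · rw [hχ, hφ, Set.indicator_of_mem hy, Set.indicator_of_notMem (by simpa using hy), zero_add]
    · rw [hχ, hφ, Set.indicator_of_notMem hy, Set.indicator_of_mem (by simpa using hy), add_zero]
  have hint : ∫⁻ y, φ y ∂μ = c * ENNReal.ofReal (μ.real B) := by
    rw [hφ, lintegral_indicator_const hBm, hBv]
  have hfin : ∫⁻ y, φ y ∂μ ≠ ∞ := by
    rw [hint]; exact ENNReal.mul_ne_top hcne ENNReal.ofReal_ne_top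
  set P : (Ω → ℝ≥0∞) → Prop := fun ψ => ∃ T : Set Ω, MeasurableSet T ∧ T ⊆ B ∧
    ψ = T.indicator fun _ => c with hP
  have hPF : ∀ ψ, P ψ → ∀ u, P (fun y => ψ y * F u y) := by
    rintro ψ ⟨T, hT, hTB, rfl⟩ u
    exact ⟨T \ Nr F u, hT.diff (meas_Nr hF u), fun y hy => hTB hy.1, mul_F hz T c u⟩
  have hPm : ∀ ψ, P ψ → Measurable ψ := by
    rintro ψ ⟨T, hT, _, rfl⟩
    exact measurable_const.indicator hT
  have hPle : ∀ ψ, P ψ → ∀ y, ψ y ≤ φ y := by
    rintro ψ ⟨T, _, hTB, rfl⟩ y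
    exact Set.indicator_le_indicator_of_subset hTB (fun _ => by simp) y
  have hloc : ∀ ψ, P ψ → ∫⁻ u, ψ u * ∫⁻ y, ψ y * (1 - F u y) ∂μ ∂μ ≤
      ENNReal.ofReal δ * ∫⁻ y, ψ y ∂μ := by
    rintro ψ ⟨T, hT, hTB, rfl⟩
    have h1 := hL T hT hTB
    have h2 : ∀ u : Ω, ∫⁻ y, T.indicator (fun _ => c) y * (1 - F u y) ∂μ =
        c * μ (T ∩ Nr F u) := by
      intro u
      have h3 : (fun y => T.indicator (fun _ => c) y * (1 - F u y)) =
          (T ∩ Nr F u).indicator fun _ => c := by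
        have h4 := one_sub_F hz u
        funext y
        rw [congrFun h4 y]
        by_cases hyT : y ∈ T <;> by_cases hyN : y ∈ Nr F u <;>
          simp [hyT, hyN]
      rw [h3, lintegral_indicator_const (hT.inter (meas_Nr hF u))]
    have h5 : ∫⁻ u, T.indicator (fun _ => c) u *
          ∫⁻ y, T.indicator (fun _ => c) y * (1 - F u y) ∂μ ∂μ =
        c * (c * ∫⁻ u in T, μ (T ∩ Nr F u) ∂μ) := by
      simp only [h2]
      rw [← lintegral_const_mul' _ _ hcne, ← lintegral_const_mul' _ _ hcne,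
        ← lintegral_indicator hT]
      refine lintegral_congr fun u => ?_
      by_cases hu : u ∈ T <;> simp [hu]
    rw [h5, lintegral_indicator_const hT]
    calc c * (c * ∫⁻ u in T, μ (T ∩ Nr F u) ∂μ)
        ≤ c * (c * (ENNReal.ofReal (δ₀ * D) * μ T)) := by
          gcongr
      _ = ENNReal.ofReal δ * (c * μ T) := by
          rw [hδ, show δ₀ * (lam * D) = lam * (δ₀ * D) by ring, ENNReal.ofReal_mul hlam.le, ← hc]
          ring
  have hsum' : (fun y => χ y + φ y) = fun _ => c := funext hsum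
  have hE : ∫⁻ u, φ u * Z μ F (fun y => (χ y + φ y) * F u y) ∂μ =
      ENNReal.ofReal (lam * μ.real B * w1) := by
    simp only [hsum, hw1]
    rw [lintegral_mul_const _ hφm, hint, hc, ← ENNReal.ofReal_mul hlam.le,
      ← ENNReal.ofReal_mul (by positivity)]
  have hkey : ∀ q : ℝ, 0 ≤ q → ∃ N : ℝ, 0 ≤ N ∧ N ≤ lam * μ.real B * w1 + δ * N ∧
      Real.exp (-q) * (1 + q) * w ≤ wB + Real.exp (-q) * N := by
    intro q hq
    obtain ⟨N, h1, h2, h3⟩ := low (μ := μ) hF hχm P hPF hPm ⟨B, hBm, le_rfl, rfl⟩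
      (ENNReal.ofReal δ) hloc hfin hPle q hq
    rw [hE] at h1
    rw [hsum', hw, hwB] at h2
    rw [hsum', hw, hint] at h3
    have hN : N ≠ ∞ := (h3.trans_lt (ENNReal.mul_lt_top (ENNReal.mul_lt_top
      (lt_top_iff_ne_top.2 hcne) ENNReal.ofReal_lt_top) ENNReal.ofReal_lt_top)).ne
    refine ⟨N.toReal, ENNReal.toReal_nonneg, ?_, ?_⟩
    · rw [← ENNReal.ofReal_toReal hN, ← ENNReal.ofReal_mul hδ0,
        ← ENNReal.ofReal_add (by positivity) (by positivity)] at h1
      exact (ENNReal.ofReal_le_ofReal_iff (by positivity)).1 h1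
    · rw [← ENNReal.ofReal_toReal hN, ← ENNReal.ofReal_mul (by positivity),
        ← ENNReal.ofReal_mul (by positivity), ← ENNReal.ofReal_add (by positivity)
        (by positivity)] at h2
      exact (ENNReal.ofReal_le_ofReal_iff (by positivity)).1 h2
  have hwB' : wB ≤ w := by
    have h1 : Z μ F χ ≤ Z μ F (fun _ => c) :=
      Z_mono fun y => by rw [← hsum y]; exact le_self_add
    rw [hw, hwB] at h1
    exact (ENNReal.ofReal_le_ofReal_iff (by linarith)).1 h1
  have hq0 : 0 ≤ Real.log (w / wB) := Real.log_nonneg (by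
    rw [le_div_iff₀ (by linarith)]; linarith)
  obtain ⟨N, hN0, h1, h2⟩ := hkey _ hq0
  have hexp : Real.exp (-Real.log (w / wB)) = wB / w := by
    rw [← Real.log_inv, Real.exp_log (by positivity), inv_div]
  rw [hexp] at h2
  have hwpos : 0 < w := by linarith
  have hwBpos : 0 < wB := by linarith
  have h3 : w * Real.log (w / wB) ≤ N := by
    have h4 : wB / w * (1 + Real.log (w / wB)) * w = wB * (1 + Real.log (w / wB)) := by
      field_simp
    rw [h4] at h2
    have h5 : wB * Real.log (w / wB) ≤ wB / w * N := by linarith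
    have h6 : wB * (w * Real.log (w / wB)) ≤ wB * N := by
      have := mul_le_mul_of_nonneg_right h5 hwpos.le
      calc wB * (w * Real.log (w / wB)) = wB * Real.log (w / wB) * w := by ring
        _ ≤ wB / w * N * w := this
        _ = wB * N := by field_simp
    exact le_of_mul_le_mul_left h6 hwBpos
  rw [le_div_iff₀ hwpos]
  calc (1 - δ) * Real.log (w / wB) * w = (1 - δ) * (w * Real.log (w / wB)) := by ring
    _ ≤ (1 - δ) * N := mul_le_mul_of_nonneg_left h3 (by linarith)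
    _ ≤ lam * μ.real B * w1 := by linarith

end Pool.Agent.N549.AB
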