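import Pool.Agent.N549.AB.Cor

/-!
# Homogeneous hard-core gases: the upper bound for pair correlations (project HG, sixth round)
-/

set_option autoImplicit false

namespace Pool.Agent.N549.AB

open MeasureTheory Set Finset
open scoped ENNReal NNReal
open Pool.Agent.N549.HG (A Z C Ext Adm Nice Mn low Z_mono one_le_Z Z_le_exp meas_mul nice_A nice_Z
  nice_one nice_lint split_Z split_one Ext_swap Ext_mono Ext_add Ext_const_mul A_mono tsum_pow_fac
  fac_ne fac_top)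

variable {Ω : Type} [MeasurableSpace Ω] {μ : Measure Ω} {F : Ω → Ω → ℝ≥0∞} {D : ℝ}

/-! ### The inner gas -/

theorem bern (a b : ℝ≥0∞) (m : ℕ) : (a + b) ^ (m + 1) ≤ a ^ (m + 1) + (m + 1) * (a + b) ^ m * b := by
  induction m with
  | zero => simp
  | succ m ih =>
    calc (a + b) ^ (m + 1 + 1) = (a + b) ^ (m + 1) * (a + b) := pow_succ _ _
      _ = (a + b) ^ (m + 1) * a + (a + b) ^ (m + 1) * b := by rw [mul_add]
      _ ≤ (a ^ (m + 1) + (m + 1) * (a + b) ^ m * b) * a + (a + b) ^ (m + 1) * b := by gcongr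
      _ = a ^ (m + 1 + 1) + (m + 1) * ((a + b) ^ m * a) * b + (a + b) ^ (m + 1) * b := by ring
      _ ≤ a ^ (m + 1 + 1) + (m + 1) * ((a + b) ^ m * (a + b)) * b + (a + b) ^ (m + 1) * b := by
          gcongr
          exact le_self_add
      _ = a ^ (m + 1 + 1) + ((m + 1 : ℕ) + 1) * (a + b) ^ (m + 1) * b := by
          push_cast
          ring

/-- the weight of the conflicts -/
noncomputable def Jc (μ : Measure Ω) (F : Ω → Ω → ℝ≥0∞) (ψ : Ω → ℝ≥0∞) : ℝ≥0∞ :=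
  ∫⁻ u, ψ u * ∫⁻ y, ψ y * (1 - F u y) ∂μ ∂μ

theorem Jc_mono {ψ ψ' : Ω → ℝ≥0∞} (h : ∀ y, ψ y ≤ ψ' y) : Jc μ F ψ ≤ Jc μ F ψ' :=
  lintegral_mono fun u => mul_le_mul' (h u) (lintegral_mono fun y => mul_le_mul' (h y) le_rfl)

theorem lint_split [SFinite μ] (hF : Adm F) {ψ : Ω → ℝ≥0∞} (hψ : Measurable ψ) (u : Ω) :
    (∫⁻ y, ψ y * F u y ∂μ) + ∫⁻ y, ψ y * (1 - F u y) ∂μ = ∫⁻ y, ψ y ∂μ := by
  rw [← lintegral_add_left (meas_mul hF hψ u)]
  refine lintegral_congr fun y => ?_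
  rw [← mul_add, add_tsub_cancel_of_le (hF.le_one u y), mul_one]

theorem A_low [SFinite μ] (hF : Adm F) (k : ℕ) (ψ : Ω → ℝ≥0∞) (hψ : Measurable ψ)
    (hfin : ∫⁻ y, ψ y ∂μ ≠ ∞) :
    2 * (∫⁻ y, ψ y ∂μ) ^ (k + 2) ≤
      2 * A μ F (k + 2) ψ + ((k : ℝ≥0∞) + 2) * (k + 1) * (∫⁻ y, ψ y ∂μ) ^ k * Jc μ F ψ := by
  have hm1 : Measurable fun u => ∫⁻ y, ψ y * (1 - F u y) ∂μ := by
    have h1 : Measurable (Function.uncurry fun (u : Ω) (y : Ω) => ψ y * (1 - F u y)) :=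
      (hψ.comp measurable_snd).mul (measurable_const.sub hF.meas)
    exact h1.lintegral_prod_right'
  induction k generalizing ψ with
  | zero =>
    have h1 : (∫⁻ y, ψ y ∂μ) ^ 2 = A μ F 2 ψ + Jc μ F ψ := by
      have h2 : A μ F 2 ψ = ∫⁻ u, ψ u * ∫⁻ y, ψ y * F u y ∂μ ∂μ := by simp [A]
      have h3 : Measurable fun u => ψ u * ∫⁻ y, ψ y * F u y ∂μ := by
        have h1 : Measurable (Function.uncurry fun (u : Ω) (y : Ω) => ψ y * F u y) :=
          (hψ.comp measurable_snd).mul hF.meas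
        exact hψ.mul h1.lintegral_prod_right'
      rw [h2, Jc, ← lintegral_add_left h3, sq, ← lintegral_mul_const _ hψ]
      refine lintegral_congr fun u => ?_
      rw [← mul_add, lint_split hF hψ u]
    simp only [Nat.cast_zero, zero_add, pow_zero, mul_one]
    rw [h1, mul_add]
  | succ k ih =>
    set t := ∫⁻ y, ψ y ∂μ with ht
    set J := Jc μ F ψ with hJ
    have hu : ∀ u, 2 * t ^ (k + 2) ≤ 2 * A μ F (k + 2) (fun y => ψ y * F u y) +
        (((k : ℝ≥0∞) + 2) * (k + 1) * t ^ k * J +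
          2 * ((k : ℝ≥0∞) + 2) * t ^ (k + 1) * ∫⁻ y, ψ y * (1 - F u y) ∂μ) := by
      intro u
      have hψu : Measurable fun y => ψ y * F u y := meas_mul hF hψ u
      have hle : ∀ y, ψ y * F u y ≤ ψ y := fun y => mul_le_of_le_one_right (by simp) (hF.le_one u y)
      have hmu : Measurable fun u' => ∫⁻ y, (ψ y * F u y) * (1 - F u' y) ∂μ := by
        have h1 : Measurable (Function.uncurry fun (u' : Ω) (y : Ω) =>
            (ψ y * F u y) * (1 - F u' y)) :=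
          (hψu.comp measurable_snd).mul (measurable_const.sub hF.meas)
        exact h1.lintegral_prod_right'
      have h1 := ih (fun y => ψ y * F u y) hψu
        ((lintegral_mono hle).trans_lt (lt_top_iff_ne_top.2 hfin)).ne hmu
      set tu := ∫⁻ y, ψ y * F u y ∂μ with htu
      set ju := ∫⁻ y, ψ y * (1 - F u y) ∂μ with hju
      have hsp : tu + ju = t := lint_split hF hψ u
      have htle : tu ≤ t := by rw [← hsp]; exact le_self_add
      have h2 := bern tu ju (k + 1)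
      rw [hsp] at h2
      calc 2 * t ^ (k + 2) ≤ 2 * (tu ^ (k + 1 + 1) + (((k + 1 : ℕ) : ℝ≥0∞) + 1) * t ^ (k + 1) * ju) :=
            mul_le_mul' le_rfl h2
        _ = 2 * tu ^ (k + 2) + 2 * ((k : ℝ≥0∞) + 2) * t ^ (k + 1) * ju := by
            push_cast
            ring
        _ ≤ (2 * A μ F (k + 2) (fun y => ψ y * F u y) + ((k : ℝ≥0∞) + 2) * (k + 1) * tu ^ k *
              Jc μ F (fun y => ψ y * F u y)) + 2 * ((k : ℝ≥0∞) + 2) * t ^ (k + 1) * ju := by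
            gcongr
        _ ≤ (2 * A μ F (k + 2) (fun y => ψ y * F u y) + ((k : ℝ≥0∞) + 2) * (k + 1) * t ^ k * J) +
              2 * ((k : ℝ≥0∞) + 2) * t ^ (k + 1) * ju := by
            gcongr
            exact Jc_mono hle
        _ = _ := by ring
    have hmA : Measurable fun u => ψ u * A μ F (k + 2) (fun y => ψ y * F u y) :=
      hψ.mul ((nice_A (μ := μ) hF (k + 2)).meas hF hψ)
    have hmJ : Measurable fun u => ψ u * ∫⁻ y, ψ y * (1 - F u y) ∂μ := hψ.mul hm1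
    have h3 : ∫⁻ u, ψ u * (2 * t ^ (k + 2)) ∂μ ≤ ∫⁻ u, (2 * (ψ u *
        A μ F (k + 2) (fun y => ψ y * F u y)) +
        ((((k : ℝ≥0∞) + 2) * (k + 1) * t ^ k * J) * ψ u +
          (2 * ((k : ℝ≥0∞) + 2) * t ^ (k + 1)) * (ψ u * ∫⁻ y, ψ y * (1 - F u y) ∂μ))) ∂μ := by
      refine lintegral_mono fun u => ?_
      refine (mul_le_mul' le_rfl (hu u)).trans (le_of_eq ?_)
      ring
    rw [lintegral_mul_const _ hψ, lintegral_add_left (hmA.const_mul 2),
      lintegral_add_left (hψ.const_mul _), lintegral_const_mul _ hmA, lintegral_const_mul _ hψ,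
      lintegral_const_mul _ hmJ] at h3
    have h4 : A μ F (k + 1 + 2) ψ = ∫⁻ u, ψ u * A μ F (k + 2) (fun y => ψ y * F u y) ∂μ := rfl
    rw [h4]
    have h5 : ∫⁻ u, ψ u * ∫⁻ y, ψ y * (1 - F u y) ∂μ ∂μ = J := rfl
    rw [h5, ← ht] at h3
    calc 2 * t ^ (k + 1 + 2) = t * (2 * t ^ (k + 2)) := by ring
      _ ≤ _ := h3
      _ = _ := by push_cast; ring

/-- **The partition function of a small inner gas.** -/
theorem Z_low [SFinite μ] (hF : Adm F) (ψ : Ω → ℝ≥0∞) (hψ : Measurable ψ) (m δ : ℝ) (hm : 0 ≤ m)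
    (hψm : ∫⁻ y, ψ y ∂μ = ENNReal.ofReal m) (hδ : 0 ≤ δ)
    (hJ : Jc μ F ψ ≤ ENNReal.ofReal (2 * δ)) :
    ENNReal.ofReal ((1 - δ) * Real.exp m) ≤ Z μ F ψ := by
  have hfin : ∫⁻ y, ψ y ∂μ ≠ ∞ := by rw [hψm]; exact ENNReal.ofReal_ne_top
  have hE := tsum_pow_fac m hm
  -- the series without its first two terms
  have h1 : ∀ f : ℕ → ℝ≥0∞, ∑' k, f k = f 0 + (f 1 + ∑' k, f (k + 2)) := by
    intro f
    rw [tsum_eq_zero_add' ENNReal.summable, tsum_eq_zero_add' (f := fun k => f (k + 1))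
      ENNReal.summable]
  have key : ENNReal.ofReal (Real.exp m) ≤ Z μ F ψ + ENNReal.ofReal (δ * Real.exp m) := by
    rw [← hE, ← hψm]
    unfold Z
    rw [h1 (fun k => (∫⁻ y, ψ y ∂μ) ^ k / (k.factorial : ℝ≥0∞)),
      h1 (fun k => A μ F k ψ / (k.factorial : ℝ≥0∞))]
    have h2 : A μ F 1 ψ = ∫⁻ y, ψ y ∂μ := by simp [A]
    have h3 : ∀ k : ℕ, (∫⁻ y, ψ y ∂μ) ^ (k + 2) / ((k + 2).factorial : ℝ≥0∞) ≤
        A μ F (k + 2) ψ / ((k + 2).factorial : ℝ≥0∞) +
          ENNReal.ofReal δ * ((∫⁻ y, ψ y ∂μ) ^ k / (k.factorial : ℝ≥0∞)) := by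
      intro k
      have h4 := A_low hF k ψ hψ hfin
      have h5 : 2 * (∫⁻ y, ψ y ∂μ) ^ (k + 2) ≤ 2 * (A μ F (k + 2) ψ +
          ((k : ℝ≥0∞) + 2) * (k + 1) * (∫⁻ y, ψ y ∂μ) ^ k * ENNReal.ofReal δ) := by
        have h6 : ENNReal.ofReal (2 * δ) = 2 * ENNReal.ofReal δ := by
          rw [ENNReal.ofReal_mul (by norm_num)]
          norm_num
        rw [h6] at hJ
        calc 2 * (∫⁻ y, ψ y ∂μ) ^ (k + 2) ≤ 2 * A μ F (k + 2) ψ +
              ((k : ℝ≥0∞) + 2) * (k + 1) * (∫⁻ y, ψ y ∂μ) ^ k * Jc μ F ψ := h4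
          _ ≤ 2 * A μ F (k + 2) ψ +
              ((k : ℝ≥0∞) + 2) * (k + 1) * (∫⁻ y, ψ y ∂μ) ^ k * (2 * ENNReal.ofReal δ) := by
              gcongr
          _ = _ := by ring
      have h7 : (∫⁻ y, ψ y ∂μ) ^ (k + 2) ≤ A μ F (k + 2) ψ +
          ((k : ℝ≥0∞) + 2) * (k + 1) * (∫⁻ y, ψ y ∂μ) ^ k * ENNReal.ofReal δ :=
        (ENNReal.mul_le_mul_iff_right (by norm_num) (by norm_num)).1 h5
      refine (ENNReal.div_le_div_right h7 _).trans (le_of_eq ?_)
      rw [ENNReal.add_div]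
      congr 1
      have h8 : ((k + 2).factorial : ℝ≥0∞) = ((k : ℝ≥0∞) + 2) * (k + 1) * (k.factorial : ℝ≥0∞) := by
        rw [Nat.factorial_succ, Nat.factorial_succ]
        push_cast
        ring
      have h9 : ((k : ℝ≥0∞) + 2) * (k + 1) ≠ 0 := by positivity
      have h10 : ((k : ℝ≥0∞) + 2) * (k + 1) ≠ ∞ := by
        refine ENNReal.mul_ne_top ?_ ?_ <;> simp
      rw [h8, mul_assoc (((k : ℝ≥0∞) + 2) * (k + 1)), ENNReal.mul_div_mul_left _ _ h9 h10,
        mul_comm (ENNReal.ofReal δ), ENNReal.div_eq_inv_mul, ENNReal.div_eq_inv_mul]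
      ring
    have h4 : ∑' k : ℕ, (∫⁻ y, ψ y ∂μ) ^ (k + 2) / ((k + 2).factorial : ℝ≥0∞) ≤
        (∑' k : ℕ, A μ F (k + 2) ψ / ((k + 2).factorial : ℝ≥0∞)) +
          ENNReal.ofReal (δ * Real.exp m) := by
      refine (ENNReal.tsum_le_tsum h3).trans (le_of_eq ?_)
      rw [ENNReal.tsum_add, ENNReal.tsum_mul_left, hψm, hE, ← ENNReal.ofReal_mul hδ]
    calc (∫⁻ y, ψ y ∂μ) ^ 0 / ((0 : ℕ).factorial : ℝ≥0∞) + ((∫⁻ y, ψ y ∂μ) ^ 1 /
          ((1 : ℕ).factorial : ℝ≥0∞) + ∑' k : ℕ, (∫⁻ y, ψ y ∂μ) ^ (k + 2) /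
            ((k + 2).factorial : ℝ≥0∞))
        ≤ A μ F 0 ψ / ((0 : ℕ).factorial : ℝ≥0∞) + (A μ F 1 ψ / ((1 : ℕ).factorial : ℝ≥0∞) +
          ((∑' k : ℕ, A μ F (k + 2) ψ / ((k + 2).factorial : ℝ≥0∞)) +
          ENNReal.ofReal (δ * Real.exp m))) := by
          rw [h2, pow_one]
          refine add_le_add ?_ (add_le_add le_rfl h4)
          simp [A]
      _ = _ := by ring
  by_cases hZ : Z μ F ψ = ∞
  · rw [hZ]; exact le_top
  rw [← ENNReal.ofReal_toReal hZ] at key ⊢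
  rw [← ENNReal.ofReal_add ENNReal.toReal_nonneg (by positivity)] at key
  have h5 := (ENNReal.ofReal_le_ofReal_iff (by positivity)).1 key
  exact ENNReal.ofReal_le_ofReal (by linarith)

/-! ### Outer configurations -/

theorem C_mono_left {Ψ : (Ω → ℝ≥0∞) → ℝ≥0∞} (j : ℕ) {χ χ' : Ω → ℝ≥0∞} (h : ∀ y, χ y ≤ χ' y)
    (φ : Ω → ℝ≥0∞) : C μ F Ψ j χ φ ≤ C μ F Ψ j χ' φ := by
  induction j generalizing χ χ' φ with
  | zero => exact le_rfl
  | succ j ih =>
    simp only [C]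
    exact lintegral_mono fun u => mul_le_mul' (h u) (ih (fun y => mul_le_mul' (h y) le_rfl) _)

theorem Ext_mono_left {Ψ : (Ω → ℝ≥0∞) → ℝ≥0∞} {χ χ' : Ω → ℝ≥0∞} (h : ∀ y, χ y ≤ χ' y)
    (φ : Ω → ℝ≥0∞) : Ext μ F Ψ χ φ ≤ Ext μ F Ψ χ' φ :=
  ENNReal.tsum_le_tsum fun j => ENNReal.div_le_div_right (C_mono_left j h φ) _

theorem C_shift {Ψ : (Ω → ℝ≥0∞) → ℝ≥0∞} (x : Ω) (j : ℕ) (χ φ : Ω → ℝ≥0∞) :
    C μ F (fun ψ => Ψ (fun y => ψ y * F x y)) j χ φ = C μ F Ψ j χ (fun y => φ y * F x y) := by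
  induction j generalizing χ φ with
  | zero => rfl
  | succ j ih =>
    simp only [C]
    refine lintegral_congr fun u => ?_
    rw [ih]
    congr 2
    funext y
    ring

theorem Ext_shift {Ψ : (Ω → ℝ≥0∞) → ℝ≥0∞} (x : Ω) (χ φ : Ω → ℝ≥0∞) :
    Ext μ F (fun ψ => Ψ (fun y => ψ y * F x y)) χ φ = Ext μ F Ψ χ (fun y => φ y * F x y) := by
  unfold Pool.Agent.N549.HG.Ext
  exact tsum_congr fun j => by rw [C_shift]

/-! ### Functions of the free volume -/

/-- the exponential of the free volume -/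
noncomputable def gE (a : ℝ≥0∞) : ℝ≥0∞ := ENNReal.ofReal (Real.exp a.toReal)

/-- the convexity defect -/
noncomputable def gP (s : ℝ) (a : ℝ≥0∞) : ℝ≥0∞ :=
  ENNReal.ofReal (Real.exp (a.toReal - s) - 1 - (a.toReal - s))

theorem gE_meas : Measurable gE := (Real.measurable_exp.comp ENNReal.measurable_toReal).ennreal_ofReal

theorem gP_meas (s : ℝ) : Measurable (gP s) := by
  unfold gP
  refine Measurable.ennreal_ofReal ?_
  have h1 : Measurable fun a : ℝ≥0∞ => a.toReal - s := ENNReal.measurable_toReal.sub_const s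
  exact ((Real.measurable_exp.comp h1).sub_const 1).sub h1

theorem nice_comp [SFinite μ] {g : ℝ≥0∞ → ℝ≥0∞} (hg : Measurable g) :
    Nice (Ω := Ω) (fun ψ => g (∫⁻ y, ψ y ∂μ)) := fun Θ _ ψ hψ =>
  hg.comp (nice_lint (μ := μ) Θ ψ hψ)

theorem phi_nonneg (v : ℝ) : 0 ≤ Real.exp v - 1 - v := by
  have := Real.add_one_le_exp v
  linarith

/-- the convexity defect controls small values -/
theorem phi_low (h v : ℝ) (hh : 0 < h) (hh1 : h ≤ 1) :
    1 - h ≤ Real.exp v + 3 / h ^ 2 * (Real.exp v - 1 - v) := by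
  have h0 := phi_nonneg v
  have h1 : 0 ≤ 3 / h ^ 2 * (Real.exp v - 1 - v) := by positivity
  rcases le_or_gt (-h) v with hv | hv
  · have h2 := Real.add_one_le_exp v
    linarith
  · have h2 : 1 / 3 * h ^ 2 ≤ Real.exp v - 1 - v := by
      -- the defect decreases on the negative axis
      have h3 : Real.exp (-h) - 1 + h ≤ Real.exp v - 1 - v := by
        have h4 := Real.add_one_le_exp (v + h)
        have h5 : Real.exp v = Real.exp (-h) * Real.exp (v + h) := by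
          rw [← Real.exp_add]; congr 1; ring
        have h6 : Real.exp (-h) ≤ 1 := Real.exp_le_one_iff.2 (by linarith)
        have h7 : Real.exp (-h) * (v + h + 1) ≤ Real.exp v := by
          rw [h5]
          exact mul_le_mul_of_nonneg_left h4 (Real.exp_pos _).le
        have h8 : 0 ≤ (1 - Real.exp (-h)) * (-(v + h)) :=
          mul_nonneg (by linarith) (by linarith)
        nlinarith
      have h9 : 1 - h + h ^ 2 / 3 ≤ Real.exp (-h) := by
        have h11 : Real.exp (-h) = 1 / Real.exp h := by rw [Real.exp_neg, one_div]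
        have h13 : Real.exp h ≤ 1 + h + h ^ 2 / 2 + h ^ 3 / 6 + 5 * h ^ 4 / 96 := by
          have h14 := Real.exp_bound' hh.le hh1 (n := 4) (by norm_num)
          refine h14.trans (le_of_eq ?_)
          simp only [Finset.sum_range_succ, Finset.sum_range_zero, Nat.factorial]
          norm_num
          ring
        rw [h11, le_div_iff₀ (Real.exp_pos h)]
        have h15 : 0 ≤ 1 - h + h ^ 2 / 3 := by nlinarith [pow_pos hh 2]
        have h17 : h ^ 4 ≤ h ^ 2 := pow_le_pow_of_le_one hh.le hh1 (by norm_num)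
        have h18 : h ^ 5 ≤ h ^ 2 := pow_le_pow_of_le_one hh.le hh1 (by norm_num)
        have h19 : h ^ 6 ≤ h ^ 2 := pow_le_pow_of_le_one hh.le hh1 (by norm_num)
        have h20 : 0 < h ^ 2 := by positivity
        calc (1 - h + h ^ 2 / 3) * Real.exp h
            ≤ (1 - h + h ^ 2 / 3) * (1 + h + h ^ 2 / 2 + h ^ 3 / 6 + 5 * h ^ 4 / 96) :=
              mul_le_mul_of_nonneg_left h13 h15
          _ = 1 - h ^ 2 / 6 + 5 * h ^ 4 / 96 + h ^ 5 / 288 + 5 * h ^ 6 / 288 := by ring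
          _ ≤ 1 := by linarith
      linarith
    have h3 : 1 ≤ 3 / h ^ 2 * (Real.exp v - 1 - v) := by
      rw [div_mul_eq_mul_div, le_div_iff₀ (by positivity)]
      linarith
    have h4 := Real.exp_pos v
    linarith

end Pool.Agent.N549.AB
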