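import Pool.Agent.N549.AB.Cor2

/-!
# Homogeneous hard-core gases: the upper bound for pair correlations (project HG, sixth round)
-/

set_option autoImplicit false

namespace Pool.Agent.N549.AB

open MeasureTheory Set Finset
open scoped ENNReal NNReal
open Pool.Agent.N549.HG (A Z C Adm Nice Mn low Z_mono one_le_Z Z_le_exp meas_mul nice_A nice_Z
  nice_one nice_lint split_Z split_one Ext_swap Ext_mono Ext_add Ext_const_mul A_mono tsum_pow_fac
  fac_ne fac_top)

variable {Ω : Type} [MeasurableSpace Ω] {μ : Measure Ω} {F : Ω → Ω → ℝ≥0∞} {D : ℝ}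

/-- **The upper bound for the two point function.** -/
theorem cor_up [IsProbabilityMeasure μ] (hG : Gas μ F D) {δ₀ l : ℝ} (hδ₀ : 0 ≤ δ₀)
    (hl : 0 ≤ l) (hL : LocK μ F δ₀ D) (hle : LensK μ F l D) (v x : Ω) (hvx : F v x = 1)
    (lam s h δ w w1 w2 m2 : ℝ) (hlam : 0 < lam) (hs : 0 < s) (hh : 0 < h) (hh1 : h ≤ 1)
    (hw : Z μ F (fun _ => ENNReal.ofReal lam) = ENNReal.ofReal w) (hw0 : 0 ≤ w)
    (hw1 : ∀ u, Z μ F (fun y => ENNReal.ofReal lam * F u y) = ENNReal.ofReal w1) (hw10 : 0 ≤ w1)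
    (hw2 : Z μ F (fun y => ENNReal.ofReal lam * (F v y * F x y)) = ENNReal.ofReal w2)
    (hw20 : 0 ≤ w2)
    (hm2 : ∀ u, ENNReal.ofReal m2 ≤ Z μ F (fun y => ENNReal.ofReal lam * (F v y * F u y)))
    (hm20 : 0 ≤ m2) (hδ : δ₀ * (lam * D) ^ 2 / 2 ≤ δ) (hδ1 : δ < 1) :
    (1 - h) * Real.exp s * w2 ≤ w1 * Real.exp (lam * (l * D)) / (1 - δ) +
      3 * Real.exp s / h ^ 2 *
        (Real.exp (-s) * w / (1 - δ) + (s - 1) * w1 - lam * D * m2) := by
  have hF := hG.adm
  have hz := hG.zo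
  have hD0 : 0 ≤ D := hG.pos.le
  have hδpos : 0 ≤ δ := le_trans (by positivity) hδ
  have h1δ : 0 < 1 - δ := by linarith
  set c : ℝ≥0∞ := ENNReal.ofReal lam with hc
  have hcne : c ≠ ∞ := ENNReal.ofReal_ne_top
  set B : Set Ω := Nr F v with hB
  have hBm : MeasurableSet B := meas_Nr hF v
  have hBv : μ B = ENNReal.ofReal D := hG.vol v
  have hFv : Measurable fun y => F v y := hF.meas.comp (measurable_const.prodMk measurable_id)
  have hFx : Measurable fun y => F x y := hF.meas.comp (measurable_const.prodMk measurable_id)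
  set φ : Ω → ℝ≥0∞ := B.indicator fun _ => c with hφ
  set χ : Ω → ℝ≥0∞ := fun y => c * F v y with hχ
  set χ' : Ω → ℝ≥0∞ := fun y => χ y * F x y with hχ'
  have hφm : Measurable φ := measurable_const.indicator hBm
  have hχm : Measurable χ := hFv.const_mul c
  have hχ'm : Measurable χ' := hχm.mul hFx
  have hsum : ∀ y, χ y + φ y = c := by
    intro y
    rcases hz v y with h0 | h0
    · rw [hχ, hφ, Set.indicator_of_mem (show y ∈ B from h0)]
      show c * F v y + c = c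
      rw [h0, mul_zero, zero_add]
    · rw [hχ, hφ, Set.indicator_of_notMem (show y ∉ B from fun h' => by
        rw [show F v y = 0 from h'] at h0; exact zero_ne_one h0)]
      show c * F v y + 0 = c
      rw [h0, mul_one, add_zero]
  set P : (Ω → ℝ≥0∞) → Prop := fun ψ => ∃ T : Set Ω, MeasurableSet T ∧ T ⊆ B ∧
    ψ = T.indicator fun _ => c with hP
  have hPF : ∀ ψ, P ψ → ∀ u, P (fun y => ψ y * F u y) := by
    rintro ψ ⟨T, hT, hTB, rfl⟩ u
    exact ⟨T \ Nr F u, hT.diff (meas_Nr hF u), fun y hy => hTB hy.1, mul_F hz T c u⟩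
  have hPφ : P φ := ⟨B, hBm, le_rfl, rfl⟩
  have hint : ∀ T : Set Ω, MeasurableSet T →
      ∫⁻ y, T.indicator (fun _ => c) y ∂μ = ENNReal.ofReal (lam * μ.real T) := by
    intro T hT
    rw [lintegral_indicator_const hT, ENNReal.ofReal_mul hlam.le, measureReal_def,
      ENNReal.ofReal_toReal (measure_ne_top _ _)]
  -- the conflicts
  have hJ : ∀ T : Set Ω, MeasurableSet T → T ⊆ B →
      Jc μ F (T.indicator fun _ => c) ≤ ENNReal.ofReal (2 * δ) := by
    intro T hT hTB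
    have h1 := hL v T hT hTB
    have h2 : ∀ u : Ω, ∫⁻ y, T.indicator (fun _ => c) y * (1 - F u y) ∂μ =
        c * μ (T ∩ Nr F u) := by
      intro u
      have h3 : (fun y => T.indicator (fun _ => c) y * (1 - F u y)) =
          (T ∩ Nr F u).indicator fun _ => c := by
        have h4 := one_sub_F hz u
        funext y
        rw [congrFun h4 y]
        by_cases hyT : y ∈ T <;> by_cases hyN : y ∈ Nr F u <;>
          simp [hyT, hyN]
      rw [h3, lintegral_indicator_const (hT.inter (meas_Nr hF u))]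
    unfold Jc
    simp only [h2]
    have h5 : ∫⁻ u, T.indicator (fun _ => c) u * (c * μ (T ∩ Nr F u)) ∂μ =
        c * (c * ∫⁻ u in T, μ (T ∩ Nr F u) ∂μ) := by
      rw [← lintegral_const_mul' _ _ hcne, ← lintegral_const_mul' _ _ hcne,
        ← lintegral_indicator hT]
      refine lintegral_congr fun u => ?_
      by_cases hu : u ∈ T <;> simp [hu]
    rw [h5]
    calc c * (c * ∫⁻ u in T, μ (T ∩ Nr F u) ∂μ)
        ≤ c * (c * (ENNReal.ofReal (δ₀ * D) * μ B)) := by
          gcongr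
          exact h1.trans (mul_le_mul' le_rfl (measure_mono hTB))
      _ = ENNReal.ofReal (δ₀ * (lam * D) ^ 2) := by
          rw [hBv, hc, ← ENNReal.ofReal_mul (by positivity), ← ENNReal.ofReal_mul hlam.le,
            ← ENNReal.ofReal_mul hlam.le]
          congr 1
          ring
      _ ≤ ENNReal.ofReal (2 * δ) := ENNReal.ofReal_le_ofReal (by linarith)
  have hZT : ∀ T : Set Ω, MeasurableSet T → T ⊆ B →
      ENNReal.ofReal ((1 - δ) * Real.exp (lam * μ.real T)) ≤
        Z μ F (T.indicator fun _ => c) := by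
    intro T hT hTB
    exact Z_low hF _ (measurable_const.indicator hT) (lam * μ.real T) δ
      (mul_nonneg hlam.le measureReal_nonneg) (hint T hT) hδpos (hJ T hT hTB)
  have hgE : ∀ m : ℝ, 0 ≤ m → gE (ENNReal.ofReal m) = ENNReal.ofReal (Real.exp m) := by
    intro m hm
    unfold gE
    rw [ENNReal.toReal_ofReal hm]
  have hgP : ∀ m : ℝ, 0 ≤ m → gP s (ENNReal.ofReal m) =
      ENNReal.ofReal (Real.exp (m - s) - 1 - (m - s)) := by
    intro m hm
    unfold gP
    rw [ENNReal.toReal_ofReal hm]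
  have nE : Nice (Ω := Ω) (fun ψ => gE (∫⁻ y, ψ y ∂μ)) := nice_comp gE_meas
  have nP : Nice (Ω := Ω) (fun ψ => gP s (∫⁻ y, ψ y ∂μ)) := nice_comp (gP_meas s)
  have nZ := nice_Z (μ := μ) hF
  set EE := Pool.Agent.N549.HG.Ext μ F (fun ψ => gE (∫⁻ y, ψ y ∂μ)) χ φ with hEE
  set EP := Pool.Agent.N549.HG.Ext μ F (fun ψ => gP s (∫⁻ y, ψ y ∂μ)) χ φ with hEP
  set ET := Pool.Agent.N549.HG.Ext μ F (fun ψ => ∫⁻ y, ψ y ∂μ) χ φ with hET
  set EE' := Pool.Agent.N549.HG.Ext μ F (fun ψ => gE (∫⁻ y, ψ y ∂μ)) χ' φ with hEE'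
  -- (1)
  have s1 : ENNReal.ofReal (1 - δ) * EE ≤ ENNReal.ofReal w := by
    have h1 : Z μ F (fun y => χ y + φ y) = ENNReal.ofReal w := by
      simp only [hsum]
      exact hw
    rw [← h1, split_Z hF χ φ hχm hφm, hEE, ← Ext_const_mul hF nE _ hχm hφm]
    refine Ext_mono P hPF ?_ χ φ hPφ
    rintro ψ ⟨T, hT, hTB, rfl⟩
    rw [hint T hT, hgE _ (mul_nonneg hlam.le measureReal_nonneg), ← ENNReal.ofReal_mul h1δ.le]
    exact hZT T hT hTB
  -- (2)
  have hone : Pool.Agent.N549.HG.Ext μ F (fun _ => 1) χ φ = ENNReal.ofReal w1 := by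
    rw [← split_one (μ := μ) (F := F) χ φ]
    exact hw1 v
  have s2 : EP + ENNReal.ofReal w1 + ET ≤ ENNReal.ofReal (Real.exp (-s)) * EE +
      ENNReal.ofReal s * ENNReal.ofReal w1 := by
    have h1 : EP + ENNReal.ofReal w1 + ET = Pool.Agent.N549.HG.Ext μ F
        (fun ψ => (gP s (∫⁻ y, ψ y ∂μ) + 1) + ∫⁻ y, ψ y ∂μ) χ φ := by
      rw [Ext_add hF (Ψ := fun ψ => gP s (∫⁻ y, ψ y ∂μ) + 1)
        (fun Θ _ ψ hψ => (nP Θ ψ hψ).add_const 1) hχm hφm,
        Ext_add hF nP hχm hφm, hone]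
    have h2 : ENNReal.ofReal (Real.exp (-s)) * EE + ENNReal.ofReal s * ENNReal.ofReal w1 =
        Pool.Agent.N549.HG.Ext μ F (fun ψ => ENNReal.ofReal (Real.exp (-s)) *
          gE (∫⁻ y, ψ y ∂μ) + ENNReal.ofReal s * 1) χ φ := by
      rw [Ext_add hF (Ψ := fun ψ => ENNReal.ofReal (Real.exp (-s)) * gE (∫⁻ y, ψ y ∂μ))
        (fun Θ _ ψ hψ => (nE Θ ψ hψ).const_mul _) hχm hφm, Ext_const_mul hF nE _ hχm hφm,
        Ext_const_mul hF (nice_one (Ω := Ω)) _ hχm hφm, hone]
    rw [h1, h2]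
    refine Ext_mono P hPF ?_ χ φ hPφ
    rintro ψ ⟨T, hT, hTB, rfl⟩
    have hm0 : 0 ≤ lam * μ.real T := mul_nonneg hlam.le measureReal_nonneg
    rw [hint T hT, hgE _ hm0, hgP _ hm0]
    have h3 := phi_nonneg (lam * μ.real T - s)
    rw [mul_one, ← ENNReal.ofReal_one, ← ENNReal.ofReal_add h3 zero_le_one,
      ← ENNReal.ofReal_add (by linarith) hm0, ← ENNReal.ofReal_mul (Real.exp_pos _).le,
      ← ENNReal.ofReal_add (by positivity) hs.le]
    refine ENNReal.ofReal_le_ofReal (le_of_eq ?_)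
    rw [← Real.exp_add, show -s + lam * μ.real T = lam * μ.real T - s by ring]
    ring
  -- (3)
  have s3 : ENNReal.ofReal (lam * D * m2) ≤ ET := by
    have h1 := Ext_swap (μ := μ) hF (nice_one (Ω := Ω)) χ φ hχm hφm
    simp only [mul_one] at h1
    rw [hET, ← h1]
    have h2 : ∀ u, Pool.Agent.N549.HG.Ext μ F (fun _ => 1) (fun y => χ y * F u y)
        (fun y => φ y * F u y) = Z μ F (fun y => c * (F v y * F u y)) := by
      intro u
      rw [← split_one (μ := μ) (F := F)]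
      congr 1
      funext y
      rw [hχ, mul_assoc]
    simp only [h2]
    calc ENNReal.ofReal (lam * D * m2) = (∫⁻ u, φ u ∂μ) * ENNReal.ofReal m2 := by
          rw [hφ, lintegral_indicator_const hBm, hBv, hc, ← ENNReal.ofReal_mul hlam.le,
            ← ENNReal.ofReal_mul (by positivity)]
      _ = ∫⁻ u, φ u * ENNReal.ofReal m2 ∂μ := (lintegral_mul_const _ hφm).symm
      _ ≤ _ := lintegral_mono fun u => mul_le_mul' le_rfl (hm2 u)
  -- (4)
  have hone' : Pool.Agent.N549.HG.Ext μ F (fun _ => 1) χ' φ = ENNReal.ofReal w2 := by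
    rw [← split_one (μ := μ) (F := F) χ' φ, ← hw2]
    congr 1
    funext y
    show c * F v y * F x y = _
    rw [mul_assoc]
  have s4 : ENNReal.ofReal ((1 - h) * Real.exp s) * ENNReal.ofReal w2 ≤
      EE' + ENNReal.ofReal (3 * Real.exp s / h ^ 2) * EP := by
    have h0 : Pool.Agent.N549.HG.Ext μ F (fun ψ => gP s (∫⁻ y, ψ y ∂μ)) χ' φ ≤ EP :=
      Ext_mono_left (fun y => mul_le_of_le_one_right (by simp) (hF.le_one x y)) φ
    refine le_trans ?_ (add_le_add le_rfl (mul_le_mul' le_rfl h0))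
    rw [← hone', ← Ext_const_mul hF (nice_one (Ω := Ω)) _ hχ'm hφm,
      ← Ext_const_mul hF nP _ hχ'm hφm, hEE', ← Ext_add hF nE hχ'm hφm]
    refine Ext_mono P hPF ?_ χ' φ hPφ
    rintro ψ ⟨T, hT, hTB, rfl⟩
    have hm0 : 0 ≤ lam * μ.real T := mul_nonneg hlam.le measureReal_nonneg
    rw [hint T hT, hgE _ hm0, hgP _ hm0, mul_one]
    have h3 := phi_nonneg (lam * μ.real T - s)
    rw [← ENNReal.ofReal_mul (by positivity), ← ENNReal.ofReal_add (Real.exp_pos _).le
      (by positivity)]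
    refine ENNReal.ofReal_le_ofReal ?_
    have h4 := mul_le_mul_of_nonneg_right (phi_low h (lam * μ.real T - s) hh hh1)
      (Real.exp_pos s).le
    have h5 : Real.exp (lam * μ.real T - s) * Real.exp s = Real.exp (lam * μ.real T) := by
      rw [← Real.exp_add]; congr 1; ring
    calc (1 - h) * Real.exp s ≤ (Real.exp (lam * μ.real T - s) + 3 / h ^ 2 *
          (Real.exp (lam * μ.real T - s) - 1 - (lam * μ.real T - s))) * Real.exp s := h4
      _ = Real.exp (lam * μ.real T - s) * Real.exp s + 3 * Real.exp s / h ^ 2 *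
          (Real.exp (lam * μ.real T - s) - 1 - (lam * μ.real T - s)) := by ring
      _ = _ := by rw [h5]
  -- (5)
  have s5 : ENNReal.ofReal ((1 - δ) * Real.exp (-(lam * (l * D)))) * EE' ≤
      ENNReal.ofReal w1 := by
    have h1 : Z μ F (fun y => χ' y + φ y * F x y) = ENNReal.ofReal w1 := by
      rw [← hw1 x]
      congr 1
      funext y
      rw [hχ']
      show χ y * F x y + φ y * F x y = c * F x y
      rw [← add_mul, hsum]
    have h2 : Measurable fun y => φ y * F x y := hφm.mul hFx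
    rw [← h1, split_Z hF χ' _ hχ'm h2, ← Ext_shift (μ := μ) (F := F) x χ' φ, hEE',
      ← Ext_const_mul hF nE _ hχ'm hφm]
    refine Ext_mono P hPF ?_ χ' φ hPφ
    rintro ψ ⟨T, hT, hTB, rfl⟩
    have hm0 : 0 ≤ lam * μ.real T := mul_nonneg hlam.le measureReal_nonneg
    rw [hint T hT, hgE _ hm0, mul_F hz T c x]
    refine le_trans ?_ (hZT (T \ Nr F x) (hT.diff (meas_Nr hF x)) fun y hy => hTB hy.1)
    rw [← ENNReal.ofReal_mul (by positivity)]
    refine ENNReal.ofReal_le_ofReal ?_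
    rw [mul_assoc, ← Real.exp_add]
    refine mul_le_mul_of_nonneg_left (Real.exp_le_exp.2 ?_) h1δ.le
    have h3 : μ.real T ≤ μ.real (T \ Nr F x) + l * D := by
      have h4 : μ.real T ≤ μ.real (T \ Nr F x) + μ.real (B ∩ Nr F x) := by
        refine le_trans (measureReal_mono ?_ (measure_ne_top _ _)) (measureReal_union_le _ _)
        intro y hy
        by_cases h5 : y ∈ Nr F x
        · exact Or.inr ⟨hTB hy, h5⟩
        · exact Or.inl ⟨hy, h5⟩
      have h6 : μ.real (B ∩ Nr F x) ≤ l * D := by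
        have h7 := hle v x hvx
        rw [measureReal_def]
        have := ENNReal.toReal_mono ENNReal.ofReal_ne_top h7
        rwa [ENNReal.toReal_ofReal (by positivity)] at this
      linarith
    have h4 := mul_le_mul_of_nonneg_left h3 hlam.le
    linarith
  -- (6) the real numbers
  have fEE : EE ≠ ∞ := by
    intro h0
    rw [h0, ENNReal.mul_top (ENNReal.ofReal_pos.2 h1δ).ne'] at s1
    exact absurd s1 (not_le.2 ENNReal.ofReal_lt_top)
  have hA : 0 < (1 - δ) * Real.exp (-(lam * (l * D))) := mul_pos h1δ (Real.exp_pos _)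
  have fEE' : EE' ≠ ∞ := by
    intro h0
    rw [h0, ENNReal.mul_top (ENNReal.ofReal_pos.2 hA).ne'] at s5
    exact absurd s5 (not_le.2 ENNReal.ofReal_lt_top)
  have fR : ENNReal.ofReal (Real.exp (-s)) * EE + ENNReal.ofReal s * ENNReal.ofReal w1 ≠ ∞ :=
    ENNReal.add_ne_top.2 ⟨ENNReal.mul_ne_top ENNReal.ofReal_ne_top fEE,
      ENNReal.mul_ne_top ENNReal.ofReal_ne_top ENNReal.ofReal_ne_top⟩
  have fEP : EP ≠ ∞ := by
    have : EP ≤ EP + ENNReal.ofReal w1 + ET := le_trans le_self_add le_self_add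
    exact ((this.trans s2).trans_lt (lt_top_iff_ne_top.2 fR)).ne
  have fET : ET ≠ ∞ := by
    have : ET ≤ EP + ENNReal.ofReal w1 + ET := le_add_self
    exact ((this.trans s2).trans_lt (lt_top_iff_ne_top.2 fR)).ne
  obtain ⟨e1, he10, he1⟩ : ∃ r : ℝ, 0 ≤ r ∧ EE = ENNReal.ofReal r :=
    ⟨EE.toReal, ENNReal.toReal_nonneg, (ENNReal.ofReal_toReal fEE).symm⟩
  obtain ⟨e2, he20, he2⟩ : ∃ r : ℝ, 0 ≤ r ∧ EE' = ENNReal.ofReal r :=
    ⟨EE'.toReal, ENNReal.toReal_nonneg, (ENNReal.ofReal_toReal fEE').symm⟩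
  obtain ⟨ep, hep0, hep⟩ : ∃ r : ℝ, 0 ≤ r ∧ EP = ENNReal.ofReal r :=
    ⟨EP.toReal, ENNReal.toReal_nonneg, (ENNReal.ofReal_toReal fEP).symm⟩
  obtain ⟨et, het0, het⟩ : ∃ r : ℝ, 0 ≤ r ∧ ET = ENNReal.ofReal r :=
    ⟨ET.toReal, ENNReal.toReal_nonneg, (ENNReal.ofReal_toReal fET).symm⟩
  rw [he1, ← ENNReal.ofReal_mul h1δ.le, ENNReal.ofReal_le_ofReal_iff hw0] at s1
  rw [hep, het, he1, ← ENNReal.ofReal_add hep0 hw10, ← ENNReal.ofReal_add (by positivity) het0,
    ← ENNReal.ofReal_mul (Real.exp_pos _).le, ← ENNReal.ofReal_mul hs.le,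
    ← ENNReal.ofReal_add (by positivity) (by positivity),
    ENNReal.ofReal_le_ofReal_iff (by positivity)] at s2
  rw [het, ENNReal.ofReal_le_ofReal_iff het0] at s3
  have h1h : 0 ≤ (1 - h) * Real.exp s := mul_nonneg (by linarith) (Real.exp_pos s).le
  rw [he2, hep, ← ENNReal.ofReal_mul h1h, ← ENNReal.ofReal_mul (by positivity),
    ← ENNReal.ofReal_add he20 (by positivity), ENNReal.ofReal_le_ofReal_iff (by positivity)] at s4
  rw [he2, ← ENNReal.ofReal_mul hA.le, ENNReal.ofReal_le_ofReal_iff hw10] at s5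
  have t1 : e1 ≤ w / (1 - δ) := by rw [le_div_iff₀ h1δ]; linarith
  have t2 : e2 ≤ w1 * Real.exp (lam * (l * D)) / (1 - δ) := by
    rw [le_div_iff₀ h1δ]
    have h6 := mul_le_mul_of_nonneg_right s5 (Real.exp_pos (lam * (l * D))).le
    have h7 : Real.exp (-(lam * (l * D))) * Real.exp (lam * (l * D)) = 1 := by
      rw [← Real.exp_add]; simp
    calc e2 * (1 - δ) = (1 - δ) * Real.exp (-(lam * (l * D))) * e2 *
          Real.exp (lam * (l * D)) := by
          have : (1 - δ) * Real.exp (-(lam * (l * D))) * e2 * Real.exp (lam * (l * D)) =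
            (1 - δ) * e2 * (Real.exp (-(lam * (l * D))) * Real.exp (lam * (l * D))) := by ring
          rw [this, h7]; ring
      _ ≤ _ := h6
  have t3 : ep ≤ Real.exp (-s) * w / (1 - δ) + (s - 1) * w1 - lam * D * m2 := by
    have h6 := mul_le_mul_of_nonneg_left t1 (Real.exp_pos (-s)).le
    have h7 : Real.exp (-s) * (w / (1 - δ)) = Real.exp (-s) * w / (1 - δ) := by ring
    linarith
  have t4 : 3 * Real.exp s / h ^ 2 * ep ≤ 3 * Real.exp s / h ^ 2 *
      (Real.exp (-s) * w / (1 - δ) + (s - 1) * w1 - lam * D * m2) :=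
    mul_le_mul_of_nonneg_left t3 (by positivity)
  linarith

end Pool.Agent.N549.AB
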