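import Pool.Agent.N549.AB.Cor3

/-!
# Homogeneous hard-core gases: decorrelation (project HG, sixth round)
-/

set_option autoImplicit false

namespace Pool.Agent.N549.AB

open MeasureTheory Set Finset
open scoped ENNReal NNReal
open Pool.Agent.N549.HG (A Z Adm Nice Mn Z_mono one_le_Z)

variable {Ω : Type} [MeasurableSpace Ω] {μ : Measure Ω} {F : Ω → Ω → ℝ≥0∞} {D : ℝ}

/-- the partition function with no point in the neighbourhood of `u` -/
noncomputable def Z1 (μ : Measure Ω) (F : Ω → Ω → ℝ≥0∞) (lam : ℝ) (u : Ω) : ℝ :=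
  (Z μ F (fun y => ENNReal.ofReal lam * F u y)).toReal

/-- the partition function with no point in the neighbourhoods of `u` and `v` -/
noncomputable def Z2 (μ : Measure Ω) (F : Ω → Ω → ℝ≥0∞) (lam : ℝ) (u v : Ω) : ℝ :=
  (Z μ F (fun y => ENNReal.ofReal lam * (F u y * F v y))).toReal

/-- the pair correlation function -/
noncomputable def gcor (μ : Measure Ω) (F : Ω → Ω → ℝ≥0∞) (lam : ℝ) (u v : Ω) : ℝ :=
  Z2 μ F lam u v * PZ μ F lam / (Z1 μ F lam u * Z1 μ F lam v)

theorem Z_fin [IsProbabilityMeasure μ] (hF : Adm F) (lam : ℝ) (hl : 0 ≤ lam) (ψ : Ω → ℝ≥0∞)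
    (h : ∀ y, ψ y ≤ ENNReal.ofReal lam) : Z μ F ψ ≠ ∞ := by
  have h1 : Z μ F ψ ≤ Z μ F (fun _ => ENNReal.ofReal lam) := Z_mono h
  rw [PZ_eq hF lam hl] at h1
  exact (h1.trans_lt ENNReal.ofReal_lt_top).ne

theorem Z1_eq [IsProbabilityMeasure μ] (hF : Adm F) (lam : ℝ) (hl : 0 ≤ lam) (u : Ω) :
    Z μ F (fun y => ENNReal.ofReal lam * F u y) = ENNReal.ofReal (Z1 μ F lam u) :=
  (ENNReal.ofReal_toReal (Z_fin hF lam hl _ fun y =>
    mul_le_of_le_one_right (by simp) (hF.le_one u y))).symm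

theorem Z2_eq [IsProbabilityMeasure μ] (hF : Adm F) (lam : ℝ) (hl : 0 ≤ lam) (u v : Ω) :
    Z μ F (fun y => ENNReal.ofReal lam * (F u y * F v y)) = ENNReal.ofReal (Z2 μ F lam u v) :=
  (ENNReal.ofReal_toReal (Z_fin hF lam hl _ fun y =>
    mul_le_of_le_one_right (by simp) (mul_le_one' (hF.le_one u y) (hF.le_one v y)))).symm

theorem one_le_toReal {ψ : Ω → ℝ≥0∞} (h : Z μ F ψ ≠ ∞) : 1 ≤ (Z μ F ψ).toReal := by
  have := ENNReal.toReal_mono h (one_le_Z (μ := μ) (F := F) ψ)
  simpa using this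

theorem one_le_Z1 [IsProbabilityMeasure μ] (hF : Adm F) (lam : ℝ) (hl : 0 ≤ lam) (u : Ω) :
    1 ≤ Z1 μ F lam u :=
  one_le_toReal (Z_fin hF lam hl _ fun y => mul_le_of_le_one_right (by simp) (hF.le_one u y))

theorem one_le_Z2 [IsProbabilityMeasure μ] (hF : Adm F) (lam : ℝ) (hl : 0 ≤ lam) (u v : Ω) :
    1 ≤ Z2 μ F lam u v :=
  one_le_toReal (Z_fin hF lam hl _ fun y =>
    mul_le_of_le_one_right (by simp) (mul_le_one' (hF.le_one u y) (hF.le_one v y)))

theorem Z1_hom (hG : Gas μ F D) (lam : ℝ) (u v : Ω) : Z1 μ F lam u = Z1 μ F lam v := by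
  unfold Z1
  rw [hG.hom _ u v]

/-- the density and the cavity -/
theorem DPM_eq [IsProbabilityMeasure μ] (hG : Gas μ F D) (s : ℝ) (hs : 0 < s) (u : Ω) :
    D * PM μ F (ac D s) = s * Real.exp s * Z1 μ F (ac D s) u / PZ μ F (ac D s) := by
  have hF := hG.adm
  have hD := hG.pos
  have hl := ac_pos hD hs
  set lam := ac D s with hlam
  have hlD : lam * D = s * Real.exp s := ac_mul hD s
  have hmean : PM μ F lam = lam * Z1 μ F lam u / PZ μ F lam := by
    unfold PM
    congr 1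
    have h2 : Mn μ F (fun _ => ENNReal.ofReal lam) = ENNReal.ofReal (lam * Z1 μ F lam u) := by
      unfold Pool.Agent.N549.HG.Mn
      have h3 : ∀ u', Z μ F (fun y => ENNReal.ofReal lam * F u' y) =
          ENNReal.ofReal (Z1 μ F lam u) :=
        fun u' => by rw [hG.hom _ u' u, Z1_eq hF lam hl.le]
      simp only [h3]
      rw [lintegral_const, measure_univ, mul_one, ENNReal.ofReal_mul hl.le]
    rw [PM_eq hF lam hl.le] at h2
    have h4 := congrArg ENNReal.toReal h2
    have h5 : 0 ≤ Z1 μ F lam u := ENNReal.toReal_nonneg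
    rwa [ENNReal.toReal_ofReal (tsum_nonneg fun k => mul_nonneg (by positivity)
      (mul_nonneg (by positivity) (pr_nonneg k))), ENNReal.toReal_ofReal
      (mul_nonneg hl.le h5)] at h4
  rw [hmean, ← hlD]
  ring

/-- **Lower bound for the two point function.** -/
theorem two_low [IsProbabilityMeasure μ] (hG : Gas μ F D) {δ₁ : ℝ} (hδ₁ : 0 ≤ δ₁)
    (hL : LocP μ F δ₁ D) (s : ℝ) (hs : 0 < s) (hδ1 : δ₁ * (s * Real.exp s) < 1) (u v : Ω) :
    PZ μ F (ac D s) * Real.exp (-(2 * (D * PM μ F (ac D s)) / (1 - δ₁ * (s * Real.exp s)))) ≤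
      Z2 μ F (ac D s) u v := by
  have hF := hG.adm
  have hD := hG.pos
  have hl := ac_pos hD hs
  set lam := ac D s with hlam
  have hlD : lam * D = s * Real.exp s := ac_mul hD s
  have hPZ := PZ_ge_one (μ := μ) hF lam hl.le
  have hPZ0 : 0 < PZ μ F lam := by linarith
  have h2 := one_le_Z2 (μ := μ) hF lam hl.le u v
  have h20 : 0 < Z2 μ F lam u v := by linarith
  set δ := δ₁ * (s * Real.exp s) with hδ
  have h1δ : 0 < 1 - δ := by linarith
  have hBm : MeasurableSet (Nr F u ∪ Nr F v) := (meas_Nr hF u).union (meas_Nr hF v)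
  have hset : Z μ F ((Nr F u ∪ Nr F v)ᶜ.indicator fun _ => ENNReal.ofReal lam) =
      ENNReal.ofReal (Z2 μ F lam u v) := by
    rw [← Z2_eq hF lam hl.le]
    congr 1
    funext y
    by_cases hy : y ∈ Nr F u ∪ Nr F v
    · rw [Set.indicator_of_notMem (Set.notMem_compl_iff.2 hy)]
      rcases hy with h | h
      · rw [show F u y = 0 from h, zero_mul, mul_zero]
      · rw [show F v y = 0 from h, mul_zero, mul_zero]
    · rw [Set.indicator_of_mem (Set.mem_compl hy)]
      have hu : F u y = 1 := by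
        rcases hG.zo u y with h | h
        · exact absurd (Or.inl h) hy
        · exact h
      have hv : F v y = 1 := by
        rcases hG.zo v y with h | h
        · exact absurd (Or.inr h) hy
        · exact h
      rw [hu, hv, mul_one, mul_one]
  have key := low_set hG hδ₁ _ hBm (fun T hT hTB => hL u v T hT hTB) lam hl (PZ μ F lam)
    (Z1 μ F lam u) (Z2 μ F lam u v) δ (PZ_eq hF lam hl.le)
    (fun u' => by rw [hG.hom _ u' u, Z1_eq hF lam hl.le]) hset hPZ
    (by linarith [one_le_Z1 (μ := μ) hF lam hl.le u]) h2 (by rw [hlD]) (by linarith)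
  have hB2 : μ.real (Nr F u ∪ Nr F v) ≤ 2 * D := by
    have h3 : ∀ u', μ.real (Nr F u') = D := fun u' => by
      rw [measureReal_def, hG.vol u', ENNReal.toReal_ofReal hD.le]
    refine (measureReal_union_le _ _).trans (le_of_eq ?_)
    rw [h3, h3]; ring
  have hZ1 : 0 ≤ Z1 μ F lam u := ENNReal.toReal_nonneg
  have h3 : lam * μ.real (Nr F u ∪ Nr F v) * Z1 μ F lam u / PZ μ F lam ≤
      2 * (D * PM μ F lam) := by
    rw [hlam, DPM_eq hG s hs u, ← hlam, ← hlD]
    have h4 : lam * μ.real (Nr F u ∪ Nr F v) * Z1 μ F lam u ≤ lam * (2 * D) * Z1 μ F lam u :=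
      mul_le_mul_of_nonneg_right (mul_le_mul_of_nonneg_left hB2 hl.le) hZ1
    calc lam * μ.real (Nr F u ∪ Nr F v) * Z1 μ F lam u / PZ μ F lam
        ≤ lam * (2 * D) * Z1 μ F lam u / PZ μ F lam := div_le_div_of_nonneg_right h4 hPZ0.le
      _ = _ := by ring
  have h5 : Real.log (PZ μ F lam / Z2 μ F lam u v) ≤ 2 * (D * PM μ F lam) / (1 - δ) := by
    rw [le_div_iff₀ h1δ]
    linarith
  have h6 : PZ μ F lam / Z2 μ F lam u v ≤ Real.exp (2 * (D * PM μ F lam) / (1 - δ)) := by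
    rwa [← Real.log_le_iff_le_exp (by positivity)]
  rw [div_le_iff₀ h20] at h6
  rw [Real.exp_neg, ← div_eq_mul_inv, div_le_iff₀ (Real.exp_pos _)]
  linarith

/-- the pair correlation from below -/
theorem gcor_low [IsProbabilityMeasure μ] (hG : Gas μ F D) {δ₁ : ℝ} (hδ₁ : 0 ≤ δ₁)
    (hL : LocP μ F δ₁ D) (s q : ℝ) (hs : 0 < s) (hq : 0 ≤ q) (hq3 : q ≤ 1 / 3)
    (hδ1 : δ₁ * (s * Real.exp s) ≤ q) (hy : D * PM μ F (ac D s) ≤ s * (1 + q)) (u v : Ω) :
    1 - (2 + 6 * s) * q ≤ gcor μ F (ac D s) u v := by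
  have hF := hG.adm
  have hD := hG.pos
  have hl := ac_pos hD hs
  have h2 := two_low hG hδ₁ hL s hs (by linarith) u v
  have hPZ := PZ_ge_one (μ := μ) hF _ hl.le
  have hZu := one_le_Z1 (μ := μ) hF _ hl.le u
  have e1 := DPM_eq hG s hs u
  have e2 := Z1_hom hG (ac D s) u v
  set lam := ac D s with hlam
  set w := PZ μ F lam with hw
  set w1 := Z1 μ F lam u with hw1
  set y := D * PM μ F lam with hyd
  have hw0 : 0 < w := by linarith
  have hw10 : 0 < w1 := by linarith
  have hy0 : 0 < y := by rw [e1]; positivity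
  unfold gcor
  rw [← e2, ← hw1, ← hw]
  have e3 : w / w1 = s * Real.exp s / y := by rw [e1]; field_simp
  have h3 : (w / w1) ^ 2 * Real.exp (-(2 * y / (1 - δ₁ * (s * Real.exp s)))) ≤
      Z2 μ F lam u v * w / (w1 * w1) := by
    have h4 := mul_le_mul_of_nonneg_right h2 (show 0 ≤ w / (w1 * w1) by positivity)
    calc (w / w1) ^ 2 * Real.exp (-(2 * y / (1 - δ₁ * (s * Real.exp s)))) =
          w * Real.exp (-(2 * y / (1 - δ₁ * (s * Real.exp s)))) * (w / (w1 * w1)) := by
            field_simp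
      _ ≤ Z2 μ F lam u v * (w / (w1 * w1)) := h4
      _ = _ := by ring
  refine le_trans ?_ h3
  rw [e3]
  set d := δ₁ * (s * Real.exp s) with hd
  have hd0 : 0 ≤ d := by rw [hd]; positivity
  have h1d : 0 < 1 - d := by linarith
  -- the exponent
  have h5 : 2 * y / (1 - d) ≤ 2 * s * (1 + 3 * q) := by
    rw [div_le_iff₀ h1d]
    have h6 : 1 + q ≤ (1 + 3 * q) * (1 - d) := by nlinarith
    nlinarith [mul_le_mul_of_nonneg_left h6 hs.le]
  have h6 : (s * Real.exp s / y) ^ 2 * Real.exp (-(2 * y / (1 - d))) =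
      (s / y) ^ 2 * Real.exp (2 * s - 2 * y / (1 - d)) := by
    have : Real.exp (2 * s - 2 * y / (1 - d)) = Real.exp s ^ 2 * Real.exp (-(2 * y / (1 - d))) := by
      rw [← Real.exp_nat_mul, ← Real.exp_add]
      congr 1
    rw [this]
    ring
  rw [h6]
  have h7 : 1 - 6 * s * q ≤ Real.exp (2 * s - 2 * y / (1 - d)) := by
    have h8 := Real.add_one_le_exp (2 * s - 2 * y / (1 - d))
    linarith
  have h8 : 1 - q ≤ s / y := by
    rw [le_div_iff₀ hy0]
    have h9 : (1 - q) * y ≤ (1 - q) * (s * (1 + q)) :=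
      mul_le_mul_of_nonneg_left hy (by linarith)
    nlinarith [mul_nonneg hs.le (sq_nonneg q)]
  have h9 : 1 - 2 * q ≤ (s / y) ^ 2 := by nlinarith [sq_nonneg q, div_pos hs hy0]
  by_cases h10 : 1 - (2 + 6 * s) * q ≤ 0
  · exact h10.trans (by positivity)
  push Not at h10
  have h11 : 0 ≤ s * q := by positivity
  calc 1 - (2 + 6 * s) * q ≤ (1 - 2 * q) * (1 - 6 * s * q) := by nlinarith
    _ ≤ (s / y) ^ 2 * Real.exp (2 * s - 2 * y / (1 - d)) :=
        mul_le_mul h9 h7 (by nlinarith) (by positivity)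

/-- the pair correlation from above -/
theorem gcor_up [IsProbabilityMeasure μ] (hG : Gas μ F D) {δ₀ l : ℝ} (hδ₀ : 0 ≤ δ₀) (hl : 0 ≤ l)
    (hL : LocK μ F δ₀ D) (hle : LensK μ F l D) (s r h : ℝ) (hs : 0 < s) (hr : 0 ≤ r)
    (hr3 : r ≤ 1 / 8) (hh : 0 < h) (hh1 : h ≤ 1 / 4)
    (hδ1 : (δ₀ + 2 * l) * (s * Real.exp s) ≤ r) (hδ2 : δ₀ * (s * Real.exp s) ^ 2 / 2 ≤ r)
    (hy1 : s * (1 - r) ≤ D * PM μ F (ac D s)) (hy2 : D * PM μ F (ac D s) ≤ s * (1 + r))
    (u v : Ω) (huv : F u v = 1) :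
    gcor μ F (ac D s) u v ≤ (1 + 2 * r) * (1 + 2 * h) *
      ((1 + 2 * r) * (1 + 2 * r) + 3 * Real.exp s / h ^ 2 * (r * (4 + s + 6 * s ^ 2))) := by
  have hF := hG.adm
  have hD := hG.pos
  have hlam0 := ac_pos hD hs
  have hlocP := locP_of hG hδ₀ hl hL hle
  have hPZ := PZ_ge_one (μ := μ) hF _ hlam0.le
  have hZu := one_le_Z1 (μ := μ) hF _ hlam0.le u
  have hZ2 := one_le_Z2 (μ := μ) hF _ hlam0.le u v
  have e1 := DPM_eq hG s hs u
  have e2 := Z1_hom hG (ac D s) u v
  have hlD : ac D s * D = s * Real.exp s := ac_mul hD s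
  have hδ1' : (δ₀ + 2 * l) * (s * Real.exp s) < 1 := by linarith
  have hm2 : ∀ u', PZ μ F (ac D s) * Real.exp (-(2 * (D * PM μ F (ac D s)) /
      (1 - (δ₀ + 2 * l) * (s * Real.exp s)))) ≤ Z2 μ F (ac D s) u u' := fun u' =>
    two_low hG (by positivity) hlocP s hs hδ1' u u'
  set lam := ac D s with hlam
  set w := PZ μ F lam with hw
  set w1 := Z1 μ F lam u with hw1
  set y := D * PM μ F lam with hyd
  have hw0 : 0 < w := by linarith
  have hw10 : 0 < w1 := by linarith
  have hse : 0 < s * Real.exp s := by positivity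
  have hy0 : 0 < y := by rw [e1]; positivity
  set d := (δ₀ + 2 * l) * (s * Real.exp s) with hd
  have hd0 : 0 ≤ d := by rw [hd]; positivity
  have h1d : 0 < 1 - d := by linarith
  set m2 := w * Real.exp (-(2 * y / (1 - d))) with hm2d
  have hm20 : 0 ≤ m2 := by rw [hm2d]; positivity
  have key := cor_up hG hδ₀ hl hL hle u v huv lam s h r w w1 (Z2 μ F lam u v) m2 hlam0 hs hh
    (by linarith) (PZ_eq hF lam hlam0.le) hw0.le
    (fun u' => by rw [hG.hom _ u' u, Z1_eq hF lam hlam0.le]) hw10.le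
    (Z2_eq hF lam hlam0.le u v) (by linarith)
    (fun u' => by rw [Z2_eq hF lam hlam0.le]; exact ENNReal.ofReal_le_ofReal (hm2 u')) hm20
    (by rw [hlD]; exact hδ2) (by linarith)
  have e3 : w / w1 = s * Real.exp s / y := by rw [e1]; field_simp
  have h1r : 0 < 1 - r := by linarith
  have h1h : 0 < 1 - h := by linarith
  -- the bracket
  have hQ : Real.exp (-s) * w / (1 - r) + (s - 1) * w1 - lam * D * m2 ≤
      w1 * (r * (4 + s + 6 * s ^ 2)) := by
    have hw' : w = w1 * (s * Real.exp s / y) := by rw [← e3]; field_simp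
    have k1 : Real.exp (-s) * w / (1 - r) = w1 * (s / y / (1 - r)) := by
      rw [hw']
      have : Real.exp (-s) * Real.exp s = 1 := by rw [← Real.exp_add]; simp
      calc Real.exp (-s) * (w1 * (s * Real.exp s / y)) / (1 - r) =
            (Real.exp (-s) * Real.exp s) * (w1 * (s / y / (1 - r))) := by ring
        _ = _ := by rw [this, one_mul]
    have k2 : lam * D * m2 = w1 * (s * (s / y) * Real.exp (2 * s - 2 * y / (1 - d))) := by
      rw [hlD, hm2d, hw']
      have : Real.exp (2 * s - 2 * y / (1 - d)) =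
          Real.exp s * Real.exp s * Real.exp (-(2 * y / (1 - d))) := by
        rw [← Real.exp_add, ← Real.exp_add]
        congr 1
        ring
      rw [this]
      ring
    rw [k1, k2]
    have k3 : s / y ≤ 1 / (1 - r) := by
      rw [div_le_div_iff₀ hy0 h1r]
      linarith
    have k4 : s / y / (1 - r) ≤ 1 + 4 * r := by
      have k5 : s / y / (1 - r) ≤ 1 / (1 - r) / (1 - r) := div_le_div_of_nonneg_right k3 h1r.le
      refine k5.trans ?_
      rw [div_div, div_le_iff₀ (by positivity)]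
      nlinarith [mul_nonneg hr hr, mul_nonneg hr (mul_nonneg hr hr)]
    have k6 : 1 - r ≤ s / y := by
      rw [le_div_iff₀ hy0]
      have h9 : (1 - r) * y ≤ (1 - r) * (s * (1 + r)) := mul_le_mul_of_nonneg_left hy2 h1r.le
      nlinarith [mul_nonneg hs.le (sq_nonneg r)]
    have k7 : 2 * y / (1 - d) ≤ 2 * s * (1 + 3 * r) := by
      rw [div_le_iff₀ h1d]
      have h6 : 1 + r ≤ (1 + 3 * r) * (1 - d) := by nlinarith
      nlinarith [mul_le_mul_of_nonneg_left h6 hs.le]
    have k8 : 1 - 6 * s * r ≤ Real.exp (2 * s - 2 * y / (1 - d)) := by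
      have h8 := Real.add_one_le_exp (2 * s - 2 * y / (1 - d))
      linarith
    have k9 : 1 - r - 6 * s * r ≤ s / y * Real.exp (2 * s - 2 * y / (1 - d)) := by
      by_cases h10 : 1 - 6 * s * r ≤ 0
      · have : 0 ≤ s / y * Real.exp (2 * s - 2 * y / (1 - d)) := by positivity
        linarith
      · push Not at h10
        have h11 : 0 ≤ s * (r * r) := mul_nonneg hs.le (mul_nonneg hr hr)
        calc 1 - r - 6 * s * r ≤ (1 - r) * (1 - 6 * s * r) := by nlinarith
          _ ≤ _ := mul_le_mul k6 k8 h10.le (by positivity)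
    have k10 := mul_le_mul_of_nonneg_left k9 hs.le
    have k11 : s / y / (1 - r) + (s - 1) - s * (s / y) * Real.exp (2 * s - 2 * y / (1 - d)) ≤
        r * (4 + s + 6 * s ^ 2) := by nlinarith
    calc w1 * (s / y / (1 - r)) + (s - 1) * w1 -
          w1 * (s * (s / y) * Real.exp (2 * s - 2 * y / (1 - d))) =
          w1 * (s / y / (1 - r) + (s - 1) -
            s * (s / y) * Real.exp (2 * s - 2 * y / (1 - d))) := by ring
      _ ≤ _ := mul_le_mul_of_nonneg_left k11 hw10.le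
  have hle2 : Real.exp (lam * (l * D)) ≤ 1 + 2 * r := by
    have h1 : lam * (l * D) ≤ r := by
      have : lam * (l * D) = l * (s * Real.exp s) := by rw [← hlD]; ring
      rw [this]
      have h2 : l * (s * Real.exp s) ≤ (δ₀ + 2 * l) * (s * Real.exp s) :=
        mul_le_mul_of_nonneg_right (by linarith) hse.le
      linarith
    have h2 : Real.exp r ≤ 1 + 2 * r := by
      have h3 := Real.add_one_le_exp (-r)
      have h4 : Real.exp r = 1 / Real.exp (-r) := by rw [Real.exp_neg]; simp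
      rw [h4, div_le_iff₀ (Real.exp_pos _)]
      nlinarith
    exact (Real.exp_le_exp.2 h1).trans h2
  have hA : w1 * Real.exp (lam * (l * D)) / (1 - r) ≤ w1 * ((1 + 2 * r) * (1 + 2 * r)) := by
    rw [div_le_iff₀ h1r]
    have h3 : w1 * Real.exp (lam * (l * D)) ≤ w1 * (1 + 2 * r) :=
      mul_le_mul_of_nonneg_left hle2 hw10.le
    have h4 : (1 : ℝ) ≤ (1 + 2 * r) * (1 - r) := by nlinarith
    calc w1 * Real.exp (lam * (l * D)) ≤ w1 * (1 + 2 * r) := h3
      _ = w1 * (1 + 2 * r) * 1 := by ring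
      _ ≤ w1 * (1 + 2 * r) * ((1 + 2 * r) * (1 - r)) :=
          mul_le_mul_of_nonneg_left h4 (by positivity)
      _ = _ := by ring
  have hBk : 3 * Real.exp s / h ^ 2 *
      (Real.exp (-s) * w / (1 - r) + (s - 1) * w1 - lam * D * m2) ≤
      3 * Real.exp s / h ^ 2 * (w1 * (r * (4 + s + 6 * s ^ 2))) :=
    mul_le_mul_of_nonneg_left hQ (by positivity)
  have h5 : (1 - h) * Real.exp s * Z2 μ F lam u v ≤ w1 * ((1 + 2 * r) * (1 + 2 * r) +
      3 * Real.exp s / h ^ 2 * (r * (4 + s + 6 * s ^ 2))) := by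
    refine (key.trans (add_le_add hA hBk)).trans (le_of_eq ?_)
    ring
  set R := (1 + 2 * r) * (1 + 2 * r) + 3 * Real.exp s / h ^ 2 * (r * (4 + s + 6 * s ^ 2)) with hR
  have hR0 : 0 ≤ R := by rw [hR]; positivity
  unfold gcor
  rw [← e2, ← hw1, ← hw]
  have h6 : Z2 μ F lam u v * w / (w1 * w1) = Real.exp s * Z2 μ F lam u v / w1 * (s / y) := by
    have : w = w1 * (s * Real.exp s / y) := by rw [← e3]; field_simp
    rw [this]
    field_simp
  rw [h6]
  have h7 : Real.exp s * Z2 μ F lam u v / w1 ≤ (1 + 2 * h) * R := by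
    rw [div_le_iff₀ hw10]
    have h8 : (1 : ℝ) ≤ (1 + 2 * h) * (1 - h) := by nlinarith
    have h9 : 0 ≤ Real.exp s * Z2 μ F lam u v := by positivity
    calc Real.exp s * Z2 μ F lam u v = 1 * (Real.exp s * Z2 μ F lam u v) := by ring
      _ ≤ (1 + 2 * h) * (1 - h) * (Real.exp s * Z2 μ F lam u v) :=
          mul_le_mul_of_nonneg_right h8 h9
      _ = (1 + 2 * h) * ((1 - h) * Real.exp s * Z2 μ F lam u v) := by ring
      _ ≤ (1 + 2 * h) * (w1 * R) := mul_le_mul_of_nonneg_left h5 (by positivity)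
      _ = _ := by ring
  have h8 : s / y ≤ 1 + 2 * r := by
    rw [div_le_iff₀ hy0]
    have h9 : (1 + 2 * r) * (s * (1 - r)) ≤ (1 + 2 * r) * y :=
      mul_le_mul_of_nonneg_left hy1 (by positivity)
    nlinarith [mul_nonneg hs.le hr]
  calc Real.exp s * Z2 μ F lam u v / w1 * (s / y) ≤ (1 + 2 * h) * R * (1 + 2 * r) :=
        mul_le_mul h7 h8 (by positivity) (by positivity)
    _ = _ := by ring

end Pool.Agent.N549.AB
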