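import Pool.Agent.N549.AB.Cor4
import Pool.Agent.N549.AB.Abs6

/-!
# Homogeneous hard-core gases: decorrelation, uniform form (project HG, sixth round)
-/

set_option autoImplicit false

namespace Pool.Agent.N549.AB

open MeasureTheory Set Finset
open scoped ENNReal NNReal
open Pool.Agent.N549.HG (A Z Adm Nice Mn Z_mono one_le_Z)

variable {Ω : Type} [MeasurableSpace Ω] {μ : Measure Ω} {F : Ω → Ω → ℝ≥0∞} {D : ℝ}

theorem press_err [IsProbabilityMeasure μ] (hG : Gas μ F D) {κ δ₀ : ℝ}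
    (hS : UpK μ F D κ) (hδ₀ : 0 ≤ δ₀) (hL : LocK μ F δ₀ D) (s e : ℝ) (hs : 0 < s)
    (h1 : κ * Real.exp s ≤ e) (h2 : δ₀ * (s * Real.exp s) * (1 + s / 2) ≤ e) (he : e ≤ 1) :
    |D * Real.log (PZ μ F (ac D s)) - (s + s ^ 2 / 2)| ≤ e * s := by
  have h0 : 0 ≤ δ₀ * (s * Real.exp s) := by positivity
  have u1 := hS s hs
  have h3 : δ₀ * (s * Real.exp s) ≤ 1 := by
    have : δ₀ * (s * Real.exp s) ≤ δ₀ * (s * Real.exp s) * (1 + s / 2) := by nlinarith
    linarith
  have u2 := gas_low hG hδ₀ hL s hs h3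
  have k1 := mul_le_mul_of_nonneg_right h1 hs.le
  have k2 := mul_le_mul_of_nonneg_right h2 hs.le
  rw [abs_le]
  constructor
  · nlinarith
  · nlinarith

/-- **Decorrelation.** -/
theorem uniform_cor (X ε : ℝ) (hε : 0 < ε) : ∃ a N₀ : ℝ, 0 < a ∧
    ∀ (Ω : Type) [MeasurableSpace Ω] (μ : Measure Ω) [IsProbabilityMeasure μ]
      (F : Ω → Ω → ℝ≥0∞) (D κ δ₀ l N : ℝ), N₀ ≤ N → Gas μ F D → 0 ≤ κ → UpK μ F D κ →
      0 ≤ δ₀ → LocK μ F δ₀ D → 0 ≤ l → LensK μ F l D → κ ≤ Real.exp (-((X - ε / 4) * N)) →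
      δ₀ ≤ Real.exp (-((X - ε / 4) * N)) → l ≤ Real.exp (-((X - ε / 4) * N)) →
      (∀ s : ℝ, 0 < s → s ≤ (X - ε) * N → ∀ u v : Ω,
        1 - Real.exp (-(a * N)) ≤ gcor μ F (ac D s) u v) ∧
      (∀ s : ℝ, 0 < s → s ≤ (X / 3 - ε) * N → ∀ u v : Ω, F u v = 1 →
        gcor μ F (ac D s) u v ≤ 1 + Real.exp (-(a * N))) := by
  obtain ⟨N₁, hN₁, hdec⟩ := decay3 X (ε / 32) (1 / 100) (by positivity) (by norm_num)
  obtain ⟨N₂, hN₂, hdec2⟩ := decay 0 (ε / 32) (ε / (6 * (|X| + 1))) (by positivity)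
    (by positivity)
  simp only [abs_zero, zero_mul, add_zero, one_mul] at hdec2
  refine ⟨ε / 32, max N₁ N₂, by positivity, ?_⟩
  intro Ω _ μ _ F D κ δ₀ l N hN hG hκ hS hδ₀ hL hl hle hκN hδN hlN
  have hN0 : 0 ≤ N := hN₁.trans ((le_max_left _ _).trans hN)
  have hd := hdec N ((le_max_left _ _).trans hN)
  have hd2 := hdec2 N ((le_max_right _ _).trans hN)
  set p : ℝ := Real.exp (-(ε / 32 * N)) with hp
  have hp0 : 0 < p := Real.exp_pos _
  have hpX : p * (6 * (|X| + 1)) ≤ ε := by rwa [le_div_iff₀ (by positivity)] at hd2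
  set M : ℝ := 1 + |X| * N with hM
  have hXN : 0 ≤ |X| * N := mul_nonneg (abs_nonneg _) hN0
  have hM1 : 1 ≤ M := by rw [hM]; linarith
  have hM3 : 1 ≤ M ^ 3 := one_le_pow₀ hM1
  have hp100 : p ≤ 1 / 100 := by
    calc p = 1 * p := (one_mul p).symm
      _ ≤ M ^ 3 * p := mul_le_mul_of_nonneg_right hM3 hp0.le
      _ ≤ 1 / 100 := hd
  have hp1 : p ≤ 1 := by linarith
  have hMp : M ^ 3 * p ≤ 1 := by linarith
  have hM1p : M * p ≤ 1 / 100 := by
    refine le_trans (mul_le_mul_of_nonneg_right ?_ hp0.le) hd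
    calc M = M ^ 1 := (pow_one M).symm
      _ ≤ M ^ 3 := pow_le_pow_right₀ hM1 (by norm_num)
  have hM2p : M ^ 2 * p ≤ 1 / 100 := by
    refine le_trans (mul_le_mul_of_nonneg_right ?_ hp0.le) hd
    exact pow_le_pow_right₀ hM1 (by norm_num)
  have hpow : ∀ i j : ℕ, i ≤ j → p ^ j ≤ p ^ i := fun i j h =>
    pow_le_pow_of_le_one hp0.le hp1 h
  have hexpN : ∀ j : ℕ, Real.exp (-(j * (ε / 32 * N))) = p ^ j := by
    intro j
    rw [hp, ← Real.exp_nat_mul]
    congr 1
    ring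
  have hsM : ∀ s : ℝ, s ≤ |X| * N → 1 + s ≤ M := fun s h => by rw [hM]; linarith
  have hcub : ∀ s : ℝ, 0 < s → s ≤ |X| * N → 1 + s * (1 + s / 2) ≤ M ^ 3 := by
    intro s hs h
    have h1 := hsM s h
    have h2 : (1 + s) ^ 3 ≤ M ^ 3 := pow_le_pow_left₀ (by linarith) h1 3
    nlinarith [mul_pos hs hs, mul_pos hs (mul_pos hs hs)]
  set K0 : ℝ := Real.exp (-((X - ε / 4) * N)) with hK0
  have hK00 : 0 < K0 := Real.exp_pos _
  -- the errors of the pressure
  have hloc3 : ∀ t b : ℝ, 0 < t → t ≤ |X| * N → 0 ≤ b → K0 * Real.exp t ≤ b * p →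
      κ * Real.exp t ≤ b ∧ δ₀ * (t * Real.exp t) * (1 + t / 2) ≤ b ∧
      (δ₀ + 2 * l) * (t * Real.exp t) ≤ 3 * b := by
    intro t b ht htM hb hKb
    have k1 : κ * Real.exp t ≤ b * p :=
      (mul_le_mul_of_nonneg_right hκN (Real.exp_pos t).le).trans hKb
    have k2 : δ₀ * Real.exp t ≤ b * p :=
      (mul_le_mul_of_nonneg_right hδN (Real.exp_pos t).le).trans hKb
    have k3 : l * Real.exp t ≤ b * p :=
      (mul_le_mul_of_nonneg_right hlN (Real.exp_pos t).le).trans hKb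
    have k4 : t * (1 + t / 2) ≤ M ^ 3 := by linarith [hcub t ht htM]
    have k5 : t ≤ M := by linarith [hsM t htM]
    have kb : 0 ≤ b * p := by positivity
    refine ⟨?_, ?_, ?_⟩
    · calc κ * Real.exp t ≤ b * p := k1
        _ ≤ b * 1 := mul_le_mul_of_nonneg_left hp1 hb
        _ = b := mul_one b
    · calc δ₀ * (t * Real.exp t) * (1 + t / 2) = (t * (1 + t / 2)) * (δ₀ * Real.exp t) := by ring
        _ ≤ M ^ 3 * (b * p) := mul_le_mul k4 k2 (by positivity) (by positivity)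
        _ = b * (M ^ 3 * p) := by ring
        _ ≤ b * 1 := mul_le_mul_of_nonneg_left hMp hb
        _ = b := mul_one b
    · calc (δ₀ + 2 * l) * (t * Real.exp t) =
            t * (δ₀ * Real.exp t + 2 * (l * Real.exp t)) := by ring
        _ ≤ M * (3 * (b * p)) := mul_le_mul k5 (by linarith) (by positivity) (by linarith)
        _ = 3 * b * (M * p) := by ring
        _ ≤ 3 * b * 1 := mul_le_mul_of_nonneg_left (by linarith) (by positivity)
        _ = 3 * b := mul_one _
  constructor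
  · -- the lower bound
    intro s hs hsN u v
    have hs1 : s ≤ |X| * N := hsN.trans
      (mul_le_mul_of_nonneg_right (by linarith [le_abs_self X]) hN0)
    have hb : ∀ t : ℝ, t ≤ (X - ε / 2) * N → K0 * Real.exp t ≤ p ^ 8 := by
      intro t ht
      rw [← hexpN 8, hK0, ← Real.exp_add, Real.exp_le_exp]
      push_cast
      have e : -(8 * (ε / 32 * N)) - (-((X - ε / 4) * N) + t) = (X - ε / 2) * N - t := by ring
      linarith
    set h : ℝ := p ^ 2 with hh
    have hh0 : 0 < h := by positivity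
    have hh1 : h ≤ 1 := by rw [hh]; exact pow_le_one₀ hp0.le hp1
    have hhp : h ≤ p := by
      rw [hh]
      calc p ^ 2 ≤ p ^ 1 := hpow 1 2 (by norm_num)
        _ = p := pow_one p
    set s' : ℝ := (1 + h) * s with hs'
    have hs'0 : 0 < s' := by positivity
    have hs'N : s' ≤ (X - ε / 2) * N := by
      have h1 : h * s ≤ ε / 2 * N := by
        have h2 : h * s ≤ p * (|X| * N) := mul_le_mul hhp hs1 hs.le hp0.le
        have h3 : p * (6 * (|X| + 1)) * N ≤ ε * N := mul_le_mul_of_nonneg_right hpX hN0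
        have h4 : 0 ≤ p * N := by positivity
        nlinarith
      have : s' = s + h * s := by rw [hs']; ring
      rw [this]
      nlinarith
    have hsN2 : s ≤ (X - ε / 2) * N := le_trans (by
      have : 0 ≤ h * s := by positivity
      have e : s' = s + h * s := by rw [hs']; ring
      linarith) hs'N
    have hs'1 : s' ≤ |X| * N := hs'N.trans
      (mul_le_mul_of_nonneg_right (by linarith [le_abs_self X]) hN0)
    have e87 : p ^ 8 = p ^ 7 * p := by ring
    obtain ⟨a1, a2, a3⟩ := hloc3 s (p ^ 7) hs hs1 (by positivity) (by rw [← e87]; exact hb s hsN2)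
    obtain ⟨b1, b2, -⟩ := hloc3 s' (p ^ 7) hs'0 hs'1 (by positivity)
      (by rw [← e87]; exact hb s' hs'N)
    have he1 : p ^ 7 ≤ 1 := pow_le_one₀ hp0.le hp1
    have q1 := press_err hG hS hδ₀ hL s (p ^ 7) hs a1 a2 he1
    have q2 := press_err hG hS hδ₀ hL s' (p ^ 7) hs'0 b1 b2 he1
    have du := dens_up hG (p ^ 7) h s (by positivity) hh0 hh1 hs q1 q2
    have e1 : 6 * p ^ 7 / h = 6 * p ^ 5 := by rw [hh]; field_simp
    rw [e1] at du
    have h35 : p ^ 5 ≤ p ^ 2 * (1 / 100) := by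
      have h3 : p ^ 3 ≤ 1 / 100 := by
        calc p ^ 3 ≤ p ^ 1 := hpow 1 3 (by norm_num)
          _ ≤ 1 / 100 := by rw [pow_one]; exact hp100
      have : p ^ 5 = p ^ 2 * p ^ 3 := by ring
      rw [this]
      exact mul_le_mul_of_nonneg_left h3 (by positivity)
    have hy : D * PM μ F (ac D s) ≤ s * (1 + 2 * p ^ 2) := by
      refine du.trans (mul_le_mul_of_nonneg_left ?_ hs.le)
      rw [hh]
      have : 0 ≤ p ^ 2 := by positivity
      linarith
    have hloc : (δ₀ + 2 * l) * (s * Real.exp s) ≤ 2 * p ^ 2 := by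
      have h7 : p ^ 7 ≤ p ^ 5 := hpow 5 7 (by norm_num)
      have : 0 ≤ p ^ 2 := by positivity
      linarith
    have hp2 : p ^ 2 ≤ 1 / 100 := by
      calc p ^ 2 ≤ p ^ 1 := hpow 1 2 (by norm_num)
        _ ≤ 1 / 100 := by rw [pow_one]; exact hp100
    have key := gcor_low hG (δ₁ := δ₀ + 2 * l) (by positivity) (locP_of hG hδ₀ hl hL hle) s
      (2 * p ^ 2) hs (by positivity) (by linarith) hloc hy u v
    refine le_trans ?_ key
    have h1 : (2 + 6 * s) * (2 * p ^ 2) ≤ p := by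
      have h2 := hsM s hs1
      calc (2 + 6 * s) * (2 * p ^ 2) ≤ (6 * M) * (2 * p ^ 2) :=
            mul_le_mul_of_nonneg_right (by linarith) (by positivity)
        _ = 12 * (M * p) * p := by ring
        _ ≤ 1 * p := mul_le_mul_of_nonneg_right (by linarith) hp0.le
        _ = p := one_mul p
    linarith
  · -- the upper bound
    intro s hs hsN u v huv
    have hX0 : 0 < X / 3 - ε := by
      by_contra hcon
      push Not at hcon
      have := mul_nonneg (show 0 ≤ -(X / 3 - ε) by linarith) hN0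
      nlinarith
    have hX : 0 < X := by linarith
    have habs : |X| = X := abs_of_pos hX
    set T : ℝ := Real.exp (X / 3 * N) with hT
    have hT1 : 1 ≤ T := Real.one_le_exp (by positivity)
    have hT0 : 0 < T := by linarith
    have hKT : K0 * T ^ 3 * p ^ 8 = 1 := by
      rw [← hexpN 8, hK0, hT, ← Real.exp_nat_mul, ← Real.exp_add, ← Real.exp_add]
      rw [show -((X - ε / 4) * N) + ((3 : ℕ) : ℝ) * (X / 3 * N) + -(((8 : ℕ) : ℝ) * (ε / 32 * N)) =
        0 by push_cast; ring]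
      exact Real.exp_zero
    have hE : Real.exp s ≤ T * p ^ 32 := by
      rw [← hexpN 32, hT, ← Real.exp_add, Real.exp_le_exp]
      push_cast
      have e : X / 3 * N + -(32 * (ε / 32 * N)) = (X / 3 - ε) * N := by ring
      rw [e]
      exact hsN
    have hKE : K0 * Real.exp s ≤ p ^ 24 / T ^ 2 := by
      calc K0 * Real.exp s ≤ K0 * (T * p ^ 32) := mul_le_mul_of_nonneg_left hE hK00.le
        _ = (K0 * T ^ 3 * p ^ 8) * (p ^ 24 / T ^ 2) := by field_simp
        _ = p ^ 24 / T ^ 2 := by rw [hKT, one_mul]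
    have hs1 : s ≤ X / 3 * N := hsN.trans (mul_le_mul_of_nonneg_right (by linarith) hN0)
    have hs2 : s ≤ |X| * N := by rw [habs]; nlinarith [mul_nonneg hX.le hN0]
    set h : ℝ := p ^ 8 / T with hh
    have hh0 : 0 < h := by positivity
    have hhp : h ≤ p ^ 8 := div_le_self (by positivity) hT1
    have hp8 : p ^ 8 ≤ 1 := pow_le_one₀ hp0.le hp1
    have hh1 : h ≤ 1 := hhp.trans hp8
    set s' : ℝ := (1 + h) * s with hs'
    have hs'0 : 0 < s' := by positivity
    have hs'1 : s' ≤ |X| * N := by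
      rw [habs, hs']
      nlinarith [mul_nonneg hX.le hN0]
    have hE' : Real.exp s' ≤ 3 * Real.exp s := by
      have h1 : s' = s + h * s := by rw [hs']; ring
      have h2 : h * s ≤ 1 := by
        have h3 : h * s ≤ p ^ 8 * M :=
          mul_le_mul hhp (by linarith [hsM s hs2]) hs.le (by positivity)
        have h4 : p ^ 8 * M = p ^ 7 * (M * p) := by ring
        have h5 : p ^ 7 ≤ 1 := pow_le_one₀ hp0.le hp1
        nlinarith [mul_nonneg (pow_pos hp0 7).le (mul_nonneg (by linarith : 0 ≤ M) hp0.le)]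
      have h3 : Real.exp (h * s) ≤ 3 := by
        have h4 : Real.exp (h * s) ≤ Real.exp 1 := Real.exp_le_exp.2 h2
        have h5 := Real.exp_one_lt_d9
        linarith
      rw [h1, Real.exp_add, mul_comm]
      exact mul_le_mul_of_nonneg_right h3 (Real.exp_pos s).le
    set e : ℝ := 3 * p ^ 23 / T ^ 2 with he
    have he0 : 0 ≤ e := by positivity
    have hep : e * p = 3 * (p ^ 24 / T ^ 2) := by rw [he]; ring
    have hKE' : K0 * Real.exp s' ≤ e * p := by
      rw [hep]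
      calc K0 * Real.exp s' ≤ K0 * (3 * Real.exp s) := mul_le_mul_of_nonneg_left hE' hK00.le
        _ = 3 * (K0 * Real.exp s) := by ring
        _ ≤ _ := mul_le_mul_of_nonneg_left hKE (by norm_num)
    have hKEs : K0 * Real.exp s ≤ e * p := by
      rw [hep]
      have : 0 ≤ p ^ 24 / T ^ 2 := by positivity
      linarith
    obtain ⟨a1, a2, a3⟩ := hloc3 s e hs hs2 he0 hKEs
    obtain ⟨b1, b2, -⟩ := hloc3 s' e hs'0 hs'1 he0 hKE'
    have hTT : 1 / T ^ 2 ≤ 1 / T := by
      apply one_div_le_one_div_of_le hT0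
      nlinarith
    have hT1' : 1 / T ≤ 1 := by rw [div_le_one hT0]; exact hT1
    have hiT : 0 < 1 / T := by positivity
    have hp23 : p ^ 23 ≤ p ^ 8 * (1 / 100) := by
      have h1 : p ^ 15 ≤ 1 / 100 := by
        calc p ^ 15 ≤ p ^ 1 := hpow 1 15 (by norm_num)
          _ ≤ 1 / 100 := by rw [pow_one]; exact hp100
      have h2 : p ^ 23 = p ^ 8 * p ^ 15 := by ring
      rw [h2]
      exact mul_le_mul_of_nonneg_left h1 (by positivity)
    have heh : e ≤ 3 / 100 * h := by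
      calc e = 3 * p ^ 23 * (1 / T ^ 2) := by rw [he]; ring
        _ ≤ 3 * (p ^ 8 * (1 / 100)) * (1 / T) :=
            mul_le_mul (by linarith) hTT (by positivity) (by positivity)
        _ = 3 / 100 * h := by rw [hh]; ring
    have he1 : e ≤ 1 := by linarith
    have q1 := press_err hG hS hδ₀ hL s e hs a1 a2 he1
    have q2 := press_err hG hS hδ₀ hL s' e hs'0 b1 b2 he1
    have du := dens_up hG e h s he0 hh0 hh1 hs q1 q2
    have hδs : δ₀ * (s * Real.exp s) ≤ e := by
      have h0 : 0 ≤ δ₀ * (s * Real.exp s) := by positivity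
      have : δ₀ * (s * Real.exp s) ≤ δ₀ * (s * Real.exp s) * (1 + s / 2) := by nlinarith
      linarith
    have dl := gas_dens hG hδ₀ hL s hs (hδs.trans he1)
    set r : ℝ := 2 * h with hr
    have hr0 : 0 ≤ r := by positivity
    have h68 : 6 * e / h ≤ h := by
      have h1 : 6 * e / h = 18 * p ^ 15 / T := by rw [he, hh]; field_simp; ring
      rw [h1, hh]
      apply div_le_div_of_nonneg_right _ hT0.le
      have h2 : p ^ 15 = p ^ 8 * p ^ 7 := by ring
      have h3 : p ^ 7 ≤ 1 / 100 := by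
        calc p ^ 7 ≤ p ^ 1 := hpow 1 7 (by norm_num)
          _ ≤ 1 / 100 := by rw [pow_one]; exact hp100
      have h4 : 0 < p ^ 8 := by positivity
      rw [h2]
      nlinarith
    have hy2 : D * PM μ F (ac D s) ≤ s * (1 + r) := by
      refine du.trans (mul_le_mul_of_nonneg_left ?_ hs.le)
      rw [hr]
      linarith
    have hy1 : s * (1 - r) ≤ D * PM μ F (ac D s) := by
      refine le_trans ?_ dl
      have h1 : δ₀ * (s * Real.exp s) ≤ r := by rw [hr]; linarith
      have := mul_le_mul_of_nonneg_right h1 hs.le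
      linarith
    have hp8' : p ^ 8 ≤ p ^ 4 * (1 / 100) := by
      have h1 : p ^ 4 ≤ 1 / 100 := by
        calc p ^ 4 ≤ p ^ 1 := hpow 1 4 (by norm_num)
          _ ≤ 1 / 100 := by rw [pow_one]; exact hp100
      have h2 : p ^ 8 = p ^ 4 * p ^ 4 := by ring
      rw [h2]
      exact mul_le_mul_of_nonneg_left h1 (by positivity)
    have hp4 : p ^ 4 ≤ p ^ 2 * (1 / 100) := by
      have h1 : p ^ 2 ≤ 1 / 100 := by
        calc p ^ 2 ≤ p ^ 1 := hpow 1 2 (by norm_num)
          _ ≤ 1 / 100 := by rw [pow_one]; exact hp100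
      have h2 : p ^ 4 = p ^ 2 * p ^ 2 := by ring
      rw [h2]
      exact mul_le_mul_of_nonneg_left h1 (by positivity)
    have hp2' : p ^ 2 ≤ 1 / 100 * p := by
      have : p ^ 2 = p * p := by ring
      rw [this]
      exact mul_le_mul_of_nonneg_right hp100 hp0.le
    have hr8 : r ≤ p ^ 2 / 2 := by
      have : 0 < p ^ 2 := by positivity
      rw [hr]
      linarith
    have hc2 : δ₀ * (s * Real.exp s) ^ 2 / 2 ≤ r := by
      have h1 : s * Real.exp s ≤ M * (T * p ^ 32) :=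
        mul_le_mul (by linarith [hsM s hs2]) hE (Real.exp_pos s).le (by linarith)
      have h2 : δ₀ * (s * Real.exp s) ^ 2 ≤ e * (M * (T * p ^ 32)) := by
        calc δ₀ * (s * Real.exp s) ^ 2 = δ₀ * (s * Real.exp s) * (s * Real.exp s) := by ring
          _ ≤ e * (M * (T * p ^ 32)) := mul_le_mul hδs h1 (by positivity) he0
      have h3 : e * (M * (T * p ^ 32)) = 3 * p ^ 54 * (M * p) / T := by
        rw [he]
        field_simp
      rw [h3] at h2
      have h4 : 3 * p ^ 54 * (M * p) / T ≤ h := by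
        rw [hh]
        apply div_le_div_of_nonneg_right _ hT0.le
        have h5 : p ^ 54 ≤ p ^ 8 := hpow 8 54 (by norm_num)
        have h6 : 0 < p ^ 54 := by positivity
        nlinarith
      linarith
    have key := gcor_up hG hδ₀ hl hL hle s r (p ^ 2) hs hr0 (by linarith) (by positivity)
      (by linarith) (a3.trans (by rw [hr]; linarith)) hc2 hy1 hy2 u v huv
    refine key.trans ?_
    have hlast : 3 * Real.exp s / (p ^ 2) ^ 2 * (r * (4 + s + 6 * s ^ 2)) ≤ p ^ 2 := by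
      have h1 : 4 + s + 6 * s ^ 2 ≤ 6 * M ^ 2 := by
        have h2 := hsM s hs2
        have h3 : (1 + s) ^ 2 ≤ M ^ 2 := pow_le_pow_left₀ (by linarith) h2 2
        nlinarith
      have h2 : 3 * Real.exp s / (p ^ 2) ^ 2 ≤ 3 * (T * p ^ 32) / (p ^ 2) ^ 2 :=
        div_le_div_of_nonneg_right (by linarith) (by positivity)
      have h3 : r * (4 + s + 6 * s ^ 2) ≤ r * (6 * M ^ 2) := mul_le_mul_of_nonneg_left h1 hr0
      have h4 : 3 * (T * p ^ 32) / (p ^ 2) ^ 2 * (r * (6 * M ^ 2)) = 36 * p ^ 35 * (M ^ 2 * p) := by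
        rw [hr, hh]
        field_simp
        ring
      calc 3 * Real.exp s / (p ^ 2) ^ 2 * (r * (4 + s + 6 * s ^ 2))
          ≤ 3 * (T * p ^ 32) / (p ^ 2) ^ 2 * (r * (6 * M ^ 2)) :=
            mul_le_mul h2 h3 (by positivity) (by positivity)
        _ = 36 * p ^ 35 * (M ^ 2 * p) := h4
        _ ≤ p ^ 2 := by
            have h5 : p ^ 35 ≤ p ^ 2 := hpow 2 35 (by norm_num)
            have h6 : 0 < p ^ 35 := by positivity
            nlinarith
    have hu : 0 ≤ p ^ 2 := by positivity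
    have h2r : 1 + 2 * r ≤ 1 + p ^ 2 := by linarith
    have h3 : (1 + 2 * r) * (1 + 2 * r) ≤ 1 + 3 * p ^ 2 := by
      calc (1 + 2 * r) * (1 + 2 * r) ≤ (1 + p ^ 2) * (1 + p ^ 2) :=
            mul_le_mul h2r h2r (by positivity) (by positivity)
        _ = 1 + 2 * p ^ 2 + p ^ 4 := by ring
        _ ≤ 1 + 3 * p ^ 2 := by linarith
    have h4 : (1 + 2 * r) * (1 + 2 * r) + 3 * Real.exp s / (p ^ 2) ^ 2 *
        (r * (4 + s + 6 * s ^ 2)) ≤ 1 + 4 * p ^ 2 := by linarith
    have hpp : 0 ≤ 1 + 2 * p ^ 2 := by positivity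
    have h5 : (1 + 2 * r) * (1 + 2 * p ^ 2) ≤ 1 + 4 * p ^ 2 := by
      calc (1 + 2 * r) * (1 + 2 * p ^ 2) ≤ (1 + p ^ 2) * (1 + 2 * p ^ 2) :=
            mul_le_mul_of_nonneg_right h2r hpp
        _ = 1 + 3 * p ^ 2 + 2 * p ^ 4 := by ring
        _ ≤ 1 + 4 * p ^ 2 := by linarith
    calc (1 + 2 * r) * (1 + 2 * p ^ 2) * ((1 + 2 * r) * (1 + 2 * r) + 3 * Real.exp s /
          (p ^ 2) ^ 2 * (r * (4 + s + 6 * s ^ 2)))
        ≤ (1 + 4 * p ^ 2) * (1 + 4 * p ^ 2) :=
          mul_le_mul h5 h4 (by positivity) (by positivity)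
      _ = 1 + 8 * p ^ 2 + 16 * p ^ 4 := by ring
      _ ≤ 1 + p := by linarith

end Pool.Agent.N549.AB
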