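import Pool.Agent.N549.AB.Cor4

/-!
# Decorrelation: the second factorial moment (project HG, sixth round)
-/

set_option autoImplicit false

namespace Pool.Agent.N549.AB

open MeasureTheory Set Finset
open scoped ENNReal NNReal
open Pool.Agent.N549.HG (A Z Adm)

open scoped Classical in
/-- AB/MOM2: the mean number of ordered pairs of points of the gas in a set `B` of compatible
pairs -/
def S_MOM2 : Prop := ∀ (Ω : Type) [MeasurableSpace Ω] (μ : Measure Ω) [IsProbabilityMeasure μ]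
  (F : Ω → Ω → ℝ≥0∞), Adm F → (∀ x y, F x y = 0 ∨ F x y = 1) →
  ∀ (B : Set (Ω × Ω)), MeasurableSet B → (∀ p ∈ B, F p.1 p.2 = 1) → ∀ c : ℝ, 0 ≤ c →
  ∑' k : ℕ, c ^ k / k.factorial * ∫ x in {x : Fin k → Ω | ∀ i j, i < j → F (x i) (x j) = 1},
      (#{p : Fin k × Fin k | p.1 ≠ p.2 ∧ (x p.1, x p.2) ∈ B} : ℝ) ∂(Measure.pi fun _ : Fin k => μ) =
    c ^ 2 * ∫ p in B, Z2 μ F c p.1 p.2 ∂(μ.prod μ)

end Pool.Agent.N549.AB
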