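import Pool.Agent.N549.AB.Cor4
import Pool.Agent.N549.AB.Stm3

/-!
# Homogeneous hard-core gases: the mean number of pairs (project HG, sixth round)
-/

set_option autoImplicit false

namespace Pool.Agent.N549.AB

open MeasureTheory Set Finset
open scoped ENNReal NNReal
open Pool.Agent.N549.HG (A Z Adm Nice Mn Z_mono one_le_Z nice_Z)

variable {Ω : Type} [MeasurableSpace Ω] {μ : Measure Ω} {F : Ω → Ω → ℝ≥0∞} {D : ℝ}

open scoped Classical in
/-- The sum, over all numbers of points, of the mean number of ordered pairs in `B`. -/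
noncomputable def PP (μ : Measure Ω) (F : Ω → Ω → ℝ≥0∞) (c : ℝ) (B : Set (Ω × Ω)) : ℝ :=
  ∑' k : ℕ, c ^ k / k.factorial * ∫ x in {x : Fin k → Ω | ∀ i j, i < j → F (x i) (x j) = 1},
      (#{p : Fin k × Fin k | p.1 ≠ p.2 ∧ (x p.1, x p.2) ∈ B} : ℝ) ∂(Measure.pi fun _ : Fin k => μ)

theorem Z2_meas [IsProbabilityMeasure μ] (hF : Adm F) (c : ℝ) :
    Measurable fun p : Ω × Ω => Z2 μ F c p.1 p.2 := by
  have h := (nice_Z (μ := μ) hF) (Ω × Ω) (fun p y => ENNReal.ofReal c * (F p.1 y * F p.2 y)) (by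
    have h1 : Measurable fun q : (Ω × Ω) × Ω => F q.1.1 q.2 :=
      hF.meas.comp ((measurable_fst.comp measurable_fst).prodMk measurable_snd)
    have h2 : Measurable fun q : (Ω × Ω) × Ω => F q.1.2 q.2 :=
      hF.meas.comp ((measurable_snd.comp measurable_fst).prodMk measurable_snd)
    exact measurable_const.mul (h1.mul h2))
  exact h.ennreal_toReal

theorem Z2_le [IsProbabilityMeasure μ] (hF : Adm F) (c : ℝ) (hc : 0 ≤ c) (u v : Ω) :
    Z2 μ F c u v ≤ PZ μ F c := by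
  have h1 : Z μ F (fun y => ENNReal.ofReal c * (F u y * F v y)) ≤
      Z μ F (fun _ => ENNReal.ofReal c) := Z_mono fun y =>
    mul_le_of_le_one_right (by simp) (mul_le_one' (hF.le_one u y) (hF.le_one v y))
  rw [Z2_eq hF c hc, PZ_eq hF c hc] at h1
  exact (ENNReal.ofReal_le_ofReal_iff (zero_le_one.trans (PZ_ge_one hF c hc))).1 h1

theorem PP_eq [IsProbabilityMeasure μ] (hM : S_MOM2) (hG : Gas μ F D) (c : ℝ) (hc : 0 ≤ c)
    (B : Set (Ω × Ω)) (hB : MeasurableSet B) (hB1 : ∀ p ∈ B, F p.1 p.2 = 1) :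
    PP μ F c B = c ^ 2 * ∫ p in B, Z2 μ F c p.1 p.2 ∂(μ.prod μ) :=
  hM Ω μ F hG.adm hG.zo B hB hB1 c hc

/-- **The mean number of pairs.** -/
theorem pairs [IsProbabilityMeasure μ] (hM : S_MOM2) (hG : Gas μ F D) (s : ℝ) (hs : 0 < s)
    (B : Set (Ω × Ω)) (hB : MeasurableSet B) (hB1 : ∀ p ∈ B, F p.1 p.2 = 1) (e : ℝ) :
    ((∀ u v, 1 - e ≤ gcor μ F (ac D s) u v) →
      (1 - e) * (PM μ F (ac D s) ^ 2 * (μ.prod μ).real B) ≤
        PP μ F (ac D s) B / PZ μ F (ac D s)) ∧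
    ((∀ u v, F u v = 1 → gcor μ F (ac D s) u v ≤ 1 + e) →
      PP μ F (ac D s) B / PZ μ F (ac D s) ≤
        (1 + e) * (PM μ F (ac D s) ^ 2 * (μ.prod μ).real B)) := by
  have hF := hG.adm
  have hD := hG.pos
  have hl := ac_pos hD hs
  rcases isEmpty_or_nonempty Ω with hem | ⟨⟨u₀⟩⟩
  · have h1 : B = ∅ := Set.eq_empty_of_isEmpty B
    rw [PP_eq hM hG _ hl.le B hB hB1, h1]
    simp
  have hP := DPM_eq hG s hs u₀
  rw [← ac_mul hD s] at hP
  set lam := ac D s with hlam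
  set w := Z1 μ F lam u₀ with hw
  have hw1 : 1 ≤ w := one_le_Z1 hF lam hl.le u₀
  have hZ := PZ_ge_one (μ := μ) hF lam hl.le
  set ζ := PZ μ F lam with hζ
  have hζ0 : 0 < ζ := by linarith
  have hw0 : 0 < w := by linarith
  have hPM : PM μ F lam = lam * w / ζ := by
    have h1 : D * PM μ F lam = D * (lam * w / ζ) := by rw [hP]; ring
    exact mul_left_cancel₀ hD.ne' h1
  have hgc : ∀ u v, gcor μ F lam u v = Z2 μ F lam u v * ζ / (w * w) := by
    intro u v
    unfold gcor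
    rw [Z1_hom hG lam u u₀, Z1_hom hG lam v u₀]
  have hZ2 : ∀ u v, Z2 μ F lam u v = gcor μ F lam u v * (w * w / ζ) := by
    intro u v
    rw [hgc]
    field_simp
  have hint : IntegrableOn (fun p : Ω × Ω => Z2 μ F lam p.1 p.2) B (μ.prod μ) := by
    refine Integrable.mono' (integrable_const ζ) (Z2_meas hF lam).aestronglyMeasurable
      (Filter.Eventually.of_forall fun p => ?_)
    rw [Real.norm_eq_abs, abs_of_nonneg (zero_le_one.trans (one_le_Z2 hF lam hl.le _ _))]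
    exact Z2_le hF lam hl.le _ _
  have hconst : ∀ x : ℝ, ∫ _p in B, x ∂(μ.prod μ) = (μ.prod μ).real B * x := by
    intro x
    rw [setIntegral_const, smul_eq_mul]
  rw [PP_eq hM hG _ hl.le B hB hB1, hPM]
  constructor
  · intro h
    have h1 : ∫ _p in B, ((1 - e) * (w * w / ζ)) ∂(μ.prod μ) ≤
        ∫ p in B, Z2 μ F lam p.1 p.2 ∂(μ.prod μ) := by
      refine setIntegral_mono_on (integrable_const _) hint hB fun p _ => ?_
      rw [hZ2]
      exact mul_le_mul_of_nonneg_right (h _ _) (by positivity)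
    rw [hconst] at h1
    rw [le_div_iff₀ hζ0]
    have h2 := mul_le_mul_of_nonneg_left h1 (show 0 ≤ lam ^ 2 by positivity)
    refine le_trans (le_of_eq ?_) h2
    field_simp
  · intro h
    have h1 : ∫ p in B, Z2 μ F lam p.1 p.2 ∂(μ.prod μ) ≤
        ∫ _p in B, ((1 + e) * (w * w / ζ)) ∂(μ.prod μ) := by
      refine setIntegral_mono_on hint (integrable_const _) hB fun p hp => ?_
      rw [hZ2]
      exact mul_le_mul_of_nonneg_right (h _ _ (hB1 p hp)) (by positivity)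
    rw [hconst] at h1
    rw [div_le_iff₀ hζ0]
    have h2 := mul_le_mul_of_nonneg_left h1 (show 0 ≤ lam ^ 2 by positivity)
    refine h2.trans (le_of_eq ?_)
    field_simp

end Pool.Agent.N549.AB
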