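import Pool.Agent.N549.AB.Stm3

/-!
# Decorrelation: the second moment of the number of points (project HG, sixth round)
-/

set_option autoImplicit false

namespace Pool.Agent.N549.AB

/-- AB/VAR: the second moment of the number of points from the pressure -/
def S_VAR : Prop := ∀ (D e h W : ℝ) (p : ℕ → ℝ), 0 < D → 0 ≤ e → 0 < h → h ≤ 1 / 4 →
  e ≤ h ^ 2 / 48 → p 0 = 1 → (∀ k, 0 ≤ p k ∧ p k ≤ 1) →
  (∀ s : ℝ, 0 < s → s ≤ W →
    |D * Real.log (∑' k : ℕ, (s * Real.exp s / D) ^ k / k.factorial * p k) - (s + s ^ 2 / 2)| ≤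
      e * s) →
  ∀ s : ℝ, 0 < s → (1 + h) ^ 2 * s ≤ W → D ≤ h ^ 3 * s →
    Summable (fun k : ℕ => (k : ℝ) ^ 2 * ((s * Real.exp s / D) ^ k / k.factorial * p k)) ∧
    ∑' k : ℕ, (k : ℝ) ^ 2 * ((s * Real.exp s / D) ^ k / k.factorial * p k) ≤
      (1 + 9 * h) * ((s / D) ^ 2 *
        ∑' k : ℕ, (s * Real.exp s / D) ^ k / k.factorial * p k)

end Pool.Agent.N549.AB
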