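import Pool.Agent.N549.AB.Cor5
import Pool.Agent.N549.AB.Cor6
import Pool.Agent.N549.AB.Stm4
import Pool.Agent.N862.DC.Pairg

/-!
# Homogeneous hard-core gases: the pair distribution in total variation (project HG, sixth round)
-/

set_option autoImplicit false

namespace Pool.Agent.N549.AB

open MeasureTheory Set Finset
open scoped ENNReal NNReal
open Pool.Agent.N549.HG (A Z Adm Nice Mn Z_mono one_le_Z nice_Z)

variable {Ω : Type} [MeasurableSpace Ω] {μ : Measure Ω} {F : Ω → Ω → ℝ≥0∞} {D : ℝ}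

theorem meas_conf (hF : Adm F) (h01 : ∀ x y, F x y = 0 ∨ F x y = 1) (k : ℕ) :
    MeasurableSet {x : Fin k → Ω | ∀ i j, i < j → F (x i) (x j) = 1} := by
  classical
  have h2 : {x : Fin k → Ω | ∀ i j, i < j → F (x i) (x j) = 1} =
      Pool.Agent.N364.HG.Wk F k ⁻¹' {1} := by
    ext x
    rw [Set.mem_preimage, Pool.Agent.N862.DC.Wk_zo h01, Set.mem_singleton_iff]
    split_ifs with h
    · exact ⟨fun _ => rfl, fun _ => h⟩
    · exact ⟨fun h' => absurd h' h, fun h' => absurd h' zero_ne_one⟩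
  rw [h2]
  exact Pool.Agent.N364.HG.Wk_meas hF.meas k (measurableSet_singleton 1)

theorem pr_conf [IsProbabilityMeasure μ] (hF : Adm F) (h01 : ∀ x y, F x y = 0 ∨ F x y = 1)
    (k : ℕ) : pr μ F k = (Measure.pi fun _ : Fin k => μ).real
      {x | ∀ i j, i < j → F (x i) (x j) = 1} := by
  classical
  unfold pr
  rw [Pool.Agent.N364.HG.A_eq hF.meas k _ measurable_const]
  have h1 : ∀ x : Fin k → Ω, (∏ _i : Fin k, (1 : ℝ≥0∞)) *
      Pool.Agent.N364.HG.Wk F k x =
      ({x | ∀ i j, i < j → F (x i) (x j) = 1} : Set (Fin k → Ω)).indicator 1 x := by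
    intro x
    rw [Finset.prod_const_one, one_mul, Pool.Agent.N862.DC.Wk_zo h01]
    rw [Set.indicator_apply]
    rfl
  rw [lintegral_congr h1, lintegral_indicator_one (meas_conf hF h01 k)]
  rfl

theorem pr_zero : pr μ F 0 = 1 := by
  unfold pr
  simp [A]

/-- all pairs -/
theorem PP_all [IsProbabilityMeasure μ] (hF : Adm F) (h01 : ∀ x y, F x y = 0 ∨ F x y = 1)
    (c : ℝ) (hc : 0 ≤ c) (B : Set (Ω × Ω))
    (hs : Summable fun k : ℕ => (k : ℝ) ^ 2 * (c ^ k / k.factorial * pr μ F k)) :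
    PP μ F c B ≤ ∑' k : ℕ, (k : ℝ) ^ 2 * (c ^ k / k.factorial * pr μ F k) := by
  classical
  unfold PP
  have h0 : ∀ k : ℕ, 0 ≤ c ^ k / k.factorial *
      ∫ x in {x : Fin k → Ω | ∀ i j, i < j → F (x i) (x j) = 1},
      (#{p : Fin k × Fin k | p.1 ≠ p.2 ∧ (x p.1, x p.2) ∈ B} : ℝ)
        ∂(Measure.pi fun _ : Fin k => μ) := fun k =>
    mul_nonneg (by positivity) (integral_nonneg fun x => Nat.cast_nonneg _)
  have h1 : ∀ k : ℕ, c ^ k / k.factorial *
      ∫ x in {x : Fin k → Ω | ∀ i j, i < j → F (x i) (x j) = 1},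
      (#{p : Fin k × Fin k | p.1 ≠ p.2 ∧ (x p.1, x p.2) ∈ B} : ℝ)
        ∂(Measure.pi fun _ : Fin k => μ) ≤ (k : ℝ) ^ 2 * (c ^ k / k.factorial * pr μ F k) := by
    intro k
    have h2 := norm_setIntegral_le_of_norm_le_const (μ := Measure.pi fun _ : Fin k => μ)
      (s := {x : Fin k → Ω | ∀ i j, i < j → F (x i) (x j) = 1})
      (f := fun x => (#{p : Fin k × Fin k | p.1 ≠ p.2 ∧ (x p.1, x p.2) ∈ B} : ℝ))
      (C := (k : ℝ) ^ 2) (measure_lt_top _ _) (fun x _ => by
        rw [Real.norm_eq_abs, abs_of_nonneg (Nat.cast_nonneg _)]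
        have : #{p : Fin k × Fin k | p.1 ≠ p.2 ∧ (x p.1, x p.2) ∈ B} ≤ k ^ 2 := by
          refine (card_le_univ _).trans ?_
          rw [Fintype.card_prod, Fintype.card_fin, sq]
        exact_mod_cast this)
    rw [← pr_conf hF h01] at h2
    have h3 := (le_abs_self _).trans h2
    have h4 := mul_le_mul_of_nonneg_left h3 (show 0 ≤ c ^ k / k.factorial by positivity)
    refine h4.trans (le_of_eq ?_)
    ring
  exact Summable.tsum_le_tsum h1 (Summable.of_nonneg_of_le h0 h1 hs) hs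

/-- the pairs of a set and of its complement -/
theorem PP_add [IsProbabilityMeasure μ] (hM : S_MOM2) (hG : Gas μ F D) (c : ℝ) (hc : 0 ≤ c)
    (B : Set (Ω × Ω)) (hB : MeasurableSet B) (hB1 : ∀ p ∈ B, F p.1 p.2 = 1) :
    PP μ F c {p | F p.1 p.2 = 1} = PP μ F c B + PP μ F c ({p | F p.1 p.2 = 1} \ B) := by
  have hF := hG.adm
  have hE : MeasurableSet {p : Ω × Ω | F p.1 p.2 = 1} := hF.meas (measurableSet_singleton 1)
  have hint : Integrable (fun p : Ω × Ω => Z2 μ F c p.1 p.2) (μ.prod μ) := by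
    refine Integrable.mono' (integrable_const (PZ μ F c)) (Z2_meas hF c).aestronglyMeasurable
      (Filter.Eventually.of_forall fun p => ?_)
    rw [Real.norm_eq_abs, abs_of_nonneg (zero_le_one.trans (one_le_Z2 hF c hc _ _))]
    exact Z2_le hF c hc _ _
  rw [PP_eq hM hG c hc _ hE (fun p hp => hp), PP_eq hM hG c hc B hB hB1,
    PP_eq hM hG c hc _ (hE.diff hB) (fun p hp => hp.1), ← mul_add]
  congr 1
  have hu : {p : Ω × Ω | F p.1 p.2 = 1} = B ∪ ({p | F p.1 p.2 = 1} \ B) :=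
    (Set.union_sdiff_cancel hB1).symm
  conv_lhs => rw [hu]
  rw [setIntegral_union Set.disjoint_sdiff_right (hE.diff hB) hint.integrableOn hint.integrableOn]

/-- the measure of the compatible pairs -/
theorem meas_far [IsProbabilityMeasure μ] (hG : Gas μ F D) :
    (μ.prod μ).real {p | F p.1 p.2 = 1} = 1 - D := by
  have hF := hG.adm
  have hE : MeasurableSet {p : Ω × Ω | F p.1 p.2 = 0} := hF.meas (measurableSet_singleton 0)
  have h1 : {p : Ω × Ω | F p.1 p.2 = 1} = {p : Ω × Ω | F p.1 p.2 = 0}ᶜ := by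
    ext p
    simp only [mem_ofPred_eq, mem_compl_iff]
    rcases hG.zo p.1 p.2 with h | h
    · simp [h]
    · simp [h]
  have h2 : (μ.prod μ) {p : Ω × Ω | F p.1 p.2 = 0} = ENNReal.ofReal D := by
    rw [Measure.prod_apply hE]
    have h3 : ∀ x, μ (Prod.mk x ⁻¹' {p : Ω × Ω | F p.1 p.2 = 0}) = ENNReal.ofReal D := fun x =>
      hG.vol x
    simp only [h3]
    rw [lintegral_const, measure_univ, mul_one]
  rw [h1, probReal_compl_eq_one_sub hE, measureReal_def, h2, ENNReal.toReal_ofReal hG.pos.le]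

/-- **The pair distribution in total variation, one activity.** -/
theorem tv_one [IsProbabilityMeasure μ] (hM : S_MOM2) (hG : Gas μ F D) (s : ℝ) (hs : 0 < s)
    (e η : ℝ) (h1 : ∀ u v, 1 - e ≤ gcor μ F (ac D s) u v) (he : 0 ≤ e) (hη : 0 ≤ η)
    (hs2 : Summable fun k : ℕ => (k : ℝ) ^ 2 * (ac D s ^ k / k.factorial * pr μ F k))
    (h2 : ∑' k : ℕ, (k : ℝ) ^ 2 * (ac D s ^ k / k.factorial * pr μ F k) ≤
      (1 + η) * (PM μ F (ac D s) ^ 2 * PZ μ F (ac D s)))
    (B : Set (Ω × Ω)) (hB : MeasurableSet B) (hB1 : ∀ p ∈ B, F p.1 p.2 = 1) :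
    |PP μ F (ac D s) B / PZ μ F (ac D s) - PM μ F (ac D s) ^ 2 * (μ.prod μ).real B| ≤
      (e + η + D) * PM μ F (ac D s) ^ 2 := by
  have hF := hG.adm
  have hD := hG.pos
  have hl := ac_pos hD hs
  have hE : MeasurableSet {p : Ω × Ω | F p.1 p.2 = 1} := hF.meas (measurableSet_singleton 1)
  have hZ := PZ_ge_one (μ := μ) hF _ hl.le
  have hZ0 : 0 < PZ μ F (ac D s) := by linarith
  have hall := PP_all (μ := μ) hF hG.zo (ac D s) hl.le {p | F p.1 p.2 = 1} hs2
  have hadd := PP_add hM hG (ac D s) hl.le B hB hB1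
  have low1 := (pairs hM hG s hs B hB hB1 e).1 h1
  have low2 := (pairs hM hG s hs _ (hE.diff hB) (fun p hp => hp.1) e).1 h1
  have hm : (μ.prod μ).real ({p | F p.1 p.2 = 1} \ B) = 1 - D - (μ.prod μ).real B := by
    have hsub : B ⊆ {p : Ω × Ω | F p.1 p.2 = 1} := hB1
    rw [measureReal_sdiff hsub hB, meas_far hG]
  rw [hm] at low2
  set P := PM μ F (ac D s) ^ 2 with hP
  have hP0 : 0 ≤ P := by positivity
  set ζ := PZ μ F (ac D s) with hζ
  set m := (μ.prod μ).real B with hmd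
  have hm0 : 0 ≤ m := measureReal_nonneg
  have hm1 : m ≤ 1 := measureReal_le_one
  have hup : PP μ F (ac D s) B / ζ ≤ (1 + η) * P - (1 - e) * (P * (1 - D - m)) := by
    have h3 : (PP μ F (ac D s) B + PP μ F (ac D s) ({p | F p.1 p.2 = 1} \ B)) / ζ ≤
        (1 + η) * P := by
      rw [← hadd, div_le_iff₀ hZ0]
      calc _ ≤ _ := hall
        _ ≤ (1 + η) * (P * ζ) := h2
        _ = _ := by ring
    rw [add_div] at h3
    linarith
  rw [abs_le]
  constructor
  · have h4 : e * (P * m) ≤ e * P := by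
      have := mul_le_mul_of_nonneg_left hm1 hP0
      exact mul_le_mul_of_nonneg_left (by linarith) he
    have h5 : 0 ≤ η * P := by positivity
    have h6 : 0 ≤ D * P := by positivity
    nlinarith
  · have h4 : 0 ≤ e * (P * (D + m)) := by positivity
    nlinarith

end Pool.Agent.N549.AB
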