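import Pool.Agent.N549.AB.Cor7

/-!
# Homogeneous hard-core gases: the pair distribution in total variation (project HG, sixth round)
-/

set_option autoImplicit false

namespace Pool.Agent.N549.AB

open MeasureTheory Set Finset
open scoped ENNReal NNReal
open Pool.Agent.N549.HG (A Z Adm Nice Mn Z_mono one_le_Z nice_Z)

/-- **The pair distribution in total variation, uniform form.** -/
theorem uniform_tv (hcanx : S_CANX) (hVar : S_VAR) (hM : S_MOM2) (X ε b : ℝ) (hε : 0 < ε)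
    (hb : 0 < b) : ∃ a N₀ : ℝ, 0 < a ∧
    ∀ (Ω : Type) [MeasurableSpace Ω] (μ : Measure Ω) [IsProbabilityMeasure μ]
      (F : Ω → Ω → ℝ≥0∞) (D κ δ₀ l N : ℝ), N₀ ≤ N → Gas μ F D → D ≤ Real.exp (-(b * N)) →
      0 ≤ κ → UpK μ F D κ →
      0 ≤ δ₀ → LocK μ F δ₀ D → 0 ≤ l → LensK μ F l D → κ ≤ Real.exp (-((X - ε / 8) * N)) →
      δ₀ ≤ Real.exp (-((X - ε / 8) * N)) → l ≤ Real.exp (-((X - ε / 8) * N)) →
      ∀ s : ℝ, Real.exp (-(a * N)) ≤ s → s ≤ (X - ε) * N →
      ∀ B : Set (Ω × Ω), MeasurableSet B → (∀ p ∈ B, F p.1 p.2 = 1) →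
        |PP μ F (ac D s) B / PZ μ F (ac D s) - PM μ F (ac D s) ^ 2 * (μ.prod μ).real B| ≤
          Real.exp (-(a * N)) * PM μ F (ac D s) ^ 2 := by
  obtain ⟨a₁, N₁, ha₁, h₁⟩ := uniform_cor X ε hε
  obtain ⟨a₂, N₂, ha₂, h₂⟩ := uniform_expU hcanx X (ε / 2) b (by positivity) hb
  set m : ℝ := min (min a₁ a₂) b with hm
  have hm0 : 0 < m := lt_min (lt_min ha₁ ha₂) hb
  have hm1 : m ≤ a₁ := (min_le_left _ _).trans (min_le_left _ _)
  have hm2 : m ≤ a₂ := (min_le_left _ _).trans (min_le_right _ _)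
  have hm3 : m ≤ b := min_le_right _ _
  obtain ⟨N₃, hN₃, hd⟩ := decay 0 (m / 16) (min (1 / 100) (ε / (6 * (|X| + 1))))
    (by positivity) (by positivity)
  simp only [abs_zero, zero_mul, add_zero, one_mul] at hd
  refine ⟨m / 16, max (max N₁ N₂) N₃, by positivity, ?_⟩
  intro Ω _ μ _ F D κ δ₀ l N hN hG hDb hκ hS hδ₀ hL hl hle hκN hδN hlN s hs hsN B hB hB1
  have g1 : N₁ ≤ N := ((le_max_left _ _).trans (le_max_left _ _)).trans hN
  have g2 : N₂ ≤ N := ((le_max_right _ _).trans (le_max_left _ _)).trans hN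
  have g3 : N₃ ≤ N := (le_max_right _ _).trans hN
  have hN0 : 0 ≤ N := hN₃.trans g3
  have hdN := hd N g3
  have hD := hG.pos
  set q : ℝ := Real.exp (-(m / 16 * N)) with hq
  have hq0 : 0 < q := Real.exp_pos _
  have hq100 : q ≤ 1 / 100 := hdN.trans (min_le_left _ _)
  have hqX : q * (6 * (|X| + 1)) ≤ ε := by
    have := hdN.trans (min_le_right _ _)
    rwa [le_div_iff₀ (by positivity)] at this
  have hq1 : q ≤ 1 := by linarith
  have hs0 : 0 < s := lt_of_lt_of_le hq0 hs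
  have hexp4 : ∀ x : ℝ, ε / 8 ≤ x → Real.exp (-((X - ε / 8) * N)) ≤ Real.exp (-((X - x) * N)) := by
    intro x hx
    rw [Real.exp_le_exp]
    have := mul_le_mul_of_nonneg_right hx hN0
    linarith
  have k1 := hexp4 (ε / 4) (by linarith)
  have k2 := hexp4 (ε / 2 / 4) (by linarith)
  obtain ⟨c1, -⟩ := h₁ Ω μ F D κ δ₀ l N g1 hG hκ hS hδ₀ hL hl hle (hκN.trans k1) (hδN.trans k1)
    (hlN.trans k1)
  obtain ⟨c2, -⟩ := h₂ Ω μ F D κ δ₀ N g2 hG hDb hκ hS hδ₀ hL (hκN.trans k2) (hδN.trans k2)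
  -- powers of `q`
  have hp1 : Real.exp (-(a₁ * N)) ≤ q ^ 16 := by
    rw [hq, ← Real.exp_nat_mul, Real.exp_le_exp]
    push_cast
    have := mul_le_mul_of_nonneg_right hm1 hN0
    nlinarith
  have hp2 : Real.exp (-(a₂ * N)) ≤ q ^ 16 := by
    rw [hq, ← Real.exp_nat_mul, Real.exp_le_exp]
    push_cast
    have := mul_le_mul_of_nonneg_right hm2 hN0
    nlinarith
  have hp3 : D ≤ q ^ 16 := by
    refine hDb.trans ?_
    rw [hq, ← Real.exp_nat_mul, Real.exp_le_exp]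
    push_cast
    have := mul_le_mul_of_nonneg_right hm3 hN0
    nlinarith
  have hpow : ∀ i j : ℕ, i ≤ j → q ^ j ≤ q ^ i := fun i j h =>
    pow_le_pow_of_le_one hq0.le hq1 h
  set e : ℝ := q ^ 16 with he
  have he0 : 0 ≤ e := by positivity
  set h : ℝ := q ^ 4 with hh
  have hh0 : 0 < h := by positivity
  have hhq : h ≤ q * (1 / 100) := by
    calc h = q * q ^ 3 := by rw [hh]; ring
      _ ≤ q * (1 / 100) := by
        refine mul_le_mul_of_nonneg_left ?_ hq0.le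
        calc q ^ 3 ≤ q ^ 1 := hpow 1 3 (by norm_num)
          _ ≤ 1 / 100 := by rw [pow_one]; exact hq100
  have hhq1 : h ≤ q := by linarith
  have hh4 : h ≤ 1 / 4 := by linarith
  have heh : e ≤ h ^ 2 / 48 := by
    have h3 : e = h ^ 2 * q ^ 8 := by rw [he, hh]; ring
    have h4 : q ^ 8 ≤ 1 / 48 := by
      calc q ^ 8 ≤ q ^ 1 := hpow 1 8 (by norm_num)
        _ ≤ 1 / 48 := by rw [pow_one]; linarith
    rw [h3]
    have := mul_le_mul_of_nonneg_left h4 (show 0 ≤ h ^ 2 by positivity)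
    linarith
  have hXN : 0 ≤ |X| * N := mul_nonneg (abs_nonneg _) hN0
  set W : ℝ := (X - ε / 2) * N with hW
  have hWs : (1 + h) ^ 2 * s ≤ W := by
    have h1 : s ≤ |X| * N :=
      hsN.trans (mul_le_mul_of_nonneg_right (by linarith [le_abs_self X]) hN0)
    have h2 : 3 * q * s ≤ 3 * q * (|X| * N) := mul_le_mul_of_nonneg_left h1 (by positivity)
    have h3 : 3 * q * (|X| * N) ≤ ε / 2 * N := by
      have h4 : q * (6 * (|X| + 1)) * N ≤ ε * N := mul_le_mul_of_nonneg_right hqX hN0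
      have h5 : 0 ≤ q * N := by positivity
      nlinarith
    have h6 : (1 + h) ^ 2 ≤ 1 + 3 * q := by nlinarith
    have h7 := mul_le_mul_of_nonneg_right h6 hs0.le
    have e2 : W = (X - ε) * N + ε / 2 * N := by rw [hW]; ring
    rw [e2]
    linarith
  have hDs : D ≤ h ^ 3 * s := by
    calc D ≤ q ^ 16 := hp3
      _ ≤ q ^ 13 := hpow 13 16 (by norm_num)
      _ = h ^ 3 * q := by rw [hh]; ring
      _ ≤ h ^ 3 * s := mul_le_mul_of_nonneg_left hs (by positivity)
  have hpress : ∀ s : ℝ, 0 < s → s ≤ W →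
      |D * Real.log (∑' k : ℕ, (s * Real.exp s / D) ^ k / k.factorial * pr μ F k) -
        (s + s ^ 2 / 2)| ≤ e * s := fun s hs hsW =>
    ((c2 s hs hsW).2).trans (mul_le_mul_of_nonneg_right hp2 hs.le)
  obtain ⟨v1, v2⟩ := hVar D e h W (pr μ F) hD he0 hh0 hh4 heh pr_zero
    (fun k => ⟨pr_nonneg k, pr_le_one hG.adm k⟩) hpress s hs0 hWs hDs
  have hac : s * Real.exp s / D = ac D s := rfl
  rw [hac] at v1 v2
  have hPZ : ∑' k : ℕ, ac D s ^ k / k.factorial * pr μ F k = PZ μ F (ac D s) := rfl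
  rw [hPZ] at v2
  -- the density
  have hsW : s ≤ W := by
    refine le_trans ?_ hWs
    nlinarith
  have dn := (c2 s hs0 hsW).1
  have dn' : |D * PM μ F (ac D s) - s| ≤ e * s := dn.trans (mul_le_mul_of_nonneg_right hp2 hs0.le)
  rw [abs_le] at dn'
  have he100 : e ≤ 1 / 100 := by
    calc e ≤ q ^ 1 := hpow 1 16 (by norm_num)
      _ ≤ 1 / 100 := by rw [pow_one]; exact hq100
  have hehh : e ≤ h := hpow 4 16 (by norm_num)
  set y := PM μ F (ac D s) with hy
  have hsy : s ≤ (1 + 2 * e) * (D * y) := by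
    have h3 : (1 - e) * s ≤ D * y := by linarith [dn'.1]
    have h4 : 0 ≤ e * (1 - 2 * e) * s := by
      have : 0 ≤ 1 - 2 * e := by linarith
      positivity
    have h5 : s ≤ (1 + 2 * e) * ((1 - e) * s) := by nlinarith
    exact h5.trans (mul_le_mul_of_nonneg_left h3 (by linarith))
  have hsy2 : (s / D) ^ 2 ≤ (1 + 5 * e) * y ^ 2 := by
    have h3 : s / D ≤ (1 + 2 * e) * y := by
      rw [div_le_iff₀ hD]
      calc s ≤ (1 + 2 * e) * (D * y) := hsy
        _ = _ := by ring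
    have h4 : 0 ≤ s / D := by positivity
    calc (s / D) ^ 2 ≤ ((1 + 2 * e) * y) ^ 2 := pow_le_pow_left₀ h4 h3 2
      _ = (1 + 2 * e) ^ 2 * y ^ 2 := by ring
      _ ≤ (1 + 5 * e) * y ^ 2 := by
        refine mul_le_mul_of_nonneg_right ?_ (by positivity)
        nlinarith
  have hZ := PZ_ge_one (μ := μ) hG.adm _ (ac_pos hD hs0).le
  have hmom : ∑' k : ℕ, (k : ℝ) ^ 2 * (ac D s ^ k / k.factorial * pr μ F k) ≤
      (1 + 15 * h) * (y ^ 2 * PZ μ F (ac D s)) := by
    refine v2.trans ?_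
    have h3 : (1 + 9 * h) * (1 + 5 * e) ≤ 1 + 15 * h := by
      have h4 : 0 ≤ h * (1 / 100 - e) := mul_nonneg hh0.le (by linarith)
      nlinarith
    calc (1 + 9 * h) * ((s / D) ^ 2 * PZ μ F (ac D s))
        ≤ (1 + 9 * h) * (((1 + 5 * e) * y ^ 2) * PZ μ F (ac D s)) := by
          refine mul_le_mul_of_nonneg_left ?_ (by positivity)
          exact mul_le_mul_of_nonneg_right hsy2 (by linarith)
      _ = (1 + 9 * h) * (1 + 5 * e) * (y ^ 2 * PZ μ F (ac D s)) := by ring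
      _ ≤ _ := by
        refine mul_le_mul_of_nonneg_right h3 ?_
        have : 0 ≤ y ^ 2 := by positivity
        exact mul_nonneg this (by linarith)
  have hfin := tv_one hM hG s hs0 e (15 * h)
    (fun u v => le_trans (by linarith [hp1]) (c1 s hs0 hsN u v)) he0 (by positivity) v1 hmom B hB
    hB1
  refine hfin.trans (mul_le_mul_of_nonneg_right ?_ (by positivity))
  have h16 : q ^ 16 ≤ h := hpow 4 16 (by norm_num)
  linarith

end Pool.Agent.N549.AB
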