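import Mathlib

/-!
# The window for binary codes is not empty (project HG, sixth round)
-/

set_option autoImplicit false

namespace Pool.Agent.N549.AB

/-- AB/ENTQ: the bound of McEliece, Rodemich, Rumsey and Welch is larger than the bound of
Gilbert and Varshamov -/
def S_ENTQ : Prop := ∀ δ : ℝ, 0 < δ → δ < 1 / 2 →
  Real.log 2 < Real.binEntropy δ + Real.binEntropy (1 / 2 - Real.sqrt (δ * (1 - δ)))

end Pool.Agent.N549.AB
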